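import Pool.Agent.NH39.W.Stm

/-! Project W: the bound for one annulus in the plane, for all parameters and all radii. -/

set_option autoImplicit false

namespace Pool.Agent.NH39.W

open H974 H12S H389NS Finset Pool.Agent.NH39
open Pool.Agent.NH39.NC (NCw nearNC A4a_q hQ hQ_nonneg hQ_le_one le_hQ hQ_anti)

/-- Monotonicity in the inner radius. -/
theorem A4a_inner {c : ℤ × ℤ} {d k D : ℕ} (h1 : d ≤ k) (h2 : k ≤ D) {F : Set Edg}
    (h : A4a c d D F) : A4a c k D F := by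
  obtain ⟨u, hu, u', hu', ⟨w, hw, hr⟩, ⟨w', hw', hr'⟩, hn⟩ := h
  have hin : ∀ v, v ∈ bdB c d → InB c k v := by
    intro v hv
    obtain ⟨a1, a2, -⟩ := hv
    have : (d:ℤ) ≤ k := by exact_mod_cast h1
    exact ⟨a1.trans this, a2.trans this⟩
  have hout : ∀ v, v ∈ bdB c D → OutB c D v := by
    intro v hv
    obtain ⟨-, -, a3⟩ := hv
    rcases a3 with a3 | a3
    · exact Or.inl a3.ge
    · exact Or.inr a3.ge
  obtain ⟨v, hv, z, hz, r1, r2⟩ := ann_cross h2 (hin u hu) (hout w hw) hr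
  obtain ⟨v', hv', z', hz', r1', r2'⟩ := ann_cross h2 (hin u' hu') (hout w' hw') hr'
  have e1 : (F ∩ ↑(blk c D \ blk c d)) ∩ (↑(blk c D \ blk c k) : Set Edg) =
      F ∩ ↑(blk c D \ blk c k) := by
    ext e
    constructor
    · rintro ⟨⟨a1, -⟩, a2⟩; exact ⟨a1, a2⟩
    · rintro ⟨a1, a2⟩
      refine ⟨⟨a1, ?_⟩, a2⟩
      rw [Finset.mem_coe, Finset.mem_sdiff] at a2 ⊢
      refine ⟨a2.1, fun h => a2.2 ?_⟩
      unfold blk at h ⊢
      exact RE_subset (by omega) (by omega) (by omega) (by omega) h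
  rw [e1] at r1 r1'
  refine ⟨v, hv, v', hv', ⟨z, hz, r1⟩, ⟨z', hz', r1'⟩, fun hc => hn ?_⟩
  rw [← e1] at r1 r1' hc
  exact r2.trans ((((r1.symm.trans hc).trans r1').mono Set.inter_subset_left).trans r2'.symm)

theorem A4a_dep (c : ℤ × ℤ) (d k : ℕ) :
    Dep (blk c k \ blk c d) (fun F => A4a c d k (↑F : Set Edg)) := by
  intro F F' hF
  have h : (↑F : Set Edg) ∩ ↑(blk c k \ blk c d) = (↑F' : Set Edg) ∩ ↑(blk c k \ blk c d) := by
    rw [← Finset.coe_inter, ← Finset.coe_inter, hF]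
  exact A4a_congr h

theorem hQ_split {q : ℝ} (q0 : 0 ≤ q) (q1 : q ≤ 1) {d k D : ℕ} (h1 : d ≤ k) (h2 : k ≤ D) :
    hQ q d D ≤ hQ q d k * hQ q k D := by
  have ok := okq q0 q1
  have hb : blk (0, 0) D = boxE D := S4C_blk0 D
  have s1 : blk (0, 0) k \ blk (0, 0) d ⊆ boxE D := by
    refine Finset.sdiff_subset.trans ?_
    rw [← hb]
    unfold blk
    exact RE_subset (by omega) (by omega) (by omega) (by omega)
  have s2 : blk (0, 0) D \ blk (0, 0) k ⊆ boxE D := by
    refine Finset.sdiff_subset.trans ?_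
    rw [← hb]
  have hd : Disjoint (blk (0, 0) k \ blk (0, 0) d) (blk (0, 0) D \ blk (0, 0) k) := by
    rw [Finset.disjoint_left]
    intro e he he'
    exact (Finset.mem_sdiff.1 he').2 (Finset.mem_sdiff.1 he).1
  have hmul := (A4a_dep (0, 0) d k).mul (A4a_dep (0, 0) k D) s1 s2 hd (fun _ => q)
  have g1 : hQ q d D ≤ Pr (fun _ => q) (boxE D)
      (fun F => A4a (0, 0) d k (↑F : Set Edg) ∧ A4a (0, 0) k D (↑F : Set Edg)) := by
    apply Pr_mono ok
    intro F _ h
    exact ⟨S4C_anti h1 h2 h, A4a_inner h1 h2 h⟩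
  rw [hmul] at g1
  refine g1.trans ?_
  apply mul_le_mul _ _ (Pr_nonneg ok _ _) (hQ_nonneg ok _ _)
  · apply le_hQ ok
    rw [← hb]
    unfold blk
    exact RE_subset (by omega) (by omega) (by omega) (by omega)
  · apply le_hQ ok
    rw [← hb]

theorem cube_exp {c : ℝ} (hc : 0 < c) : ∃ K : ℝ, 0 < K ∧ ∀ y : ℝ, 0 ≤ y →
    Real.exp (-(c * y)) ≤ K / (1 + y) ^ 3 := by
  refine ⟨4 * (1 + 6 / c ^ 3), by positivity, ?_⟩
  intro y hy
  have h1 : (1 + y) ^ 3 ≤ 4 * (1 + y ^ 3) := by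
    have : 4 * (1 + y ^ 3) - (1 + y) ^ 3 = 3 * ((1 - y) ^ 2 * (1 + y)) := by ring
    have h2 : 0 ≤ 3 * ((1 - y) ^ 2 * (1 + y)) := by positivity
    linarith
  have h2 : (c * y) ^ 3 / 6 ≤ Real.exp (c * y) := by
    have := Real.pow_div_factorial_le_exp (c * y) (by positivity) 3
    simpa [Nat.factorial] using this
  have h3 : y ^ 3 ≤ 6 / c ^ 3 * Real.exp (c * y) := by
    have : y ^ 3 = 6 / c ^ 3 * ((c * y) ^ 3 / 6) := by field_simp
    rw [this]
    exact mul_le_mul_of_nonneg_left h2 (by positivity)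
  have h4 : 1 ≤ Real.exp (c * y) := Real.one_le_exp (by positivity)
  have h5 : (1 + y) ^ 3 ≤ 4 * (1 + 6 / c ^ 3) * Real.exp (c * y) := by
    have : 4 * (1 + 6 / c ^ 3) * Real.exp (c * y) =
      4 * (Real.exp (c * y) + 6 / c ^ 3 * Real.exp (c * y)) := by ring
    rw [this]
    linarith
  rw [le_div_iff₀ (by positivity), Real.exp_neg, inv_mul_le_iff₀ (Real.exp_pos _)]
  linarith

/-- The ratio of the weights. -/
theorem wt_ratio {q : ℝ} {r D : ℕ} (hr : 1 ≤ r) (hD : r ≤ D) :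
    wt q D / wt q r = ((r:ℝ) / D) ^ (5/4 : ℝ) *
      ((1 + |q - 1/2| ^ (4/3 : ℝ) * r) / (1 + |q - 1/2| ^ (4/3 : ℝ) * D)) := by
  have hr0 : (0:ℝ) < r := by exact_mod_cast hr
  have hD0 : (0:ℝ) < D := by exact_mod_cast (by omega : 0 < D)
  obtain ⟨l, hl⟩ : ∃ l : ℝ, l = |q - 1/2| ^ (4/3 : ℝ) := ⟨_, rfl⟩
  have hl0 : 0 ≤ l := by rw [hl]; positivity
  unfold wt
  rw [← hl, Real.div_rpow hr0.le hD0.le, Real.rpow_neg hr0.le, Real.rpow_neg hD0.le]
  have a1 : 0 < (r:ℝ) ^ (5/4 : ℝ) := by positivity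
  have a2 : 0 < (D:ℝ) ^ (5/4 : ℝ) := by positivity
  have a3 : 0 < 1 + l * r := by positivity
  have a4 : 0 < 1 + l * D := by positivity
  have a5 : 0 < 1 + l := by positivity
  field_simp

/-- The bound for one annulus of the plane. -/
theorem pl : ∃ C : ℝ, 1 ≤ C ∧ ∀ q : ℝ, 0 ≤ q → q ≤ 1 → ∀ r D : ℕ, 1 ≤ r → r ≤ D →
    hQ q r D ≤ C * (wt q D / wt q r) := by
  obtain ⟨κ, b0, c4, C4, hκ, hb0, hc4, hC4, hnear⟩ := nearNC
  obtain ⟨C1, hC1, hann⟩ := A4a_q hκ hc4 hC4
  obtain ⟨c2, C2, hc2, hC2, hdec⟩ := dec_all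
  obtain ⟨K, hK, hKe⟩ := cube_exp (c := c2 / 6) (by positivity)
  obtain ⟨β, hβ⟩ : ∃ β : ℝ, β = b0 ^ (4/3 : ℝ) := ⟨_, rfl⟩
  have hβ0 : 0 < β := by rw [hβ]; positivity
  obtain ⟨A1, hA1⟩ : ∃ A1 : ℝ, A1 = C1 * (1 + β) := ⟨_, rfl⟩
  obtain ⟨A2, hA2⟩ : ∃ A2 : ℝ, A2 = (6:ℝ) ^ (5/4 : ℝ) * 6 := ⟨_, rfl⟩
  obtain ⟨A3, hA3⟩ : ∃ A3 : ℝ, A3 = C2 * K * (12 / β) ^ (5/4 : ℝ) := ⟨_, rfl⟩
  obtain ⟨A4, hA4⟩ : ∃ A4 : ℝ, A4 = C1 * A3 := ⟨_, rfl⟩
  have p1 : 0 < A1 := by rw [hA1]; positivity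
  have p2 : 0 < A2 := by rw [hA2]; positivity
  have p3 : 0 < A3 := by rw [hA3]; positivity
  have p4 : 0 < A4 := by rw [hA4]; positivity
  refine ⟨1 + A1 + A2 + A3 + A4, by linarith, ?_⟩
  intro q q0 q1 r D hr hrD
  have ok := okq q0 q1
  rw [wt_ratio hr hrD]
  obtain ⟨l, hl⟩ : ∃ l : ℝ, l = |q - 1/2| ^ (4/3 : ℝ) := ⟨_, rfl⟩
  rw [← hl]
  have hl0 : 0 ≤ l := by rw [hl]; positivity
  have hr1 : (1:ℝ) ≤ r := by exact_mod_cast hr
  have hr0 : (0:ℝ) < r := by linarith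
  have hrD' : (r:ℝ) ≤ D := by exact_mod_cast hrD
  have hD0 : (0:ℝ) < D := by linarith
  obtain ⟨A, hA⟩ : ∃ A : ℝ, A = ((r:ℝ) / D) ^ (5/4 : ℝ) := ⟨_, rfl⟩
  rw [← hA]
  have hA0 : 0 < A := by rw [hA]; positivity
  have d1 : 0 < 1 + l * r := by positivity
  have d2 : 0 < 1 + l * D := by positivity
  obtain ⟨T, hT⟩ : ∃ T : ℝ, T = A * ((1 + l * r) / (1 + l * D)) := ⟨_, rfl⟩
  rw [← hT]
  have hT0 : 0 < T := by rw [hT]; positivity
  -- it is enough to have one of the constants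
  have fin : ∀ B : ℝ, B ≤ 1 + A1 + A2 + A3 + A4 → hQ q r D ≤ B * T →
      hQ q r D ≤ (1 + A1 + A2 + A3 + A4) * T :=
    fun B hB h => h.trans (mul_le_mul_of_nonneg_right hB hT0.le)
  -- the window
  have win : ∀ d k : ℕ, 1 ≤ d → d ≤ k → l * k ≤ β → hQ q d k ≤ C1 * ((d:ℝ) / k) ^ (5/4 : ℝ) := by
    intro d k hd hdk hlk
    have hk0 : (0:ℝ) < k := by exact_mod_cast (by omega : 0 < k)
    have h1 : |q - 1/2| ≤ b0 * (k:ℝ) ^ (-(3/4) : ℝ) := by
      have e1 : |q - 1/2| = l ^ (3/4 : ℝ) := by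
        rw [hl, ← Real.rpow_mul (abs_nonneg _)]; norm_num
      have e2 : l ≤ β / k := by rw [le_div_iff₀ hk0]; exact hlk
      have e3 : l ^ (3/4 : ℝ) ≤ (β / k) ^ (3/4 : ℝ) := Real.rpow_le_rpow hl0 e2 (by norm_num)
      rw [e1]
      refine e3.trans (le_of_eq ?_)
      rw [Real.div_rpow hβ0.le hk0.le, hβ, ← Real.rpow_mul hb0.le, Real.rpow_neg hk0.le]
      norm_num
      rw [div_eq_mul_inv]
    have h2 := hann q k (hnear k (by omega) q (by
      rw [show (-(3/4 : ℝ)) = (-(3/4) : ℝ) by norm_num]; exact h1)) (0, 0) d k hd hdk le_rfl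
      (boxE k) (by rw [S4C_blk0])
    exact h2
  -- the decay
  have dec : ∀ d k : ℕ, 1 ≤ d → 6 * d ≤ k → hQ q d k ≤ C2 * (K / (1 + l * k) ^ 3) := by
    intro d k hd hdk
    obtain ⟨m, hm⟩ : ∃ m : ℕ, m = k / 3 := ⟨_, rfl⟩
    have h1 : d < m := by omega
    have h2 : 3 * m ≤ k := by omega
    have h3 : k ≤ 6 * m := by omega
    have h4 := hdec q q0 q1 (0, 0) d m h1 (boxE (3 * m)) (by rw [S4C_blk0])
    rw [← hl] at h4
    have h5 : hQ q d k ≤ hQ q d (3 * m) := hQ_anti ok (by omega) h2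
    have h6 : Real.exp (-(c2 * (m * l))) ≤ Real.exp (-(c2 / 6 * (l * k))) := by
      apply Real.exp_le_exp.2
      have : (k:ℝ) ≤ 6 * m := by exact_mod_cast h3
      have : l * k ≤ l * (6 * m) := mul_le_mul_of_nonneg_left this hl0
      nlinarith
    have h7 := hKe (l * k) (by positivity)
    exact h5.trans (h4.trans (mul_le_mul_of_nonneg_left (h6.trans h7) hC2.le))
  -- the comparison
  have hP : (l * r) ^ (5/4 : ℝ) ≤ A * (1 + l * D) ^ 2 := by
    have e1 : l * r = (r:ℝ) / D * (l * D) := by field_simp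
    have e2 : l * D ≤ 1 + l * D := by linarith
    have e3 : (l * D) ^ (5/4 : ℝ) ≤ (1 + l * D) ^ (2 : ℝ) :=
      (Real.rpow_le_rpow (by positivity) e2 (by norm_num)).trans
        (Real.rpow_le_rpow_of_exponent_le (by linarith [mul_nonneg hl0 hD0.le]) (by norm_num))
    rw [Real.rpow_two] at e3
    rw [e1, Real.mul_rpow (by positivity) (by positivity), ← hA]
    exact mul_le_mul_of_nonneg_left e3 hA0.le
  have hTP : A * (1 + l * D) ^ 2 / (1 + l * D) ^ 3 ≤ T := by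
    rw [hT, div_le_iff₀ (by positivity)]
    have : A * ((1 + l * r) / (1 + l * D)) * (1 + l * D) ^ 3 =
        A * (1 + l * D) ^ 2 * (1 + l * r) := by field_simp
    rw [this]
    have : 0 ≤ A * (1 + l * D) ^ 2 := by positivity
    nlinarith [mul_nonneg hl0 hr0.le]
  rcases le_or_gt (l * D) β with hB | hB
  · -- in the window
    apply fin A1 (by linarith)
    refine (win r D hr hrD hB).trans ?_
    rw [← hA, hA1, hT]
    have : 1 ≤ (1 + β) * ((1 + l * r) / (1 + l * D)) := by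
      rw [← mul_div_assoc, le_div_iff₀ d2]
      have : 0 ≤ l * r := by positivity
      nlinarith
    calc C1 * A = C1 * A * 1 := by ring
      _ ≤ C1 * A * ((1 + β) * ((1 + l * r) / (1 + l * D))) :=
          mul_le_mul_of_nonneg_left this (by positivity)
      _ = _ := by ring
  · rcases lt_or_ge D (6 * r) with h6 | h6
    · -- comparable radii
      apply fin A2 (by linarith)
      refine (hQ_le_one ok _ _).trans ?_
      have h6' : (D:ℝ) ≤ 6 * r := by exact_mod_cast h6.le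
      have e1 : 1 / 6 ≤ (r:ℝ) / D := by rw [div_le_div_iff₀ (by norm_num) hD0]; linarith
      have e2 : 1 / 6 ≤ (1 + l * r) / (1 + l * D) := by
        rw [div_le_div_iff₀ (by norm_num) d2]
        have := mul_le_mul_of_nonneg_left h6' hl0
        nlinarith
      have e3 : (1/6 : ℝ) ^ (5/4 : ℝ) ≤ A := by
        rw [hA]; exact Real.rpow_le_rpow (by norm_num) e1 (by norm_num)
      have e4 : (6:ℝ) ^ (5/4 : ℝ) * (1/6 : ℝ) ^ (5/4 : ℝ) = 1 := by
        rw [← Real.mul_rpow (by norm_num) (by norm_num)]; norm_num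
      rw [hT, hA2]
      calc (1:ℝ) = (6:ℝ) ^ (5/4 : ℝ) * 6 * ((1/6 : ℝ) ^ (5/4 : ℝ) * (1/6)) := by
            rw [show (6:ℝ) ^ (5/4 : ℝ) * 6 * ((1/6 : ℝ) ^ (5/4 : ℝ) * (1/6)) =
              (6:ℝ) ^ (5/4 : ℝ) * (1/6 : ℝ) ^ (5/4 : ℝ) by ring, e4]
        _ ≤ (6:ℝ) ^ (5/4 : ℝ) * 6 * (A * ((1 + l * r) / (1 + l * D))) := by
            apply mul_le_mul_of_nonneg_left _ (by positivity)
            exact mul_le_mul e3 e2 (by norm_num) hA0.le
    · rcases lt_or_ge (β / 12) (l * r) with h7 | h7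
      · -- beyond the correlation length
        apply fin A3 (by linarith)
        refine (dec r D hr h6).trans ?_
        have e1 : 1 ≤ (12 / β) ^ (5/4 : ℝ) * (l * r) ^ (5/4 : ℝ) := by
          rw [← Real.mul_rpow (by positivity) (by positivity)]
          apply Real.one_le_rpow _ (by norm_num)
          rw [div_mul_eq_mul_div, le_div_iff₀ hβ0]
          linarith
        have e2 : 1 ≤ (12 / β) ^ (5/4 : ℝ) * (A * (1 + l * D) ^ 2) :=
          e1.trans (mul_le_mul_of_nonneg_left hP (by positivity))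
        rw [hA3]
        calc C2 * (K / (1 + l * D) ^ 3) = C2 * K * (1 / (1 + l * D) ^ 3) := by ring
          _ ≤ C2 * K * ((12 / β) ^ (5/4 : ℝ) * (A * (1 + l * D) ^ 2) / (1 + l * D) ^ 3) := by
              apply mul_le_mul_of_nonneg_left _ (by positivity)
              exact div_le_div_of_nonneg_right e2 (by positivity)
          _ = C2 * K * (12 / β) ^ (5/4 : ℝ) * (A * (1 + l * D) ^ 2 / (1 + l * D) ^ 3) := by ring
          _ ≤ _ := mul_le_mul_of_nonneg_left hTP (by positivity)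
      · -- across the correlation length
        apply fin A4 (by linarith)
        have hlp : 0 < l := by
          rcases hl0.lt_or_eq with h | h
          · exact h
          · rw [← h, zero_mul] at hB; linarith
        obtain ⟨X, hX⟩ : ∃ X : ℝ, X = β / (6 * l) := ⟨_, rfl⟩
        have hX0 : 0 < X := by rw [hX]; positivity
        have hXr : 2 * (r:ℝ) ≤ X := by
          rw [hX, le_div_iff₀ (by positivity)]
          linarith
        obtain ⟨k, hk⟩ : ∃ k : ℕ, k = ⌊X⌋₊ := ⟨_, rfl⟩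
        have k1 : (k:ℝ) ≤ X := by rw [hk]; exact Nat.floor_le hX0.le
        have k2 : X < k + 1 := by rw [hk]; exact Nat.lt_floor_add_one X
        have k3 : X ≤ 2 * k := by linarith
        have k4 : r ≤ k := by
          have : (r:ℝ) < k + 1 := by linarith
          exact Nat.lt_succ_iff.1 (by exact_mod_cast this)
        have k5 : l * k ≤ β := by
          have := mul_le_mul_of_nonneg_left k1 hlp.le
          have e : l * X = β / 6 := by rw [hX]; field_simp
          linarith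
        have k6 : 6 * k ≤ D := by
          have e : 6 * X * l = β := by rw [hX]; field_simp
          have h1 : 6 * X < D := by
            by_contra hcon
            push Not at hcon
            have := mul_le_mul_of_nonneg_left hcon hlp.le
            linarith
          have : (6:ℝ) * k ≤ D := by linarith
          exact_mod_cast this
        have g1 := hQ_split q0 q1 k4 (show k ≤ D by omega)
        have g2 := win r k hr k4 k5
        have g3 := dec k D (by omega) k6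
        have hk0 : (0:ℝ) < k := by linarith
        have g4 : ((r:ℝ) / k) ^ (5/4 : ℝ) ≤ (12 / β) ^ (5/4 : ℝ) * (l * r) ^ (5/4 : ℝ) := by
          rw [← Real.mul_rpow (by positivity) (by positivity)]
          apply Real.rpow_le_rpow (by positivity) _ (by norm_num)
          rw [div_le_iff₀ hk0]
          have e : 12 / β * (l * r) * X = 2 * r := by rw [hX]; field_simp; norm_num
          have e2 : 12 / β * (l * r) * X ≤ 12 / β * (l * r) * (2 * k) :=
            mul_le_mul_of_nonneg_left k3 (by positivity)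
          rw [e] at e2
          linarith
        have g5 : hQ q r k ≤ C1 * ((12 / β) ^ (5/4 : ℝ) * (A * (1 + l * D) ^ 2)) := by
          refine g2.trans (mul_le_mul_of_nonneg_left (g4.trans ?_) hC1.le)
          exact mul_le_mul_of_nonneg_left hP (by positivity)
        refine g1.trans ?_
        calc hQ q r k * hQ q k D ≤ C1 * ((12 / β) ^ (5/4 : ℝ) * (A * (1 + l * D) ^ 2)) *
              (C2 * (K / (1 + l * D) ^ 3)) :=
              mul_le_mul g5 g3 (hQ_nonneg ok _ _) (by positivity)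
          _ = C1 * (C2 * K * (12 / β) ^ (5/4 : ℝ)) *
                (A * (1 + l * D) ^ 2 / (1 + l * D) ^ 3) := by ring
          _ = A4 * (A * (1 + l * D) ^ 2 / (1 + l * D) ^ 3) := by rw [hA4, hA3]
          _ ≤ _ := mul_le_mul_of_nonneg_left hTP p4.le

end Pool.Agent.NH39.W
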