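import Pool.Agent.NH39.W.Ann1

/-! Project W: one annulus of the torus. -/

set_option autoImplicit false

namespace Pool.Agent.NH39.W

open H974 H12S H389NS Finset Pool.Agent.NH39 Pool.Agent.NH39.GC
open Pool.Agent.NH39.NC (hQ hQ_nonneg hQ_le_one le_hQ hQ_anti)

/-! ### the distance -/

theorem zd_cast {n : ℕ} [NeZero n] {N : ℕ} (hN : 2 * N + 1 ≤ n) {a : ℤ} (ha : |a| ≤ N) :
    zd ((a : ℤ) : ZMod n) = a.natAbs := by
  unfold zd
  have h : ((a : ℤ) : ZMod n).valMinAbs = a := by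
    rw [ZMod.valMinAbs_spec]
    refine ⟨rfl, ?_⟩
    rw [abs_le] at ha
    rw [Set.mem_Ioc]
    constructor <;> omega
  rw [h]

theorem zd_neg {n : ℕ} (a : ZMod n) : zd (-a) = zd a := ZMod.natAbs_valMinAbs_neg a

theorem zd_zero {n : ℕ} : zd (0 : ZMod n) = 0 := by
  unfold zd; simp

theorem zd_add {n : ℕ} (a b : ZMod n) : zd (a + b) ≤ zd a + zd b :=
  (ZMod.natAbs_valMinAbs_add_le a b).trans (Int.natAbs_add_le _ _)

theorem tds_self {n : ℕ} (e : TE n) : tds e e = 0 := by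
  unfold tds; simp [zd_zero]

theorem tds_comm {n : ℕ} (e f : TE n) : tds e f = tds f e := by
  unfold tds
  rw [← neg_sub f.1 e.1, ← neg_sub f.2.1 e.2.1, zd_neg, zd_neg]

theorem tds_tri {n : ℕ} (e f g : TE n) : tds e g ≤ tds e f + tds f g := by
  unfold tds
  have h1 := zd_add (e.1 - f.1) (f.1 - g.1)
  have h2 := zd_add (e.2.1 - f.2.1) (f.2.1 - g.2.1)
  rw [sub_add_sub_cancel] at h1 h2
  omega

theorem tds_le {n : ℕ} [NeZero n] (e f : TE n) : tds e f ≤ n / 2 :=
  max_le (ZMod.natAbs_valMinAbs_le _) (ZMod.natAbs_valMinAbs_le _)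

/-! ### the torus seen from an edge -/

/-- First coordinate of the edge. -/
def cX {n : ℕ} (x : TE n) : ℤ := (x.1.val : ℤ)

/-- Second coordinate of the edge. -/
def cY {n : ℕ} (x : TE n) : ℤ := (x.2.1.val : ℤ)

theorem cX_cast {n : ℕ} [NeZero n] (x : TE n) : ((cX x : ℤ) : ZMod n) = x.1 := by
  unfold cX; simp

theorem cY_cast {n : ℕ} [NeZero n] (x : TE n) : ((cY x : ℤ) : ZMod n) = x.2.1 := by
  unfold cY; simp

theorem rd_cent {n : ℕ} [NeZero n] (x : TE n) : rd n (cX x) (cY x) (0, 0, x.2.2) = x := by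
  unfold rd
  simp [cX_cast, cY_cast]

theorem tds_rd {n : ℕ} [NeZero n] {N : ℕ} (hN : 2 * N + 1 ≤ n) (x : TE n) {e : Edg}
    (h1 : |e.1| ≤ N) (h2 : |e.2.1| ≤ N) :
    tds (rd n (cX x) (cY x) e) x = max e.1.natAbs e.2.1.natAbs := by
  unfold tds rd
  simp only
  have e1 : ((cX x + e.1 : ℤ) : ZMod n) - x.1 = ((e.1 : ℤ) : ZMod n) := by
    push_cast
    rw [cX_cast]; ring
  have e2 : ((cY x + e.2.1 : ℤ) : ZMod n) - x.2.1 = ((e.2.1 : ℤ) : ZMod n) := by
    push_cast
    rw [cY_cast]; ring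
  rw [e1, e2, zd_cast hN h1, zd_cast hN h2]

/-- The configuration seen in the box of radius `D` around `x`. -/
noncomputable def pu {n : ℕ} (x : TE n) (D : ℕ) (F : Finset (TE n)) : Finset Edg :=
  (boxE D).filter (fun e => rd n (cX x) (cY x) e ∈ F)

/-- The edges of the annulus are at the right distance. -/
theorem ann_dist {n : ℕ} [NeZero n] {N : ℕ} (hN : 2 * N + 1 ≤ n) (x : TE n) {r D : ℕ} (hD : D ≤ N)
    {e : Edg} (he : e ∈ blk (0, 0) D \ blk (0, 0) r) :
    r ≤ tds (rd n (cX x) (cY x) e) x ∧ tds (rd n (cX x) (cY x) e) x ≤ D := by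
  rw [Finset.mem_sdiff] at he
  obtain ⟨h1, h2⟩ := he
  unfold blk at h1 h2
  obtain ⟨a, b, o⟩ := e
  have hab : |a| ≤ (D:ℤ) ∧ |b| ≤ (D:ℤ) := by
    cases o
    · rw [mem_RE_false] at h1
      rw [abs_le, abs_le]; simp only at h1; omega
    · rw [mem_RE_true] at h1
      rw [abs_le, abs_le]; simp only at h1; omega
  have hDN : (D:ℤ) ≤ N := by exact_mod_cast hD
  rw [tds_rd hN x (e := (a, b, o)) (hab.1.trans hDN) (hab.2.trans hDN)]
  simp only
  rw [abs_le, abs_le] at hab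
  cases o
  · rw [mem_RE_false] at h2
    simp only at h2
    omega
  · rw [mem_RE_true] at h2
    simp only at h2
    omega

/-- The annulus of the configuration. -/
theorem pu_congr {n : ℕ} [NeZero n] {N : ℕ} (hN : 2 * N + 1 ≤ n) {x : TE n} {r D : ℕ} (hD : D ≤ N)
    {F F' : Finset (TE n)} (h : ∀ e, r ≤ tds e x → tds e x ≤ D → (e ∈ F ↔ e ∈ F')) :
    (↑(pu x D F) : Set Edg) ∩ ↑(blk (0, 0) D \ blk (0, 0) r) =
      (↑(pu x D F') : Set Edg) ∩ ↑(blk (0, 0) D \ blk (0, 0) r) := by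
  ext e
  simp only [Set.mem_inter_iff, Finset.mem_coe]
  constructor
  · rintro ⟨h1, h2⟩
    obtain ⟨h3, h4⟩ := ann_dist hN x hD h2
    refine ⟨?_, h2⟩
    unfold pu at h1 ⊢
    rw [Finset.mem_filter] at h1 ⊢
    exact ⟨h1.1, (h _ h3 h4).1 h1.2⟩
  · rintro ⟨h1, h2⟩
    obtain ⟨h3, h4⟩ := ann_dist hN x hD h2
    refine ⟨?_, h2⟩
    unfold pu at h1 ⊢
    rw [Finset.mem_filter] at h1 ⊢
    exact ⟨h1.1, (h _ h3 h4).2 h1.2⟩

/-! ### paths -/

theorem stay2 {n : ℕ} [NeZero n] {x : TE n} {D : ℕ} {H : Finset (TE n)} {u : Vtx}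
    (hu : InB (0, 0) D u) {z : ZMod n × ZMod n}
    (h : GC.GR tsrc ttgt (↑H : Set (TE n)) (rv n (cX x) (cY x) u) z) :
    (∃ w ∈ bdB (0, 0) D, Reach (↑(pu x D H) : Set Edg) u w) ∨
      (∃ w : Vtx, |w.1| < D ∧ |w.2| < D ∧ Reach (↑(pu x D H) : Set Edg) u w ∧
        rv n (cX x) (cY x) w = z) := by
  have bd : ∀ w : Vtx, |w.1| ≤ (D:ℤ) → |w.2| ≤ (D:ℤ) → ¬ (|w.1| < (D:ℤ) ∧ |w.2| < (D:ℤ)) →
      w ∈ bdB (0, 0) D := by
    intro w h1 h2 h3
    refine ⟨by simpa using h1, by simpa using h2, ?_⟩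
    simp only [sub_zero]
    by_cases h4 : |w.1| = (D:ℤ)
    · exact Or.inl h4
    · right
      have h5 : |w.1| < (D:ℤ) := lt_of_le_of_ne h1 h4
      have h6 : ¬ |w.2| < (D:ℤ) := fun h => h3 ⟨h5, h⟩
      exact le_antisymm h2 (not_lt.1 h6)
  induction h with
  | refl =>
    obtain ⟨h1, h2⟩ := hu
    simp only [sub_zero] at h1 h2
    by_cases h3 : |u.1| < (D:ℤ) ∧ |u.2| < (D:ℤ)
    · exact Or.inr ⟨u, h3.1, h3.2, Reach.refl _ _, rfl⟩
    · exact Or.inl ⟨u, bd u h1 h2 h3, Reach.refl _ _⟩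
  | @tail z z' _ hs ih =>
    rcases ih with ih | ⟨w, hw1, hw2, hw3, hw4⟩
    · exact Or.inl ih
    · have hw1' := hw1
      have hw2' := hw2
      rw [abs_lt] at hw1' hw2'
      obtain ⟨g, hg, hc⟩ := hs
      rw [Finset.mem_coe] at hg
      obtain ⟨gx, gy, gb⟩ := g
      -- conclusion from a lifted edge
      have key : ∀ (e : Edg) (w' : Vtx), e ∈ boxE D → rd n (cX x) (cY x) e = (gx, gy, gb) →
          ((src e = w ∧ tgt e = w') ∨ (src e = w' ∧ tgt e = w)) →
          rv n (cX x) (cY x) w' = z' →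
          (∃ w ∈ bdB (0, 0) D, Reach (↑(pu x D H) : Set Edg) u w) ∨
          (∃ w : Vtx, |w.1| < D ∧ |w.2| < D ∧ Reach (↑(pu x D H) : Set Edg) u w ∧
            rv n (cX x) (cY x) w = z') := by
        intro e w' he hrd hadj hz
        have hmem : e ∈ (↑(pu x D H) : Set Edg) := by
          unfold pu
          rw [Finset.mem_coe, Finset.mem_filter, hrd]
          exact ⟨he, hg⟩
        have hr : Reach (↑(pu x D H) : Set Edg) u w' := hw3.trans (Adj.reach ⟨e, hmem, hadj⟩)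
        have hin : |w'.1| ≤ (D:ℤ) ∧ |w'.2| ≤ (D:ℤ) := by
          have h1 := blk_ends (c := (0, 0)) (d := D) (e := e) (by rw [S4C_blk0]; exact he)
          unfold InB at h1
          simp only [sub_zero] at h1
          rcases hadj with ⟨-, h2⟩ | ⟨h2, -⟩
          · rw [← h2]; exact h1.2
          · rw [← h2]; exact h1.1
        by_cases h3 : |w'.1| < (D:ℤ) ∧ |w'.2| < (D:ℤ)
        · exact Or.inr ⟨w', h3.1, h3.2, hr, hz⟩
        · exact Or.inl ⟨w', bd w' hin.1 hin.2 h3, hr⟩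
      rcases hc with ⟨h3, h4⟩ | ⟨h3, h4⟩
      · -- the edge starts at `w`
        rw [← hw4] at h3
        simp only [tsrc, rv, Prod.mk.injEq] at h3
        obtain ⟨h5, h6⟩ := h3
        have hrd : rd n (cX x) (cY x) (w.1, w.2, gb) = (gx, gy, gb) := by
          simp only [rd, Prod.mk.injEq, and_true]
          exact ⟨h5.symm, h6.symm⟩
        have hbox : ((w.1, w.2, gb) : Edg) ∈ boxE D := by
          unfold boxE
          cases gb
          · rw [mem_RE_false]; omega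
          · rw [mem_RE_true]; omega
        refine key (w.1, w.2, gb) (tgt (w.1, w.2, gb)) hbox hrd (Or.inl ⟨by simp, rfl⟩) ?_
        rw [← ttgt_rd, hrd, h4]
      · -- the edge ends at `w`
        rw [← hw4] at h4
        obtain ⟨e, he⟩ : ∃ e : Edg, e = if gb then (w.1 - 1, w.2, gb) else (w.1, w.2 - 1, gb) :=
          ⟨_, rfl⟩
        have htgt : tgt e = w := by
          rw [he]
          cases gb
          · simp only [Bool.false_eq_true, if_false, tgt_false]
            exact Prod.ext rfl (by simp)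
          · simp only [if_true, tgt_true]
            exact Prod.ext (by simp) rfl
        have hrd : rd n (cX x) (cY x) e = (gx, gy, gb) := by
          rw [he]
          cases gb
          · simp only [ttgt, rv, Bool.false_eq_true, if_false, Prod.mk.injEq] at h4
            obtain ⟨h5, h6⟩ := h4
            simp only [Bool.false_eq_true, if_false, rd, Prod.mk.injEq, and_true]
            refine ⟨h5.symm, ?_⟩
            have : ((cY x + (w.2 - 1) : ℤ) : ZMod n) = ((cY x + w.2 : ℤ) : ZMod n) - 1 := by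
              push_cast; ring
            rw [this, ← h6]; ring
          · simp only [ttgt, rv, if_true, Prod.mk.injEq] at h4
            obtain ⟨h5, h6⟩ := h4
            simp only [if_true, rd, Prod.mk.injEq, and_true]
            refine ⟨?_, h6.symm⟩
            have : ((cX x + (w.1 - 1) : ℤ) : ZMod n) = ((cX x + w.1 : ℤ) : ZMod n) - 1 := by
              push_cast; ring
            rw [this, ← h5]; ring
        have hbox : e ∈ boxE D := by
          rw [he]
          unfold boxE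
          cases gb
          · simp only [Bool.false_eq_true, if_false]; rw [mem_RE_false]; omega
          · simp only [if_true]; rw [mem_RE_true]; omega
        refine key e (src e) hbox hrd (Or.inr ⟨rfl, htgt⟩) ?_
        rw [← tsrc_rd, hrd, h3]

/-- A path from the inner square to the outside crosses the annulus. -/
theorem cross2 {n : ℕ} [NeZero n] {x : TE n} {r D : ℕ} (hrD : r ≤ D) {H : Finset (TE n)} {u : Vtx}
    (hu : InB (0, 0) r u) {z : ZMod n × ZMod n}
    (hz : ∀ w : Vtx, |w.1| < D → |w.2| < D → rv n (cX x) (cY x) w ≠ z)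
    (h : GC.GR tsrc ttgt (↑H : Set (TE n)) (rv n (cX x) (cY x) u) z) :
    ∃ v ∈ bdB (0, 0) r, ∃ w ∈ bdB (0, 0) D,
      Reach ((↑(pu x D H) : Set Edg) ∩ ↑(blk (0, 0) D \ blk (0, 0) r)) v w ∧
      GC.GR tsrc ttgt (↑H : Set (TE n)) (rv n (cX x) (cY x) u) (rv n (cX x) (cY x) w) := by
  have hrD' : (r:ℤ) ≤ D := by exact_mod_cast hrD
  have hsub : (↑(pu x D H) : Set Edg) ⊆ ↑(blk (0, 0) D) := by
    intro e he
    rw [S4C_blk0]
    unfold pu at he
    rw [Finset.mem_coe, Finset.mem_filter] at he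
    exact Finset.mem_coe.2 he.1
  rcases stay2 (D := D) (⟨hu.1.trans hrD', hu.2.trans hrD'⟩ : InB (0, 0) D u) h with
    ⟨w, hw, hr⟩ | ⟨w, h1, h2, -, h3⟩
  · obtain ⟨v, hv, hr2⟩ := inner_exit hrD hsub hw hr.symm hu
    refine ⟨v, hv, w, hw, hr2.symm.mono ?_, ?_⟩
    · rintro e ⟨h4, h5⟩
      refine ⟨h4, ?_⟩
      rw [Finset.mem_coe, Finset.mem_sdiff]
      exact ⟨Finset.mem_coe.1 (hsub h4), fun h => h5 (Finset.mem_coe.2 h)⟩
    · refine reach_rd ?_ hr
      intro e he
      unfold pu at he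
      rw [Finset.mem_coe, Finset.mem_filter] at he
      exact Finset.mem_coe.2 he.2
  · exact absurd h3 (hz w h1 h2)

/-- The ends of a far edge are outside. -/
theorem far_ends {n : ℕ} [NeZero n] {N : ℕ} (hN : 2 * N + 1 ≤ n) {x b : TE n} {D : ℕ} (hD : D ≤ N)
    (hb : D < tds b x) : (∀ w : Vtx, |w.1| < D → |w.2| < D → rv n (cX x) (cY x) w ≠ tsrc b) ∧
      (∀ w : Vtx, |w.1| < D → |w.2| < D → rv n (cX x) (cY x) w ≠ ttgt b) := by
  have hDN : (D:ℤ) ≤ N := by exact_mod_cast hD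
  obtain ⟨b1, b2, o⟩ := b
  -- the distance from the coordinates
  have key : ∀ c d : ℤ, |c| ≤ D → |d| ≤ D → b1 = ((cX x + c : ℤ) : ZMod n) →
      b2 = ((cY x + d : ℤ) : ZMod n) → False := by
    intro c d hc hd h1 h2
    have h3 := tds_rd hN x (e := (c, d, o)) (hc.trans hDN) (hd.trans hDN)
    have h4 : rd n (cX x) (cY x) (c, d, o) = (b1, b2, o) := by
      unfold rd
      rw [h1, h2]
    rw [h4] at h3
    rw [h3] at hb
    simp only at hb
    rw [abs_le] at hc hd
    omega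
  constructor
  · intro w h1 h2 h3
    unfold rv tsrc at h3
    rw [Prod.mk.injEq] at h3
    exact key w.1 w.2 h1.le h2.le h3.1.symm h3.2.symm
  · intro w h1 h2 h3
    rw [abs_lt] at h1 h2
    cases o
    · simp only [rv, ttgt, Bool.false_eq_true, if_false, Prod.mk.injEq] at h3
      refine key w.1 (w.2 - 1) (by rw [abs_le]; omega) (by rw [abs_le]; omega) h3.1.symm ?_
      have : ((cY x + (w.2 - 1) : ℤ) : ZMod n) = ((cY x + w.2 : ℤ) : ZMod n) - 1 := by
        push_cast; ring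
      rw [this, h3.2]; ring
    · simp only [rv, ttgt, if_true, Prod.mk.injEq] at h3
      refine key (w.1 - 1) w.2 (by rw [abs_le]; omega) (by rw [abs_le]; omega) ?_ h3.2.symm
      have : ((cX x + (w.1 - 1) : ℤ) : ZMod n) = ((cX x + w.1 : ℤ) : ZMod n) - 1 := by
        push_cast; ring
      rw [this, h3.1]; ring

/-- Without two crossing clusters of the annulus, a far edge does not matter for the connection of
the ends of `x`. -/
theorem det {n : ℕ} [NeZero n] {N : ℕ} (hN : 2 * N + 1 ≤ n) {x b : TE n} {r D : ℕ} (hr : 1 ≤ r)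
    (hrD : r ≤ D) (hD : D ≤ N) (hb : D < tds b x) {H : Finset (TE n)}
    (hno : ¬ A4a (0, 0) r D (↑(pu x D H) : Set Edg))
    (h : GC.GR tsrc ttgt (insert b (↑H : Set (TE n))) (tsrc x) (ttgt x)) :
    GC.GR tsrc ttgt (↑H : Set (TE n)) (tsrc x) (ttgt x) := by
  have hs : rv n (cX x) (cY x) (src (0, 0, x.2.2)) = tsrc x := by rw [← tsrc_rd, rd_cent]
  have ht : rv n (cX x) (cY x) (tgt (0, 0, x.2.2)) = ttgt x := by rw [← ttgt_rd, rd_cent]
  have hr' : (1:ℤ) ≤ r := by exact_mod_cast hr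
  have is : InB (0, 0) r (src (0, 0, x.2.2)) := by
    unfold InB
    simp only [src_mk, sub_zero, abs_zero]
    omega
  have it : InB (0, 0) r (tgt (0, 0, x.2.2)) := by
    unfold InB
    cases x.2.2
    · simp only [tgt_false, sub_zero, abs_zero, zero_add, abs_one]; omega
    · simp only [tgt_true, sub_zero, abs_zero, zero_add, abs_one]; omega
  obtain ⟨f1, f2⟩ := far_ends hN hD hb
  -- both ends are joined to ends of `b`
  have main : ∀ z1 z2 : ZMod n × ZMod n,
      (∀ w : Vtx, |w.1| < D → |w.2| < D → rv n (cX x) (cY x) w ≠ z1) →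
      (∀ w : Vtx, |w.1| < D → |w.2| < D → rv n (cX x) (cY x) w ≠ z2) →
      GC.GR tsrc ttgt (↑H : Set (TE n)) (tsrc x) z1 → GC.GR tsrc ttgt (↑H : Set (TE n)) (ttgt x) z2 →
      GC.GR tsrc ttgt (↑H : Set (TE n)) (tsrc x) (ttgt x) := by
    intro z1 z2 g1 g2 h1 h2
    rw [← hs] at h1
    rw [← ht] at h2
    obtain ⟨v, hv, w, hw, r1, r2⟩ := cross2 hrD is g1 h1
    obtain ⟨v', hv', w', hw', r1', r2'⟩ := cross2 hrD it g2 h2
    have hc : Reach ((↑(pu x D H) : Set Edg) ∩ ↑(blk (0, 0) D \ blk (0, 0) r)) v v' := by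
      by_contra hc
      exact hno ⟨v, hv, v', hv', ⟨w, hw, r1⟩, ⟨w', hw', r1'⟩, hc⟩
    have hw' : Reach (↑(pu x D H) : Set Edg) w w' :=
      (((r1.symm.trans hc).trans r1').mono Set.inter_subset_left)
    have h3 : GC.GR tsrc ttgt (↑H : Set (TE n)) (rv n (cX x) (cY x) w) (rv n (cX x) (cY x) w') := by
      refine reach_rd ?_ hw'
      intro e he
      unfold pu at he
      rw [Finset.mem_coe, Finset.mem_filter] at he
      exact Finset.mem_coe.2 he.2
    rw [hs] at r2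
    rw [ht] at r2'
    exact r2.trans (h3.trans r2'.symm)
  rcases GC.GR.insert_cases h with h1 | ⟨h1, h2⟩ | ⟨h1, h2⟩
  · exact h1
  · exact main _ _ f1 f2 h1 h2.symm
  · exact main _ _ f2 f1 h1 h2.symm

end Pool.Agent.NH39.W
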