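import Pool.Agent.NH39.W.Ann2

/-! Project W: the bound for one annulus of the torus (`S_ANN`). -/

set_option autoImplicit false

namespace Pool.Agent.NH39.W

open H974 H12S H389NS Finset Pool.Agent.NH39 Pool.Agent.NH39.GC
open Pool.Agent.NH39.NC (hQ hQ_nonneg hQ_le_one le_hQ hQ_anti)

theorem card_ins {E : Type} [DecidableEq E] {a : E} {S T : Finset E} (ha : a ∉ S) (hT : T ⊆ S) :
    (insert a S \ T).card = (S \ T).card + 1 ∧ (insert a S \ insert a T).card = (S \ T).card := by
  constructor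
  · rw [Finset.insert_sdiff_of_notMem _ (fun h => ha (hT h)),
      Finset.card_insert_of_notMem (fun h => ha (Finset.mem_sdiff.1 h).1)]
  · congr 1
    ext x
    simp only [Finset.mem_sdiff, Finset.mem_insert]
    constructor
    · rintro ⟨h1, h2⟩
      push Not at h2
      rcases h1 with h1 | h1
      · exact absurd h1 h2.1
      · exact ⟨h1, h2.2⟩
    · rintro ⟨h1, h2⟩
      refine ⟨Or.inr h1, ?_⟩
      push Not
      exact ⟨fun h => ha (h ▸ h1), h2⟩

/-- An alternating sum vanishes if one element does not matter. -/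
theorem sg_zero {E : Type} [DecidableEq E] {S : Finset E} {b : E} (hb : b ∈ S)
    (h : Finset E → ℝ) (hh : ∀ T ⊆ S.erase b, h (insert b T) = h T) :
    ∑ T ∈ S.powerset, (-1 : ℝ) ^ (S \ T).card * h T = 0 := by
  obtain ⟨S', hS'⟩ : ∃ S', S' = S.erase b := ⟨_, rfl⟩
  have e : S = insert b S' := by rw [hS', Finset.insert_erase hb]
  have hb' : b ∉ S' := by rw [hS']; simp
  rw [← hS'] at hh
  rw [e, Finset.sum_powerset_insert hb', ← Finset.sum_add_distrib]
  apply Finset.sum_eq_zero
  intro T hT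
  rw [Finset.mem_powerset] at hT
  obtain ⟨c1, c2⟩ := card_ins hb' hT
  rw [c1, c2, hh T hT, pow_succ]
  ring

/-- The mixed difference, one element first. -/
theorem Dl_split {E : Type} [DecidableEq E] {S : Finset E} {a : E} (ha : a ∈ S)
    (φ : Finset E → ℝ) (F : Finset E) :
    Dl φ S F = ∑ T ∈ (S.erase a).powerset, (-1 : ℝ) ^ ((S.erase a) \ T).card *
      (φ (insert a ((F \ S) ∪ T)) - φ ((F \ S) ∪ T)) := by
  obtain ⟨S', hS'⟩ : ∃ S', S' = S.erase a := ⟨_, rfl⟩
  have e : S = insert a S' := by rw [hS', Finset.insert_erase ha]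
  have ha' : a ∉ S' := by rw [hS']; simp
  unfold Dl
  rw [← hS']
  obtain ⟨F', hF'⟩ : ∃ F', F' = F \ S := ⟨_, rfl⟩
  rw [← hF', e, Finset.sum_powerset_insert ha', ← Finset.sum_add_distrib]
  apply Finset.sum_congr rfl
  intro T hT
  rw [Finset.mem_powerset] at hT
  obtain ⟨c1, c2⟩ := card_ins ha' hT
  rw [c1, c2, pow_succ, Finset.union_insert]
  ring

/-- No four arms, no mixed difference. -/
theorem Dl_zero {n : ℕ} [NeZero n] {N : ℕ} (hN : 2 * N + 1 ≤ n) {x : TE n} {r D : ℕ} (hr : 1 ≤ r)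
    (hrD : r ≤ D) (hD : D ≤ N) {S F : Finset (TE n)} (hx : x ∈ S)
    (hS : ∀ y ∈ S, tds y x < r ∨ D < tds y x) (hb : ∃ y ∈ S, D < tds y x)
    (hno : ¬ A4a (0, 0) r D (↑(pu x D F) : Set Edg)) : Dl (tcl n) S F = 0 := by
  obtain ⟨b, hbS, hbD⟩ := hb
  rw [Dl_split hx]
  have hbx : b ≠ x := by
    rintro rfl
    rw [tds_self] at hbD
    omega
  have hstep : ∀ T : Finset (TE n), tcl n (insert x ((F \ S) ∪ T)) - tcl n ((F \ S) ∪ T) =
      -(1 - ind (GC.GR tsrc ttgt (↑((F \ S) ∪ T) : Set (TE n)) (tsrc x) (ttgt x))) := by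
    intro T
    unfold tcl
    rw [Finset.coe_insert, gcc_insert]
  simp only [hstep]
  apply sg_zero (b := b) (Finset.mem_erase.2 ⟨hbx, hbS⟩)
  intro T hT
  have hTS : T ⊆ S := hT.trans ((Finset.erase_subset _ _).trans (Finset.erase_subset _ _))
  congr 2
  apply ind_congr
  constructor
  · intro h
    rw [Finset.union_insert, Finset.coe_insert] at h
    refine det hN hr hrD hD hbD ?_ h
    rw [A4a_congr (pu_congr hN hD (F := (F \ S) ∪ T) (F' := F) (r := r) (D := D) (x := x) ?_)]
    · exact hno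
    · intro e h1 h2
      rw [Finset.mem_union, Finset.mem_sdiff]
      have he : e ∉ S := by
        intro h
        rcases hS e h with h3 | h3 <;> omega
      constructor
      · rintro (h | h)
        · exact h.1
        · exact absurd (hTS h) he
      · intro h
        exact Or.inl ⟨h, he⟩
  · intro h
    refine h.mono ?_
    rw [Finset.union_insert, Finset.coe_insert]
    exact Set.subset_insert _ _

/-- ANN. -/
theorem ann : S_ANN := by
  obtain ⟨C, hC, h⟩ := pl
  refine ⟨C, hC, ?_⟩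
  intro n _ N q hN q0 q1 x r D hr hrD hD
  refine ⟨fun F => A4a (0, 0) r D (↑(pu x D F) : Set Edg), ?_, ?_, ?_⟩
  · intro F F' hF
    exact A4a_congr (pu_congr hN hD hF)
  · intro S F hx hS hb hDv
    by_contra hno
    exact hDv (Dl_zero hN hr hrD hD hx hS hb hno)
  · have hinj : Set.InjOn (rd n (cX x) (cY x)) (boxE D : Set Edg) := rd_inj (by omega)
    have e1 := Pr_pull (q := q) hinj (S := (Finset.univ : Finset (TE n)))
      (Finset.subset_univ _) (fun G => A4a (0, 0) r D (↑G : Set Edg))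
    have e2 : Pr (fun _ => q) (Finset.univ : Finset (TE n))
        (fun F => A4a (0, 0) r D (↑(pu x D F) : Set Edg)) = hQ q r D := e1
    rw [e2]
    exact h q q0 q1 r D hr hrD

end Pool.Agent.NH39.W
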