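import Pool.Agent.NH39.W.Fss

/-! Project W: the density of clusters in a double sector. -/

set_option autoImplicit false

namespace Pool.Agent.NH39.W

open H974 Finset Filter Topology Pool.Agent.NH39 Pool.Agent.NH39.GC
open scoped ContDiff

/-- Derivatives of the density away from `1/2`. -/
theorem kap_far (hf : S_FSS) (k : ℕ) {s : ℝ} (hs : 0 < s) : ∃ M : ℝ, 0 < M ∧
    ∀ p : ℝ, 0 < p → p < 1 → s ≤ |p - 1/2| → |iteratedDeriv k kap p| ≤ M := by
  obtain ⟨c, C, hc, hC, h⟩ := hf k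
  have hcont : Continuous (iteratedDeriv k (tmean 3)) :=
    (tmean_smooth 3).continuous_iteratedDeriv k (by exact_mod_cast le_top)
  obtain ⟨M, hM⟩ := (isCompact_Icc (a := (0:ℝ)) (b := 1)).exists_bound_of_continuousOn
    hcont.continuousOn
  refine ⟨|M| + 1 + C * (s ^ k)⁻¹, by positivity, fun p p0 p1 hp => ?_⟩
  have hx : 0 < |p - 1/2| := lt_of_lt_of_le hs hp
  have hne : p ≠ 1/2 := by
    intro h0
    rw [h0, sub_self, abs_zero] at hx
    exact lt_irrefl _ hx
  have h1 := h 3 le_rfl p p0 p1 hne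
  have h2 := hM p ⟨p0.le, p1.le⟩
  rw [Real.norm_eq_abs] at h2
  have h3 : (|p - 1/2| ^ k)⁻¹ * Real.exp (-(c * (((3:ℕ):ℝ) * |p - 1/2| ^ (4/3 : ℝ)))) ≤
      (s ^ k)⁻¹ * 1 := by
    apply mul_le_mul _ _ (Real.exp_pos _).le (by positivity)
    · exact inv_anti₀ (by positivity) (pow_le_pow_left₀ hs.le hp k)
    · rw [Real.exp_le_one_iff]
      have : 0 ≤ c * (((3:ℕ):ℝ) * |p - 1/2| ^ (4/3 : ℝ)) := by positivity
      linarith
  have h4 := mul_le_mul_of_nonneg_left h3 hC.le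
  have h5 : |(if k = 0 ∧ 1/2 < p then (1:ℝ) else 0)| ≤ 1 := by
    split_ifs <;> simp
  have h6 := le_abs_self M
  rw [abs_le] at h1 h2 h5 ⊢
  have h7 : (((3:ℕ):ℝ)) ^ 2 = 9 := by norm_num
  rw [h7] at h1
  rw [mul_one] at h4
  have h8 : 0 ≤ C * (s ^ k)⁻¹ := by positivity
  constructor <;> nlinarith [h1.1, h1.2, h2.1, h2.2, h5.1, h5.2, abs_nonneg M]

/-- The expansion of the density and its first two derivatives at `1/2`. -/
theorem kap_exp (hf : S_FSS) : ∃ (C S : ℝ), 1 ≤ C ∧ ∀ p : ℝ, 0 < p → p < 1 →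
    |kap p - (kap (1/2) + (-1) * (p - 1/2) + (S/2) * (p - 1/2) ^ 2)| ≤
      C * |p - 1/2| ^ (8/3 : ℝ) ∧
    |deriv kap p - (-1 + 2 * (S/2) * (p - 1/2))| ≤ C * |p - 1/2| ^ (5/3 : ℝ) ∧
    |iteratedDeriv 2 kap p - 2 * (S/2)| ≤ C * |p - 1/2| ^ (2/3 : ℝ) ∧
    deriv kap (1/2) = -1 ∧ deriv (deriv kap) (1/2) = S ∧
    DifferentiableAt ℝ kap p ∧ (p = 1/2 → DifferentiableAt ℝ (deriv kap) p) := by
  obtain ⟨K, s0, S, hK, hs0, hs4, h1, ⟨g, hg, h2, h3⟩, h4⟩ := kap_main
  have hnh : ∀ p : ℝ, |p - 1/2| < s0 → ∀ᶠ q in 𝓝 p, |q - 1/2| < s0 := by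
    intro p hp
    have hc : ContinuousAt (fun q : ℝ => |q - 1/2|) p := by fun_prop
    exact hc.eventually (gt_mem_nhds hp)
  have hd : ∀ p : ℝ, |p - 1/2| < s0 → deriv kap p = Gam p - 2 :=
    fun p hp => (h1 p hp).deriv
  have hd2 : ∀ p : ℝ, |p - 1/2| < s0 → HasDerivAt (deriv kap) (g p) p := by
    intro p hp
    have h5 : HasDerivAt (fun q => Gam q - 2) (g p) p := (h2 p hp).sub_const 2
    refine h5.congr_of_eventuallyEq ?_
    filter_upwards [hnh p hp] with q hq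
    exact hd q hq
  have h12 : |(1/2 : ℝ) - 1/2| < s0 := by simpa using hs0
  have e1 : deriv kap (1/2) = -1 := by
    rw [hd _ h12, Gam_half]; norm_num
  have e2 : deriv (deriv kap) (1/2) = S := by
    rw [(hd2 _ h12).deriv, hg]
  obtain ⟨M1, hM1, hf1⟩ := kap_far hf 1 hs0
  obtain ⟨M2, hM2, hf2⟩ := kap_far hf 2 hs0
  obtain ⟨A, hA⟩ : ∃ A : ℝ, A = (M1 + M2 + 1 + |S|) / s0 ^ 2 := ⟨_, rfl⟩
  have hA0 : 0 < A := by rw [hA]; positivity
  have hs1 : s0 ≤ 1 := by linarith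
  refine ⟨1 + K + A, S, by linarith, fun p p0 p1 => ?_⟩
  have hxle : |p - 1/2| ≤ 1 := by rw [abs_le]; constructor <;> linarith
  have hA2 : ∀ (t : ℝ), t ≤ 2 → 0 ≤ t → s0 ≤ |p - 1/2| → M1 + M2 + 1 + |S| ≤
      A * |p - 1/2| ^ t := by
    intro t ht ht0 hp
    have h5 : s0 ^ (2:ℝ) ≤ |p - 1/2| ^ t := by
      calc s0 ^ (2:ℝ) ≤ s0 ^ t := Real.rpow_le_rpow_of_exponent_ge hs0 hs1 ht
        _ ≤ |p - 1/2| ^ t := Real.rpow_le_rpow hs0.le hp ht0
    rw [Real.rpow_two] at h5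
    have h6 := mul_le_mul_of_nonneg_left h5 hA0.le
    have h7 : A * s0 ^ 2 = M1 + M2 + 1 + |S| := by
      rw [hA]; field_simp
    linarith
  refine ⟨?_, ?_, ?_, e1, e2, ?_, ?_⟩
  · have h5 := h4 p p0.le p1.le
    have h6 : kap p - (kap (1/2) + (-1) * (p - 1/2) + (S/2) * (p - 1/2) ^ 2) =
        kap p - kap (1/2) + (p - 1/2) - 1 / 2 * S * (p - 1/2) ^ 2 := by ring
    rw [h6]
    refine h5.trans (mul_le_mul_of_nonneg_right (by linarith) (by positivity))
  · by_cases hp : |p - 1/2| < s0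
    · rw [hd p hp]
      -- mean value inequality
      have h5 : ∀ x ∈ Set.uIcc (1/2 : ℝ) p, HasDerivWithinAt
          (fun q => Gam q - 2 - (-1 + 2 * (S/2) * (q - 1/2))) (g x - S) (Set.uIcc (1/2 : ℝ) p) x := by
        intro x hx
        have hx' : |x - 1/2| < s0 := by
          have : |x - 1/2| ≤ |p - 1/2| := Set.abs_sub_left_of_mem_uIcc hx
          linarith
        have h6 := ((h2 x hx').sub_const 2).sub ((((hasDerivAt_id x).sub_const (1/2 : ℝ)).const_mul
          (2 * (S/2))).const_add (-1))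
        have h7 : g x - 2 * (S/2) * 1 = g x - S := by ring
        rw [h7] at h6
        exact h6.hasDerivWithinAt
      have h6 : ∀ x ∈ Set.uIcc (1/2 : ℝ) p, ‖g x - S‖ ≤ K * |p - 1/2| ^ (2/3 : ℝ) := by
        intro x hx
        have hx' : |x - 1/2| ≤ |p - 1/2| := Set.abs_sub_left_of_mem_uIcc hx
        rw [Real.norm_eq_abs]
        refine (h3 x (lt_of_le_of_lt hx' hp)).trans ?_
        exact mul_le_mul_of_nonneg_left (Real.rpow_le_rpow (abs_nonneg _) hx' (by norm_num)) hK.le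
      have h7 := (convex_uIcc (1/2 : ℝ) p).norm_image_sub_le_of_norm_hasDerivWithin_le h5 h6
        Set.left_mem_uIcc Set.right_mem_uIcc
      simp only [Real.norm_eq_abs] at h7
      have h8 : Gam p - 2 - (-1 + 2 * (S/2) * (p - 1/2)) -
          (Gam (1/2) - 2 - (-1 + 2 * (S/2) * (1/2 - 1/2))) =
          Gam p - 2 - (-1 + 2 * (S/2) * (p - 1/2)) := by
        rw [Gam_half]; ring
      rw [h8] at h7
      refine h7.trans ?_
      have h9 : |p - 1/2| ^ (2/3 : ℝ) * |p - 1/2| = |p - 1/2| ^ (5/3 : ℝ) := by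
        by_cases h0 : |p - 1/2| = 0
        · rw [h0, Real.zero_rpow (by norm_num), Real.zero_rpow (by norm_num)]; ring
        · have h0' : 0 < |p - 1/2| := lt_of_le_of_ne (abs_nonneg _) (Ne.symm h0)
          rw [show (5/3 : ℝ) = 2/3 + 1 by norm_num, Real.rpow_add h0', Real.rpow_one]
      rw [mul_assoc, h9]
      exact mul_le_mul_of_nonneg_right (by linarith) (by positivity)
    · push Not at hp
      have h5 := hf1 p p0 p1 hp
      rw [iteratedDeriv_one] at h5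
      have h6 := hA2 (5/3) (by norm_num) (by norm_num) hp
      have h7 : |deriv kap p - (-1 + 2 * (S/2) * (p - 1/2))| ≤ M1 + 1 + |S| := by
        have e3 : deriv kap p - (-1 + 2 * (S/2) * (p - 1/2)) =
          deriv kap p + (1 + -(S * (p - 1/2))) := by ring
        rw [e3]
        refine (abs_add_le _ _).trans ?_
        have e4 := abs_add_le 1 (-(S * (p - 1/2)))
        rw [abs_neg, abs_one, abs_mul] at e4
        have e5 : |S| * |p - 1/2| ≤ |S| * 1 := mul_le_mul_of_nonneg_left hxle (abs_nonneg _)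
        linarith
      have h8 : A * |p - 1/2| ^ (5/3 : ℝ) ≤ (1 + K + A) * |p - 1/2| ^ (5/3 : ℝ) :=
        mul_le_mul_of_nonneg_right (by linarith) (by positivity)
      linarith
  · have h50 : iteratedDeriv 2 kap p = deriv (deriv kap) p := by
      rw [iteratedDeriv_succ, iteratedDeriv_one]
    by_cases hp : |p - 1/2| < s0
    · rw [h50, (hd2 p hp).deriv, show 2 * (S/2) = S by ring]
      refine (h3 p hp).trans ?_
      exact mul_le_mul_of_nonneg_right (by linarith) (by positivity)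
    · push Not at hp
      have h5 := hf2 p p0 p1 hp
      have h6 := hA2 (2/3) (by norm_num) (by norm_num) hp
      have h7 : |iteratedDeriv 2 kap p - 2 * (S/2)| ≤ M2 + |S| := by
        have e3 : iteratedDeriv 2 kap p - 2 * (S/2) = iteratedDeriv 2 kap p + -S := by ring
        rw [e3]
        refine (abs_add_le _ _).trans ?_
        rw [abs_neg]
        linarith
      have h8 : A * |p - 1/2| ^ (2/3 : ℝ) ≤ (1 + K + A) * |p - 1/2| ^ (2/3 : ℝ) :=
        mul_le_mul_of_nonneg_right (by linarith) (by positivity)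
      linarith
  · exact (kap_deriv_all p0 p1).differentiableAt
  · intro hp
    rw [hp]
    exact (hd2 _ h12).differentiableAt

/-- The density in a double sector. -/
theorem kap_sector (hu : S_UK) (hk : S_KAP) (hs : S_SEC) :
    ∃ (c C' S : ℝ) (K : ℂ → ℂ), 0 < c ∧ 0 < C' ∧ DifferentiableOn ℂ K (sector c) ∧
    deriv kap (1/2) = -1 ∧ deriv (deriv kap) (1/2) = S ∧
    (∀ p : ℝ, 0 < p → p < 1 → p ≠ 1/2 → K (p : ℂ) = (kap p : ℂ)) ∧
    ∀ z ∈ sector c, ‖K z - (kap (1/2) + (-1 : ℝ) * (z - 1/2) + (S/2 : ℝ) * (z - 1/2) ^ 2)‖ ≤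
      C' * ‖z - 1/2‖ ^ (8/3 : ℝ) := by
  obtain ⟨C1, S, hC1, h1⟩ := kap_exp (fss hu hk)
  obtain ⟨C2, hC2, h2⟩ := hk
  have h12 := h1 (1/2) (by norm_num) (by norm_num)
  obtain ⟨c, C', K, hc, hC', hK1, hK2, hK3⟩ := hs kap (max C1 C2) (kap (1/2)) (-1) (S/2)
    (le_max_of_le_left hC1) (fun p p0 p1 hp => by
      obtain ⟨h3, h4⟩ := h2 p p0 p1 hp
      obtain ⟨a1, a2, a3, -⟩ := h1 p p0 p1
      refine ⟨h3, fun k hk => ?_, ?_, ?_, ?_⟩
      · refine (h4 k hk).trans ?_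
        apply mul_le_mul_of_nonneg_right _ (by positivity)
        apply mul_le_mul_of_nonneg_right _ (by positivity)
        exact pow_le_pow_left₀ (by linarith) (le_max_right _ _) k
      · exact a1.trans (mul_le_mul_of_nonneg_right (le_max_left _ _) (by positivity))
      · exact a2.trans (mul_le_mul_of_nonneg_right (le_max_left _ _) (by positivity))
      · exact a3.trans (mul_le_mul_of_nonneg_right (le_max_left _ _) (by positivity)))
  exact ⟨c, C', S, K, hc, hC', hK1, h12.2.2.2.1, h12.2.2.2.2.1, hK2, hK3⟩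

end Pool.Agent.NH39.W
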