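import Pool.Agent.NH39.W.Stm

/-! Project W: finite-size scaling of all derivatives. -/

set_option autoImplicit false

namespace Pool.Agent.NH39.W

open H974 Finset Filter Topology Pool.Agent.NH39 Pool.Agent.NH39.GC
open scoped ContDiff

/-- Derivatives of smooth functions on an open set. -/
theorem hasD {f : ℝ → ℝ} {U : Set ℝ} (hU : IsOpen U) (hf : ContDiffOn ℝ ∞ f U) (m : ℕ) {x : ℝ}
    (hx : x ∈ U) : HasDerivAt (iteratedDeriv m f) (iteratedDeriv (m + 1) f x) x := by
  have h1 : DifferentiableOn ℝ (iteratedDerivWithin m f U) U :=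
    hf.differentiableOn_iteratedDerivWithin (by exact_mod_cast (WithTop.coe_lt_top m)) hU.uniqueDiffOn
  have h2 : DifferentiableOn ℝ (iteratedDeriv m f) U :=
    h1.congr (fun y hy => (iteratedDerivWithin_of_isOpen hU hy).symm)
  have h3 : DifferentiableAt ℝ (iteratedDeriv m f) x := h2.differentiableAt (hU.mem_nhds hx)
  rw [iteratedDeriv_succ]
  exact h3.hasDerivAt

/-- Landau's inequality on a small interval. -/
theorem landau {f f1 f2 : ℝ → ℝ} {a b A B : ℝ} (hab : a < b)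
    (h1 : ∀ x ∈ Set.Icc a b, HasDerivAt f (f1 x) x) (h2 : ∀ x ∈ Set.Icc a b, HasDerivAt f1 (f2 x) x)
    (hA : ∀ x ∈ Set.Icc a b, |f x| ≤ A) (hB : ∀ x ∈ Set.Icc a b, |f2 x| ≤ B) :
    ∀ x ∈ Set.Icc a b, |f1 x| ≤ 2 * A / (b - a) + (b - a) * B := by
  intro x hx
  have hd : 0 < b - a := by linarith
  -- a point with a small derivative
  obtain ⟨ξ, hξ, hξe⟩ := exists_hasDerivAt_eq_slope f f1 hab
    (fun y hy => (h1 y hy).continuousAt.continuousWithinAt)
    (fun y hy => h1 y ⟨hy.1.le, hy.2.le⟩)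
  have e1 : |f1 ξ| ≤ 2 * A / (b - a) := by
    rw [hξe, abs_div, abs_of_pos hd]
    apply div_le_div_of_nonneg_right _ hd.le
    have a1 := hA a ⟨le_rfl, hab.le⟩
    have a2 := hA b ⟨hab.le, le_rfl⟩
    rw [abs_le] at a1 a2 ⊢
    constructor <;> linarith
  have e2 : |f1 x - f1 ξ| ≤ B * |x - ξ| := by
    have := Convex.norm_image_sub_le_of_norm_hasDerivWithin_le (f := f1) (f' := f2) (s := Set.Icc a b)
      (C := B) (x := ξ) (y := x) (fun y hy => (h2 y hy).hasDerivWithinAt)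
      (fun y hy => by rw [Real.norm_eq_abs]; exact hB y hy) (convex_Icc a b)
      ⟨hξ.1.le, hξ.2.le⟩ hx
    simpa [Real.norm_eq_abs] using this
  have hB0 : 0 ≤ B := (abs_nonneg _).trans (hB x hx)
  have e3 : |x - ξ| ≤ b - a := by
    rw [abs_le]
    constructor <;> linarith [hx.1, hx.2, hξ.1, hξ.2]
  have e4 : |f1 x| ≤ |f1 ξ| + |f1 x - f1 ξ| := by
    have := abs_add_le (f1 ξ) (f1 x - f1 ξ)
    rwa [add_sub_cancel] at this
  have e5 := mul_le_mul_of_nonneg_left e3 hB0
  linarith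

/-- FSS: finite-size scaling of all derivatives. -/
def S_FSS : Prop := ∀ k : ℕ, ∃ c C : ℝ, 0 < c ∧ 0 < C ∧ ∀ (n : ℕ) [NeZero n], 3 ≤ n → ∀ p : ℝ,
  0 < p → p < 1 → p ≠ 1/2 →
    |iteratedDeriv k (tmean n) p - (n:ℝ) ^ 2 * iteratedDeriv k kap p -
      (if k = 0 ∧ 1/2 < p then 1 else 0)| ≤
      C * ((|p - 1/2| ^ k)⁻¹ * Real.exp (-(c * (n * |p - 1/2| ^ (4/3 : ℝ)))))

theorem sq_exp {c : ℝ} (hc : 0 < c) : ∃ K : ℝ, 0 < K ∧ ∀ y : ℝ, 0 ≤ y →
    y ^ 2 ≤ K * Real.exp (c * y) := by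
  refine ⟨2 / c ^ 2, by positivity, ?_⟩
  intro y hy
  have h2 : (c * y) ^ 2 / 2 ≤ Real.exp (c * y) := by
    have := Real.pow_div_factorial_le_exp (c * y) (by positivity) 2
    simpa [Nat.factorial] using this
  have : y ^ 2 = 2 / c ^ 2 * ((c * y) ^ 2 / 2) := by field_simp
  rw [this]
  exact mul_le_mul_of_nonneg_left h2 (by positivity)

theorem pow_34_exp {c : ℝ} (hc : 0 < c) : ∃ K : ℝ, 0 < K ∧ ∀ y : ℝ, 0 ≤ y →
    y ^ (3/4 : ℝ) ≤ K * Real.exp (c * y) := by
  obtain ⟨K, hK, h⟩ := sq_exp hc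
  refine ⟨1 + K, by positivity, ?_⟩
  intro y hy
  have h1 : y ^ (3/4 : ℝ) ≤ 1 + y ^ 2 := by
    rcases le_total y 1 with h | h
    · have : y ^ (3/4 : ℝ) ≤ 1 := Real.rpow_le_one hy h (by norm_num)
      nlinarith [sq_nonneg y]
    · have : y ^ (3/4 : ℝ) ≤ y ^ (2 : ℝ) := Real.rpow_le_rpow_of_exponent_le h (by norm_num)
      rw [Real.rpow_two] at this
      linarith
  have h2 := h y hy
  have h3 : 1 ≤ Real.exp (c * y) := Real.one_le_exp (by positivity)
  nlinarith

/-- Smoothness of the mean number of clusters of the torus. -/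
theorem tmean_smooth (n : ℕ) [NeZero n] : ContDiff ℝ ∞ (tmean n) := by
  unfold tmean Ex
  apply ContDiff.sum
  intro F _
  apply ContDiff.mul _ contDiff_const
  apply ContDiff.mul
  · exact contDiff_prod (fun _ _ => contDiff_id)
  · exact contDiff_prod (fun _ _ => contDiff_const.sub contDiff_id)

theorem fss (hu : S_UK) (hk : S_KAP) : S_FSS := by
  obtain ⟨Cu, hCu, hu⟩ := hu
  obtain ⟨Ck, hCk, hk⟩ := hk
  obtain ⟨c0, C0, hc0, hC0, h0⟩ := tor_main
  obtain ⟨c1, C1, hc1, hC1, h1⟩ := tor_deriv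
  -- smoothness of the density
  obtain ⟨U, hU⟩ : ∃ U : Set ℝ, U = Set.Ioo 0 1 ∩ {1/2}ᶜ := ⟨_, rfl⟩
  have hUo : IsOpen U := by
    rw [hU]; exact isOpen_Ioo.inter isOpen_compl_singleton
  have hsm : ContDiffOn ℝ ∞ kap U := by
    intro x hx
    rw [hU] at hx
    exact (hk x hx.1.1 hx.1.2 hx.2).1.contDiffWithinAt
  have hU' : ∀ p : ℝ, 0 < p → p < 1 → p ≠ 1/2 → p ∈ U := by
    intro p a b c
    rw [hU]; exact ⟨⟨a, b⟩, c⟩
  -- the crude bound
  have crude : ∀ m : ℕ, 3 ≤ m → ∀ (n : ℕ) [NeZero n], 3 ≤ n → ∀ p : ℝ, 0 < p → p < 1 → p ≠ 1/2 →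
      |iteratedDeriv m (tmean n) p - (n:ℝ) ^ 2 * iteratedDeriv m kap p| ≤
        ((Cu ^ m + Ck ^ m) * m.factorial) * ((|p - 1/2| ^ m)⁻¹ *
          (n * |p - 1/2| ^ (4/3 : ℝ)) ^ 2) := by
    intro m hm n _ hn p p0 p1 ph
    have hs : 0 < |p - 1/2| := abs_pos.2 (sub_ne_zero.2 ph)
    have b1 := (hu n hn p p0.le p1.le).2 m hm
    have b2 := (hk p p0 p1 ph).2 m hm
    have hm3 : (3:ℝ) ≤ m := by exact_mod_cast hm
    have e1 : xs n p ^ ((8:ℝ)/3 - m) ≤ |p - 1/2| ^ ((8:ℝ)/3 - m) :=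
      Real.rpow_le_rpow_of_nonpos hs (le_max_right _ _) (by linarith)
    have e2 : (n:ℝ) ^ 2 * |p - 1/2| ^ ((8:ℝ)/3 - m) =
        (|p - 1/2| ^ m)⁻¹ * (n * |p - 1/2| ^ (4/3 : ℝ)) ^ 2 := by
      rw [Real.rpow_sub hs, Real.rpow_natCast, mul_pow, ← Real.rpow_natCast (|p - 1/2| ^ (4/3 : ℝ)),
        ← Real.rpow_mul hs.le]
      have : (4/3 : ℝ) * ((2:ℕ):ℝ) = 8/3 := by norm_num
      rw [this]
      ring
    have hn2 : (0:ℝ) ≤ (n:ℝ) ^ 2 := by positivity
    have b3 : |(n:ℝ) ^ 2 * iteratedDeriv m kap p| ≤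
        Ck ^ m * m.factorial * ((n:ℝ) ^ 2 * |p - 1/2| ^ ((8:ℝ)/3 - m)) := by
      rw [abs_mul, abs_of_nonneg hn2]
      calc (n:ℝ) ^ 2 * |iteratedDeriv m kap p| ≤
          (n:ℝ) ^ 2 * (Ck ^ m * m.factorial * |p - 1/2| ^ ((8:ℝ)/3 - m)) :=
            mul_le_mul_of_nonneg_left b2 hn2
        _ = _ := by ring
    have b4 : |iteratedDeriv m (tmean n) p| ≤
        Cu ^ m * m.factorial * ((n:ℝ) ^ 2 * |p - 1/2| ^ ((8:ℝ)/3 - m)) := by
      refine b1.trans ?_
      apply mul_le_mul_of_nonneg_left _ (by positivity)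
      exact mul_le_mul_of_nonneg_left e1 hn2
    refine (abs_sub _ _).trans ?_
    rw [← e2]
    calc |iteratedDeriv m (tmean n) p| + |(n:ℝ) ^ 2 * iteratedDeriv m kap p| ≤
        Cu ^ m * m.factorial * ((n:ℝ) ^ 2 * |p - 1/2| ^ ((8:ℝ)/3 - m)) +
        Ck ^ m * m.factorial * ((n:ℝ) ^ 2 * |p - 1/2| ^ ((8:ℝ)/3 - m)) := add_le_add b4 b3
      _ = _ := by ring
  intro k
  induction k with
  | zero =>
    refine ⟨c0, C0, hc0, hC0, ?_⟩
    intro n _ hn p p0 p1 _
    have := h0 n hn p p0.le p1.le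
    rw [iteratedDeriv_zero, iteratedDeriv_zero, pow_zero, inv_one, one_mul]
    simpa using this
  | succ k ih =>
    rcases Nat.eq_zero_or_pos k with hk0 | hk0
    · -- first derivative
      subst hk0
      obtain ⟨K, hK, hKe⟩ := pow_34_exp (c := c1 / 2) (by positivity)
      refine ⟨c1 / 2, C1 * K, by positivity, by positivity, ?_⟩
      intro n _ hn p p0 p1 ph
      have hs : 0 < |p - 1/2| := abs_pos.2 (sub_ne_zero.2 ph)
      have hn0 : (0:ℝ) < n := by exact_mod_cast (by omega : 0 < n)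
      have := h1 n hn p p0 p1
      rw [zero_add, iteratedDeriv_one, iteratedDeriv_one, if_neg (by simp), sub_zero, pow_one]
      refine this.trans ?_
      obtain ⟨y, hy⟩ : ∃ y : ℝ, y = n * |p - 1/2| ^ (4/3 : ℝ) := ⟨_, rfl⟩
      have hy0 : 0 ≤ y := by rw [hy]; positivity
      rw [← hy]
      have e1 : (n:ℝ) ^ (3/4 : ℝ) = |p - 1/2|⁻¹ * y ^ (3/4 : ℝ) := by
        rw [hy, Real.mul_rpow hn0.le (by positivity), ← Real.rpow_mul hs.le,
          show (4/3 * (3/4) : ℝ) = 1 by norm_num, Real.rpow_one,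
          mul_comm ((n:ℝ) ^ (3/4 : ℝ)), ← mul_assoc, inv_mul_cancel₀ hs.ne', one_mul]
      have e2 : Real.exp (-(c1 * y)) = Real.exp (-(c1 / 2 * y)) * Real.exp (-(c1 / 2 * y)) := by
        rw [← Real.exp_add]; congr 1; ring
      have e3 : Real.exp (c1 / 2 * y) * Real.exp (-(c1 / 2 * y)) = 1 := by
        rw [← Real.exp_add]; simp
      have e4 := hKe y hy0
      rw [e1, e2]
      have hE := Real.exp_pos (-(c1 / 2 * y))
      have e5 : y ^ (3/4 : ℝ) * Real.exp (-(c1 / 2 * y)) ≤ K := by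
        calc y ^ (3/4 : ℝ) * Real.exp (-(c1 / 2 * y)) ≤
            (K * Real.exp (c1 / 2 * y)) * Real.exp (-(c1 / 2 * y)) :=
              mul_le_mul_of_nonneg_right e4 hE.le
          _ = K := by rw [mul_assoc, e3, mul_one]
      calc C1 * (|p - 1/2|⁻¹ * y ^ (3/4 : ℝ) *
            (Real.exp (-(c1 / 2 * y)) * Real.exp (-(c1 / 2 * y)))) =
          C1 * (|p - 1/2|⁻¹ * Real.exp (-(c1 / 2 * y))) *
            (y ^ (3/4 : ℝ) * Real.exp (-(c1 / 2 * y))) := by ring
        _ ≤ C1 * (|p - 1/2|⁻¹ * Real.exp (-(c1 / 2 * y))) * K :=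
            mul_le_mul_of_nonneg_left e5 (by positivity)
        _ = _ := by ring
    · -- higher derivatives
      obtain ⟨c, C, hc, hC, ih⟩ := ih
      obtain ⟨K, hK, hKe⟩ := sq_exp (c := c / 8) (by positivity)
      obtain ⟨M, hM⟩ : ∃ M : ℝ, M = (Cu ^ (k + 2) + Ck ^ (k + 2)) * (k + 2).factorial := ⟨_, rfl⟩
      have hM0 : 0 < M := by rw [hM]; positivity
      obtain ⟨A, hA⟩ : ∃ A : ℝ, A = 8 * (C * 2 ^ k) + M * 2 ^ (k + 2) * K := ⟨_, rfl⟩
      have hA0 : 0 < A := by rw [hA]; positivity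
      refine ⟨c / 8, A, by positivity, hA0, ?_⟩
      intro n _ hn p p0 p1 ph
      rw [if_neg (by simp), sub_zero]
      obtain ⟨s, hs⟩ : ∃ s : ℝ, s = |p - 1/2| := ⟨_, rfl⟩
      have hs0 : 0 < s := by rw [hs]; exact abs_pos.2 (sub_ne_zero.2 ph)
      obtain ⟨y, hy⟩ : ∃ y : ℝ, y = n * s ^ (4/3 : ℝ) := ⟨_, rfl⟩
      have hy0 : 0 ≤ y := by rw [hy]; positivity
      rw [← hs, ← hy]
      obtain ⟨t, ht⟩ : ∃ t : ℝ, t = s / 4 * Real.exp (-(c / 4 * y)) := ⟨_, rfl⟩
      have ht0 : 0 < t := by rw [ht]; positivity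
      have hts : t ≤ s / 4 := by
        rw [ht]
        have : Real.exp (-(c / 4 * y)) ≤ 1 := Real.exp_le_one_iff.2 (by
          have : 0 ≤ c / 4 * y := by positivity
          linarith)
        nlinarith
      -- the interval
      obtain ⟨a, b, hab, hlen, hp, hin⟩ : ∃ a b : ℝ, a < b ∧ b - a = t ∧ p ∈ Set.Icc a b ∧
          ∀ x ∈ Set.Icc a b, 0 < x ∧ x < 1 ∧ x ≠ 1/2 ∧ s / 2 ≤ |x - 1/2| ∧ |x - 1/2| ≤ s ∧
            (3/4) * s ≤ |x - 1/2| := by
        rcases lt_or_gt_of_ne ph with h | h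
        · have e : s = 1/2 - p := by rw [hs, abs_of_neg (by linarith)]; ring
          refine ⟨p, p + t, by linarith, by ring, ⟨le_rfl, by linarith⟩, ?_⟩
          intro x hx
          have h1 : x < 1/2 := by linarith [hx.2]
          have h2 : |x - 1/2| = 1/2 - x := by rw [abs_of_neg (by linarith)]; ring
          rw [h2]
          refine ⟨by linarith [hx.1], by linarith, h1.ne, by linarith [hx.2], by linarith [hx.1],
            by linarith [hx.2]⟩
        · have e : s = p - 1/2 := by rw [hs, abs_of_pos (by linarith)]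
          refine ⟨p - t, p, by linarith, by ring, ⟨by linarith, le_rfl⟩, ?_⟩
          intro x hx
          have h1 : 1/2 < x := by linarith [hx.1]
          have h2 : |x - 1/2| = x - 1/2 := by rw [abs_of_pos (by linarith)]
          rw [h2]
          refine ⟨by linarith, by linarith [hx.2], h1.ne', by linarith [hx.1], by linarith [hx.2],
            by linarith [hx.1]⟩
      -- the functions
      have hd : ∀ m : ℕ, ∀ x ∈ Set.Icc a b, HasDerivAt
          (fun x => iteratedDeriv m (tmean n) x - (n:ℝ) ^ 2 * iteratedDeriv m kap x)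
          (iteratedDeriv (m + 1) (tmean n) x - (n:ℝ) ^ 2 * iteratedDeriv (m + 1) kap x) x := by
        intro m x hx
        obtain ⟨x0, x1, x2, -⟩ := hin x hx
        have d1 := hasD isOpen_univ (tmean_smooth n).contDiffOn m (Set.mem_univ x)
        have d2 := hasD hUo hsm m (hU' x x0 x1 x2)
        exact d1.sub (d2.const_mul _)
      have hland := landau hab (hd k) (hd (k + 1))
        (A := C * (2 ^ k * (s ^ k)⁻¹ * Real.exp (-(c / 2 * y))))
        (B := M * (2 ^ (k + 2) * (s ^ (k + 2))⁻¹ * y ^ 2)) ?_ ?_ p hp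
      · rw [hlen] at hland
        refine hland.trans ?_
        -- constants
        have hE1 : Real.exp (-(c / 2 * y)) = Real.exp (-(c / 4 * y)) * Real.exp (-(c / 4 * y)) := by
          rw [← Real.exp_add]; congr 1; ring
        have hE2 : Real.exp (-(c / 4 * y)) = Real.exp (-(c / 8 * y)) * Real.exp (-(c / 8 * y)) := by
          rw [← Real.exp_add]; congr 1; ring
        have hE3 : Real.exp (c / 8 * y) * Real.exp (-(c / 8 * y)) = 1 := by
          rw [← Real.exp_add]; simp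
        have hF := Real.exp_pos (-(c / 8 * y))
        have hG := Real.exp_pos (-(c / 4 * y))
        have hF1 : Real.exp (-(c / 8 * y)) ≤ 1 := Real.exp_le_one_iff.2 (by
          have : 0 ≤ c / 8 * y := by positivity
          linarith)
        have t1 : 2 * (C * (2 ^ k * (s ^ k)⁻¹ * Real.exp (-(c / 2 * y)))) / t =
            8 * (C * 2 ^ k) * ((s ^ (k + 1))⁻¹ * Real.exp (-(c / 4 * y))) := by
          rw [ht, hE1, pow_succ]
          field_simp
          ring
        have t2 : t * (M * (2 ^ (k + 2) * (s ^ (k + 2))⁻¹ * y ^ 2)) =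
            (M * 2 ^ (k + 2)) * ((s ^ (k + 1))⁻¹ * (1/4 * (y ^ 2 * Real.exp (-(c / 4 * y))))) := by
          rw [ht, show s ^ (k + 2) = s ^ (k + 1) * s by ring]
          field_simp
        have t3 : y ^ 2 * Real.exp (-(c / 4 * y)) ≤ K * Real.exp (-(c / 8 * y)) := by
          rw [hE2]
          have := mul_le_mul_of_nonneg_right (hKe y hy0) (mul_pos hF hF).le
          calc y ^ 2 * (Real.exp (-(c / 8 * y)) * Real.exp (-(c / 8 * y))) ≤
              K * Real.exp (c / 8 * y) * (Real.exp (-(c / 8 * y)) * Real.exp (-(c / 8 * y))) := this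
            _ = K * (Real.exp (c / 8 * y) * Real.exp (-(c / 8 * y))) * Real.exp (-(c / 8 * y)) := by
                ring
            _ = _ := by rw [hE3, mul_one]
        have t4 : Real.exp (-(c / 4 * y)) ≤ Real.exp (-(c / 8 * y)) := by
          rw [hE2]; nlinarith
        rw [t1, t2]
        have hsi : 0 < (s ^ (k + 1))⁻¹ := by positivity
        have u1 : 8 * (C * 2 ^ k) * ((s ^ (k + 1))⁻¹ * Real.exp (-(c / 4 * y))) ≤
            8 * (C * 2 ^ k) * ((s ^ (k + 1))⁻¹ * Real.exp (-(c / 8 * y))) := by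
          apply mul_le_mul_of_nonneg_left _ (by positivity)
          exact mul_le_mul_of_nonneg_left t4 hsi.le
        have u2 : (M * 2 ^ (k + 2)) * ((s ^ (k + 1))⁻¹ * (1/4 * (y ^ 2 * Real.exp (-(c / 4 * y))))) ≤
            (M * 2 ^ (k + 2)) * ((s ^ (k + 1))⁻¹ * (K * Real.exp (-(c / 8 * y)))) := by
          apply mul_le_mul_of_nonneg_left _ (by positivity)
          apply mul_le_mul_of_nonneg_left _ hsi.le
          have : 0 ≤ y ^ 2 * Real.exp (-(c / 4 * y)) := by positivity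
          linarith
        calc _ ≤ 8 * (C * 2 ^ k) * ((s ^ (k + 1))⁻¹ * Real.exp (-(c / 8 * y))) +
            (M * 2 ^ (k + 2)) * ((s ^ (k + 1))⁻¹ * (K * Real.exp (-(c / 8 * y)))) :=
              add_le_add u1 u2
          _ = _ := by rw [hA]; ring
      · -- the small bound
        intro x hx
        obtain ⟨x0, x1, x2, x3, x4, x5⟩ := hin x hx
        have h5 := ih n hn x x0 x1 x2
        rw [if_neg (by rintro ⟨h, -⟩; omega), sub_zero] at h5
        refine h5.trans ?_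
        apply mul_le_mul_of_nonneg_left _ hC.le
        have hx0 : 0 < |x - 1/2| := by linarith
        apply mul_le_mul _ _ (Real.exp_pos _).le (by positivity)
        · rw [← div_eq_mul_inv, inv_eq_one_div, div_le_div_iff₀ (by positivity) (by positivity),
            one_mul]
          have : s ^ k ≤ (2 * |x - 1/2|) ^ k := pow_le_pow_left₀ hs0.le (by linarith) k
          rwa [mul_pow] at this
        · apply Real.exp_le_exp.2
          have h6 : (3/4 * s) ^ (4/3 : ℝ) ≤ |x - 1/2| ^ (4/3 : ℝ) :=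
            Real.rpow_le_rpow (by positivity) x5 (by norm_num)
          rw [Real.mul_rpow (by norm_num) hs0.le] at h6
          have h7 : (1/2 : ℝ) ≤ (3/4 : ℝ) ^ (4/3 : ℝ) := by
            have h8 : (3/4 : ℝ) ^ (2 : ℝ) ≤ (3/4 : ℝ) ^ (4/3 : ℝ) :=
              Real.rpow_le_rpow_of_exponent_ge (by norm_num) (by norm_num) (by norm_num)
            rw [Real.rpow_two] at h8
            norm_num at h8 ⊢
            linarith
          have h9 : 1/2 * s ^ (4/3 : ℝ) ≤ |x - 1/2| ^ (4/3 : ℝ) := by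
            have : 0 ≤ s ^ (4/3 : ℝ) := by positivity
            nlinarith
          have hn0 : (0:ℝ) ≤ n := by positivity
          have h10 : 1/2 * y ≤ n * |x - 1/2| ^ (4/3 : ℝ) := by
            rw [hy]
            have := mul_le_mul_of_nonneg_left h9 hn0
            linarith
          nlinarith
      · -- the crude bound
        intro x hx
        obtain ⟨x0, x1, x2, x3, x4, x5⟩ := hin x hx
        have h5 := crude (k + 2) (by omega) n hn x x0 x1 x2
        rw [← hM] at h5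
        refine h5.trans ?_
        apply mul_le_mul_of_nonneg_left _ hM0.le
        have hx0 : 0 < |x - 1/2| := by linarith
        apply mul_le_mul _ _ (by positivity) (by positivity)
        · rw [← div_eq_mul_inv, inv_eq_one_div, div_le_div_iff₀ (by positivity) (by positivity),
            one_mul]
          have : s ^ (k + 2) ≤ (2 * |x - 1/2|) ^ (k + 2) := pow_le_pow_left₀ hs0.le (by linarith) _
          rwa [mul_pow] at this
        · rw [hy]
          apply pow_le_pow_left₀ (by positivity)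
          apply mul_le_mul_of_nonneg_left _ (by positivity)
          exact Real.rpow_le_rpow hx0.le x4 (by norm_num)

end Pool.Agent.NH39.W
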