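import Pool.Agent.NH39.W.Stm

/-!
Limits of functions with bounded derivatives (S_LIM), and the bounds for the derivatives of the
density of clusters (S_KAP from S_UK).
-/

set_option autoImplicit false

namespace Pool.Agent.NH39.W

open H974 Finset Filter Topology Pool.Agent.NH39 Pool.Agent.NH39.GC
open scoped ContDiff

/-- One step. -/
theorem lim_step68 {f : ℕ → ℝ → ℝ} {g : ℝ → ℝ} {a b M : ℝ}
    (hf : ∀ m, ContDiff ℝ ∞ (f m))
    (hg : ∀ x ∈ Set.Ioo a b, Tendsto (fun m => f m x) atTop (𝓝 (g x)))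
    (hM : ∀ m, ∀ x ∈ Set.Ioo a b, |deriv (deriv (f m)) x| ≤ M) :
    ∃ g1 : ℝ → ℝ, (∀ x ∈ Set.Ioo a b, Tendsto (fun m => deriv (f m) x) atTop (𝓝 (g1 x))) ∧
      ∀ x ∈ Set.Ioo a b, HasDerivAt g (g1 x) x := by
  have hd : ∀ m x, HasDerivAt (f m) (deriv (f m) x) x := fun m x =>
    ((hf m).differentiable (by simp) x).hasDerivAt
  have hf' : ∀ m, ContDiff ℝ ∞ (deriv (f m)) := fun m => by
    have := (contDiff_infty_iff_deriv.1 (hf m)).2
    exact this
  have hd' : ∀ m x, HasDerivAt (deriv (f m)) (deriv (deriv (f m)) x) x := fun m x =>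
    ((hf' m).differentiable (by simp) x).hasDerivAt
  -- Taylor bound
  have hT : ∀ m, ∀ x ∈ Set.Ioo a b, ∀ y ∈ Set.Ioo a b,
      |f m y - f m x - (y - x) * deriv (f m) x| ≤ M * |y - x| ^ 2 := by
    intro m x hx y hy
    have h1 : ∀ t ∈ Set.uIcc x y, |deriv (f m) t - deriv (f m) x| ≤ M * |y - x| := by
      intro t ht
      have hsub : Set.uIcc x y ⊆ Set.Ioo a b := (Set.ordConnected_Ioo).uIcc_subset hx hy
      have hM0 : 0 ≤ M := (abs_nonneg _).trans (hM m x hx)
      have h2 : ‖deriv (f m) t - deriv (f m) x‖ ≤ M * ‖t - x‖ :=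
        (convex_Ioo a b).norm_image_sub_le_of_norm_hasDerivWithin_le
          (f := deriv (f m)) (f' := deriv (deriv (f m)))
          (fun z _ => (hd' m z).hasDerivWithinAt) (fun z hz => hM m z hz) hx (hsub ht)
      rw [Real.norm_eq_abs, Real.norm_eq_abs] at h2
      have h3 : |t - x| ≤ |y - x| := by
        exact Set.abs_sub_left_of_mem_uIcc ht
      exact h2.trans (mul_le_mul_of_nonneg_left h3 hM0)
    have h4 : ∀ t, HasDerivAt (fun t => f m t - t * deriv (f m) x) (deriv (f m) t - deriv (f m) x) t := by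
      intro t
      have := (hd m t).fun_sub ((hasDerivAt_id' t).mul_const (deriv (f m) x))
      rw [one_mul] at this
      exact this
    have h5 : ‖(f m y - y * deriv (f m) x) - (f m x - x * deriv (f m) x)‖ ≤
        (M * |y - x|) * ‖y - x‖ :=
      (convex_uIcc x y).norm_image_sub_le_of_norm_hasDerivWithin_le
          (f := fun t => f m t - t * deriv (f m) x) (f' := fun t => deriv (f m) t - deriv (f m) x)
          (fun z _ => (h4 z).hasDerivWithinAt) (fun z hz => h1 z hz) Set.left_mem_uIcc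
          Set.right_mem_uIcc
    rw [Real.norm_eq_abs, Real.norm_eq_abs] at h5
    have e1 : (f m y - y * deriv (f m) x) - (f m x - x * deriv (f m) x) =
      f m y - f m x - (y - x) * deriv (f m) x := by ring
    rw [e1] at h5
    calc _ ≤ _ := h5
      _ = _ := by ring
  -- convergence of the derivatives
  have hC : ∀ x ∈ Set.Ioo a b, ∃ l, Tendsto (fun m => deriv (f m) x) atTop (𝓝 l) := by
    intro x hx
    apply cauchySeq_tendsto_of_complete
    rw [Metric.cauchySeq_iff']
    intro δ hδ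
    have hM0 : 0 ≤ M := (abs_nonneg _).trans (hM 0 x hx)
    obtain ⟨y, hy1, hy2, hy3⟩ : ∃ y, x < y ∧ y ∈ Set.Ioo a b ∧ M * (y - x) < δ / 4 := by
      refine ⟨x + min ((b - x) / 2) (δ / (8 * (M + 1))), ?_, ⟨?_, ?_⟩, ?_⟩
      · have : 0 < min ((b - x) / 2) (δ / (8 * (M + 1))) := by
          apply lt_min
          · linarith [hx.2]
          · positivity
        linarith
      · have : 0 < min ((b - x) / 2) (δ / (8 * (M + 1))) := by
          apply lt_min
          · linarith [hx.2]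
          · positivity
        linarith [hx.1]
      · have := min_le_left ((b - x) / 2) (δ / (8 * (M + 1)))
        linarith [hx.2]
      · have h1 := min_le_right ((b - x) / 2) (δ / (8 * (M + 1)))
        have h2 : M * (x + min ((b - x) / 2) (δ / (8 * (M + 1))) - x) ≤ M * (δ / (8 * (M + 1))) := by
          apply mul_le_mul_of_nonneg_left _ hM0
          linarith
        have h3 : M * (δ / (8 * (M + 1))) ≤ δ / 8 := by
          rw [mul_div_assoc', div_le_div_iff₀ (by positivity) (by norm_num)]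
          nlinarith
        linarith
    have hyx : 0 < y - x := sub_pos.2 hy1
    have hsl : Tendsto (fun m => (f m y - f m x) / (y - x)) atTop
        (𝓝 ((g y - g x) / (y - x))) :=
      ((hg y hy2).sub (hg x hx)).div_const _
    have e2 : ∀ᶠ m in atTop, |(f m y - f m x) / (y - x) - (g y - g x) / (y - x)| < δ / 8 := by
      have := (Metric.tendsto_nhds.1 hsl) (δ / 8) (by positivity)
      simpa [Real.dist_eq] using this
    have e3 : ∀ m, |(f m y - f m x) / (y - x) - deriv (f m) x| < δ / 4 := by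
      intro m
      have h1 := hT m x hx y hy2
      have h2 : (f m y - f m x) / (y - x) - deriv (f m) x =
        (f m y - f m x - (y - x) * deriv (f m) x) / (y - x) := by
        field_simp
      rw [h2, abs_div, abs_of_pos hyx, div_lt_iff₀ hyx]
      rw [abs_of_pos hyx] at h1
      nlinarith
    obtain ⟨N, hN⟩ := eventually_atTop.1 e2
    refine ⟨N, ?_⟩
    intro n hn
    rw [Real.dist_eq]
    have b1 := hN n hn
    have b2 := hN N le_rfl
    have c1 := e3 n
    have c2 := e3 N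
    rw [abs_lt] at b1 b2 c1 c2 ⊢
    constructor <;> linarith
  choose! g1 hg1 using hC
  refine ⟨g1, hg1, ?_⟩
  intro x hx
  have hT' : ∀ y ∈ Set.Ioo a b, |g y - g x - (y - x) * g1 x| ≤ M * |y - x| ^ 2 := by
    intro y hy
    have h1 : Tendsto (fun m => |f m y - f m x - (y - x) * deriv (f m) x|) atTop
        (𝓝 |g y - g x - (y - x) * g1 x|) :=
      (((hg y hy).sub (hg x hx)).sub ((hg1 x hx).const_mul (y - x))).abs
    exact le_of_tendsto h1 (Eventually.of_forall (fun m => hT m x hx y hy))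
  rw [hasDerivAt_iff_isLittleO]
  have hO : (fun y => g y - g x - (y - x) • g1 x) =O[𝓝 x] (fun y => (y - x) ^ 2) := by
    apply Asymptotics.IsBigO.of_bound M
    filter_upwards [isOpen_Ioo.mem_nhds hx] with y hy
    have := hT' y hy
    rw [smul_eq_mul, Real.norm_eq_abs, Real.norm_eq_abs, abs_pow]
    exact this
  refine hO.trans_isLittleO ?_
  have h2 : (fun y : ℝ => (y - x) ^ 2) =o[𝓝 x] (fun y => (y - x)) := by
    have h3 : Tendsto (fun y : ℝ => y - x) (𝓝 x) (𝓝 0) := by
      have : Tendsto (fun y : ℝ => y - x) (𝓝 x) (𝓝 (x - x)) :=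
        (continuous_id.sub continuous_const).tendsto x
      simpa using this
    have h4 := (Asymptotics.isLittleO_pow_id (𝕜 := ℝ) (n := 2) (by norm_num)).comp_tendsto h3
    exact h4
  exact h2

theorem lim : S_LIM := by
  intro f g a b M _ hf hg hM
  have hk : ∀ k m, ContDiff ℝ ∞ (iteratedDeriv k (f m)) := fun k m => by
    rw [iteratedDeriv_eq_iterate]
    exact ContDiff.iterate_deriv k (hf m)
  -- all limits exist
  have hex : ∀ k, ∃ G : ℝ → ℝ, ∀ x ∈ Set.Ioo a b,
      Tendsto (fun m => iteratedDeriv k (f m) x) atTop (𝓝 (G x)) := by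
    intro k
    induction k with
    | zero => exact ⟨g, by simpa [iteratedDeriv_zero] using hg⟩
    | succ k ih =>
      obtain ⟨G, hG⟩ := ih
      obtain ⟨G1, h1, _⟩ := lim_step68 (f := fun m => iteratedDeriv k (f m)) (g := G) (M := M (k + 2))
        (hk k) hG (by
          intro m x hx
          have := hM (k + 2) (by omega) m x hx
          rw [iteratedDeriv_succ, iteratedDeriv_succ] at this
          exact this)
      refine ⟨G1, ?_⟩
      intro x hx
      have := h1 x hx
      simp only [iteratedDeriv_succ]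
      exact this
  choose G hG using hex
  have hG0 : ∀ x ∈ Set.Ioo a b, G 0 x = g x := by
    intro x hx
    have h1 := hG 0 x hx
    simp only [iteratedDeriv_zero] at h1
    exact tendsto_nhds_unique h1 (hg x hx)
  have hGd : ∀ k, ∀ x ∈ Set.Ioo a b, HasDerivAt (G k) (G (k + 1) x) x := by
    intro k x hx
    obtain ⟨G1, h1, h2⟩ := lim_step68 (f := fun m => iteratedDeriv k (f m)) (g := G k)
      (M := M (k + 2)) (hk k) (hG k) (by
          intro m x hx
          have := hM (k + 2) (by omega) m x hx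
          rw [iteratedDeriv_succ, iteratedDeriv_succ] at this
          exact this)
    have h3 := hG (k + 1) x hx
    simp only [iteratedDeriv_succ] at h3
    have h4 : G (k + 1) x = G1 x := tendsto_nhds_unique h3 (h1 x hx)
    rw [h4]
    exact h2 x hx
  have hit : ∀ k, ∀ x ∈ Set.Ioo a b, iteratedDeriv k g x = G k x := by
    intro k
    induction k with
    | zero =>
      intro x hx
      rw [iteratedDeriv_zero, hG0 x hx]
    | succ k ih =>
      intro x hx
      rw [iteratedDeriv_succ]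
      have h1 : iteratedDeriv k g =ᶠ[𝓝 x] G k := by
        filter_upwards [isOpen_Ioo.mem_nhds hx] with y hy
        exact ih y hy
      rw [h1.deriv_eq]
      exact (hGd k x hx).deriv
  constructor
  · rw [contDiffOn_infty]
    intro n
    apply contDiffOn_of_differentiableOn_deriv
    intro m _
    have h1 : Set.EqOn (iteratedDerivWithin m g (Set.Ioo a b)) (G m) (Set.Ioo a b) := by
      intro x hx
      rw [iteratedDerivWithin_of_isOpen isOpen_Ioo hx]
      exact hit m x hx
    apply DifferentiableOn.congr _ h1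
    intro x hx
    exact (hGd m x hx).differentiableAt.differentiableWithinAt
  · intro k x hx
    rw [hit k x hx]
    exact hG k x hx

/-- The mean number of clusters is a polynomial. -/
theorem tmean_smooth68 (n : ℕ) [NeZero n] : ContDiff ℝ ∞ (tmean n) := by
  unfold tmean Ex
  apply ContDiff.sum
  intro F _
  apply ContDiff.mul _ contDiff_const
  apply ContDiff.mul
  · apply contDiff_prod
    intro e _
    exact contDiff_id
  · apply contDiff_prod
    intro e _
    exact contDiff_const.sub contDiff_id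

/-- The mean number of clusters per vertex converges. -/
theorem tmean_lim68 {p : ℝ} (p0 : 0 ≤ p) (p1 : p ≤ 1) :
    Tendsto (fun m : ℕ => (1 / ((m + 3 : ℕ) : ℝ) ^ 2) * tmean (m + 3) p) atTop (𝓝 (kap p)) := by
  obtain ⟨c, C, hc, hC, h⟩ := tor_main
  rw [← tendsto_sub_nhds_zero_iff]
  have h0 : Tendsto (fun m : ℕ => (C + 1) * (1 / (((m + 3 : ℕ) : ℝ)))) atTop (𝓝 0) := by
    have h1 : Tendsto (fun m : ℕ => 1 / (((m + 3 : ℕ) : ℝ))) atTop (𝓝 0) :=
      tendsto_one_div_atTop_nhds_zero_nat.comp (tendsto_add_atTop_nat 3)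
    simpa using h1.const_mul (C + 1)
  apply squeeze_zero_norm _ h0
  intro m
  have h1 := h (m + 3) (by omega) p p0 p1
  have h2 : Real.exp (-(c * (((m + 3 : ℕ) : ℝ) * |p - 1/2| ^ (4/3 : ℝ)))) ≤ 1 := by
    apply Real.exp_le_one_iff.2
    have : 0 ≤ c * (((m + 3 : ℕ) : ℝ) * |p - 1/2| ^ (4/3 : ℝ)) := by positivity
    linarith
  have h3 : C * Real.exp (-(c * (((m + 3 : ℕ) : ℝ) * |p - 1/2| ^ (4/3 : ℝ)))) ≤ C * 1 :=
    mul_le_mul_of_nonneg_left h2 hC.le
  have hn : (1:ℝ) ≤ ((m + 3 : ℕ) : ℝ) := by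
    have : (1:ℕ) ≤ m + 3 := by omega
    exact_mod_cast this
  have hn0 : (0:ℝ) < ((m + 3 : ℕ) : ℝ) := by linarith
  have h4 : |tmean (m + 3) p - ((m + 3 : ℕ) : ℝ) ^ 2 * kap p| ≤ C + 1 := by
    have h5 : |(if 1/2 < p then (1:ℝ) else 0)| ≤ 1 := by
      split_ifs <;> simp
    have h6 := abs_add_le (tmean (m + 3) p - ((m + 3 : ℕ) : ℝ) ^ 2 * kap p -
      (if 1/2 < p then (1:ℝ) else 0)) (if 1/2 < p then (1:ℝ) else 0)
    rw [sub_add_cancel] at h6
    linarith
  have h7 : 1 / ((m + 3 : ℕ) : ℝ) ^ 2 * tmean (m + 3) p - kap p =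
      (tmean (m + 3) p - ((m + 3 : ℕ) : ℝ) ^ 2 * kap p) / ((m + 3 : ℕ) : ℝ) ^ 2 := by
    field_simp
  rw [h7, Real.norm_eq_abs, abs_div, abs_of_pos (by positivity : (0:ℝ) < ((m + 3 : ℕ) : ℝ) ^ 2)]
  calc _ ≤ (C + 1) / ((m + 3 : ℕ) : ℝ) ^ 2 := by
        apply div_le_div_of_nonneg_right h4 (by positivity)
    _ ≤ (C + 1) / ((m + 3 : ℕ) : ℝ) := by
        apply div_le_div_of_nonneg_left (by linarith) hn0
        nlinarith
    _ = _ := by ring

theorem kap_bound (h : S_UK) : S_KAP := by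
  obtain ⟨C, hC, hU⟩ := h
  refine ⟨C, hC, ?_⟩
  intro p p0 p1 ph
  -- the bound at a point
  have hder : ∀ (m k : ℕ) (x : ℝ), iteratedDeriv k
      (fun x => (1 / ((m + 3 : ℕ) : ℝ) ^ 2) * tmean (m + 3) x) x =
      (1 / ((m + 3 : ℕ) : ℝ) ^ 2) * iteratedDeriv k (tmean (m + 3)) x := by
    intro m k x
    exact iteratedDeriv_const_mul _ (((tmean_smooth68 (m + 3)).of_le (by exact_mod_cast le_top)).contDiffAt)
  have hb2 : ∀ (m : ℕ) (x : ℝ), 0 ≤ x → x ≤ 1 →
      |iteratedDeriv 2 (fun x => (1 / ((m + 3 : ℕ) : ℝ) ^ 2) * tmean (m + 3) x) x| ≤ C := by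
    intro m x x0 x1
    have hn0 : (0:ℝ) < ((m + 3 : ℕ) : ℝ) := by
      have : (0:ℕ) < m + 3 := by omega
      exact_mod_cast this
    have h1 := (hU (m + 3) (by omega) x x0 x1).1
    rw [hder, abs_mul, abs_of_pos (by positivity : (0:ℝ) < 1 / ((m + 3 : ℕ) : ℝ) ^ 2)]
    calc _ ≤ 1 / ((m + 3 : ℕ) : ℝ) ^ 2 * (C * ((m + 3 : ℕ) : ℝ) ^ 2) :=
          mul_le_mul_of_nonneg_left h1 (by positivity)
      _ = C := by field_simp
  have hb3 : ∀ (m k : ℕ) (x δ : ℝ), 3 ≤ k → 0 ≤ x → x ≤ 1 → 0 < δ → δ ≤ |x - 1/2| →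
      |iteratedDeriv k (fun x => (1 / ((m + 3 : ℕ) : ℝ) ^ 2) * tmean (m + 3) x) x| ≤
        C ^ k * k.factorial * δ ^ ((8:ℝ)/3 - k) := by
    intro m k x δ hk x0 x1 hδ hx
    have hn0 : (0:ℝ) < ((m + 3 : ℕ) : ℝ) := by
      have : (0:ℕ) < m + 3 := by omega
      exact_mod_cast this
    have h1 := (hU (m + 3) (by omega) x x0 x1).2 k hk
    have h2 : xs (m + 3) x ^ ((8:ℝ)/3 - k) ≤ δ ^ ((8:ℝ)/3 - k) := by
      apply Real.rpow_le_rpow_of_nonpos hδ
      · exact hx.trans (le_max_right _ _)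
      · have : (3:ℝ) ≤ k := by exact_mod_cast hk
        linarith
    rw [hder, abs_mul, abs_of_pos (by positivity : (0:ℝ) < 1 / ((m + 3 : ℕ) : ℝ) ^ 2)]
    have hC0 : (0:ℝ) ≤ C ^ k * k.factorial := by positivity
    calc _ ≤ 1 / ((m + 3 : ℕ) : ℝ) ^ 2 * (C ^ k * k.factorial *
            (((m + 3 : ℕ) : ℝ) ^ 2 * xs (m + 3) x ^ ((8:ℝ)/3 - k))) :=
          mul_le_mul_of_nonneg_left h1 (by positivity)
      _ = C ^ k * k.factorial * xs (m + 3) x ^ ((8:ℝ)/3 - k) := by field_simp
      _ ≤ _ := mul_le_mul_of_nonneg_left h2 hC0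
  have hd0 : 0 < |p - 1/2| := abs_pos.2 (sub_ne_zero.2 ph)
  -- the interval
  obtain ⟨δ, hδ, hδ1, hδ2, hδ3⟩ : ∃ δ : ℝ, 0 < δ ∧ δ ≤ p ∧ δ ≤ 1 - p ∧ 2 * δ ≤ |p - 1/2| := by
    refine ⟨min p (min (1 - p) (|p - 1/2| / 2)), ?_, min_le_left _ _,
      (min_le_right _ _).trans (min_le_left _ _), ?_⟩
    · exact lt_min p0 (lt_min (by linarith) (by linarith))
    · have := (min_le_right p (min (1 - p) (|p - 1/2| / 2))).trans (min_le_right _ _)
      linarith
  have hx : ∀ x ∈ Set.Ioo (p - δ) (p + δ), 0 ≤ x ∧ x ≤ 1 ∧ δ ≤ |x - 1/2| := by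
    intro x hx
    refine ⟨by linarith [hx.1], by linarith [hx.2], ?_⟩
    have h1 : |p - 1/2| ≤ |p - x| + |x - 1/2| := abs_sub_le _ _ _
    have h2 : |p - x| ≤ δ := by
      rw [abs_le]
      constructor <;> linarith [hx.1, hx.2]
    linarith
  have hp : p ∈ Set.Ioo (p - δ) (p + δ) := ⟨by linarith, by linarith⟩
  obtain ⟨h1, h2⟩ := lim (fun m x => (1 / ((m + 3 : ℕ) : ℝ) ^ 2) * tmean (m + 3) x) kap
    (p - δ) (p + δ) (fun k => if k = 2 then C else C ^ k * k.factorial * δ ^ ((8:ℝ)/3 - k))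
    (by linarith) (fun m => contDiff_const.mul (tmean_smooth68 (m + 3)))
    (fun x hx' => tmean_lim68 (hx x hx').1 (hx x hx').2.1)
    (by
      intro k hk m x hx'
      obtain ⟨a1, a2, a3⟩ := hx x hx'
      by_cases h2 : k = 2
      · subst h2
        simpa using hb2 m x a1 a2
      · rw [if_neg h2]
        exact hb3 m k x δ (by omega) a1 a2 hδ a3)
  refine ⟨h1.contDiffAt (isOpen_Ioo.mem_nhds hp), ?_⟩
  intro k hk
  have h3 := (h2 k p hp).abs
  exact le_of_tendsto h3 (Eventually.of_forall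
    (fun m => hb3 m k p |p - 1/2| hk p0.le p1.le hd0 le_rfl))

end Pool.Agent.NH39.W
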