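import Pool.Agent.NH39.W.Stm

set_option autoImplicit false
/-!
Project W: the lower bound for the maximum of the derivatives of the mean number of clusters.
-/

set_option autoImplicit false

namespace Pool.Agent.NH39.W

open Finset Filter Topology
open scoped ContDiff

theorem fd_bound_lw (k : ℕ) : ∀ (f : ℝ → ℝ), ContDiff ℝ ∞ f → ∀ (x h M : ℝ), 0 ≤ h →
    (∀ y ∈ Set.Icc x (x + k * h), |iteratedDeriv k f y| ≤ M) →
    |(fwdDiff h)^[k] f x| ≤ h ^ k * M := by
  induction k with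
  | zero =>
    intro f _ x h M _ hM
    have := hM x (by simp)
    simpa using this
  | succ k ih =>
    intro f hf x h M hh hM
    rw [Function.iterate_succ_apply]
    have hf' : ContDiff ℝ ∞ (fwdDiff h f) := by
      have : fwdDiff h f = fun y => f (y + h) - f y := rfl
      rw [this]
      exact (hf.comp (contDiff_id.add contDiff_const)).sub hf
    have key := ih (fwdDiff h f) hf' x h (h * M) hh (by
      intro y hy
      have e1 : iteratedDeriv k (fwdDiff h f) y = iteratedDeriv k f (y + h) - iteratedDeriv k f y := by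
        have : fwdDiff h f = (fun y => f (y + h)) - f := rfl
        rw [this, iteratedDeriv_sub]
        · rw [iteratedDeriv_comp_add_const]
        · exact ((hf.comp (contDiff_id.add contDiff_const)).of_le
            (by exact_mod_cast le_top)).contDiffAt
        · exact (hf.of_le (by exact_mod_cast le_top)).contDiffAt
      rw [e1]
      have hd : ∀ z : ℝ, HasDerivAt (iteratedDeriv k f) (iteratedDeriv (k + 1) f z) z := by
        intro z
        rw [iteratedDeriv_succ]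
        exact ((hf.differentiable_iteratedDeriv k (by exact_mod_cast (WithTop.coe_lt_top k))) z).hasDerivAt
      have hk1 : ((k + 1 : ℕ) : ℝ) = k + 1 := by push_cast; ring
      have hmv := Convex.norm_image_sub_le_of_norm_hasDerivWithin_le
        (f := iteratedDeriv k f) (f' := iteratedDeriv (k + 1) f) (s := Set.Icc y (y + h))
        (x := y) (y := y + h) (C := M) (fun z _ => (hd z).hasDerivWithinAt) (by
          intro z hz
          rw [Real.norm_eq_abs]
          apply hM z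
          rw [hk1]
          constructor
          · linarith [hz.1, hy.1]
          · nlinarith [hz.2, hy.2]) (convex_Icc _ _) ⟨le_rfl, by linarith⟩ ⟨by linarith, le_rfl⟩
      rw [Real.norm_eq_abs, Real.norm_eq_abs, add_sub_cancel_left, abs_of_nonneg hh] at hmv
      linarith [mul_comm M h])
    rw [pow_succ]
    linarith [mul_assoc (h ^ k) h M]

/-- The alternating sum with one changed sign. -/
theorem fd_lower_lw {k : ℕ} (hk : 1 ≤ k) (F : ℝ → ℝ) (x h ε : ℝ) (h0 : |F x + 1| ≤ ε)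
    (h1 : ∀ j : ℕ, 1 ≤ j → j ≤ k → |F (x + j * h) - 1| ≤ ε) :
    2 - 2 ^ k * ε ≤ |(fwdDiff h)^[k] F x| := by
  have e1 : (fwdDiff h)^[k] F x = ∑ j ∈ range (k + 1), (-1 : ℝ) ^ (k - j) * (k.choose j) * F (x + j * h) := by
    rw [fwdDiff_iter_eq_sum_shift]
    apply Finset.sum_congr rfl
    intro j _
    simp [zsmul_eq_mul]
  have e2 : ∑ j ∈ range (k + 1), (-1 : ℝ) ^ (k - j) * (k.choose j) = 0 := by
    have h := add_pow (1 : ℝ) (-1) k
    rw [add_neg_cancel, zero_pow (by omega)] at h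
    rw [h]
    apply Finset.sum_congr rfl
    intro j _
    ring
  have e3 : ∑ j ∈ range (k + 1), ((k.choose j : ℕ) : ℝ) = 2 ^ k := by
    have h := add_pow (1 : ℝ) 1 k
    rw [show (1:ℝ) + 1 = 2 by norm_num] at h
    rw [h]
    apply Finset.sum_congr rfl
    intro j _
    ring
  have e4 : (fwdDiff h)^[k] F x + 2 * (-1) ^ k =
      ∑ j ∈ range (k + 1), (-1 : ℝ) ^ (k - j) * (k.choose j) *
        (F (x + j * h) - (if j = 0 then -1 else 1)) := by
    have e5 : ∑ j ∈ range (k + 1), (-1 : ℝ) ^ (k - j) * (k.choose j) * (if j = 0 then -1 else 1) =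
        - (2 * (-1) ^ k) := by
      have e6 : ∀ j ∈ range (k + 1), (-1 : ℝ) ^ (k - j) * (k.choose j) * (if j = 0 then (-1:ℝ) else 1) =
          (-1 : ℝ) ^ (k - j) * (k.choose j) - (if j = 0 then 2 * (-1) ^ k else 0) := by
        intro j _
        by_cases hj : j = 0
        · subst hj; simp; ring
        · simp [hj]
      rw [Finset.sum_congr rfl e6, Finset.sum_sub_distrib, e2, Finset.sum_ite_eq' ]
      simp
    simp_rw [mul_sub]
    rw [Finset.sum_sub_distrib, ← e1, e5]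
    ring
  have e7 : |(fwdDiff h)^[k] F x + 2 * (-1) ^ k| ≤ 2 ^ k * ε := by
    rw [e4]
    refine (Finset.abs_sum_le_sum_abs _ _).trans ?_
    rw [← e3, Finset.sum_mul]
    apply Finset.sum_le_sum
    intro j hj
    rw [abs_mul, abs_mul, abs_pow, abs_neg, abs_one, one_pow, one_mul, Nat.abs_cast]
    apply mul_le_mul_of_nonneg_left _ (by positivity)
    by_cases hj0 : j = 0
    · subst hj0; simpa using h0
    · rw [if_neg hj0]
      exact h1 j (by omega) (by have := mem_range.1 hj; omega)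
  have e8 : |2 * (-1:ℝ) ^ k| = 2 := by
    rw [abs_mul, abs_pow, abs_neg, abs_one, one_pow]; norm_num
  have e9 : |2 * (-1:ℝ) ^ k| ≤ |(fwdDiff h)^[k] F x + 2 * (-1) ^ k| + |(fwdDiff h)^[k] F x| := by
    have := abs_sub ((fwdDiff h)^[k] F x + 2 * (-1) ^ k) ((fwdDiff h)^[k] F x)
    rw [show (fwdDiff h)^[k] F x + 2 * (-1) ^ k - (fwdDiff h)^[k] F x = 2 * (-1) ^ k by ring] at this
    exact this
  linarith


open H974 Pool.Agent.NH39 Pool.Agent.NH39.GC

theorem kap_dual_lw {s : ℝ} (h0 : 0 ≤ s) (h1 : s ≤ 1/4) :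
    kap (1/2 + s) - kap (1/2 - s) = -(2 * s) := by
  have e1 : kap (1/2 + s) - kap (1/2 - s) = -∫ t in (1/2 - s)..(1/2 + s), (2 - Gam t) := by
    unfold kap
    rw [← intervalIntegral.integral_add_adjacent_intervals (Gam_int 0 (1/2 - s))
      (Gam_int (1/2 - s) (1/2 + s))]
    ring
  have e2 : ∫ t in (1/2 - s)..(1/2 + s), (2 - Gam (1 - t)) =
      ∫ t in (1/2 - s)..(1/2 + s), (2 - Gam t) := by
    rw [intervalIntegral.integral_comp_sub_left (fun t => 2 - Gam t) 1]
    congr 1 <;> ring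
  have hi : IntervalIntegrable (fun t => 2 - Gam (1 - t)) MeasureTheory.volume (1/2 - s) (1/2 + s) := by
    have := (Gam_int (1 - (1/2 - s)) (1 - (1/2 + s))).comp_sub_left 1
    simpa using this
  have e3 : (∫ t in (1/2 - s)..(1/2 + s), (2 - Gam (1 - t))) +
      (∫ t in (1/2 - s)..(1/2 + s), (2 - Gam t)) = ∫ t in (1/2 - s)..(1/2 + s), (2:ℝ) := by
    rw [← intervalIntegral.integral_add hi (Gam_int _ _)]
    apply intervalIntegral.integral_congr
    intro t ht
    rw [Set.uIcc_of_le (by linarith)] at ht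
    have := Gam_dual (q := t) (by linarith [ht.1]) (by linarith [ht.2])
    simp only
    linarith
  rw [e2, intervalIntegral.integral_const, smul_eq_mul] at e3
  rw [e1]
  linarith

theorem tmean_smooth_lw (n : ℕ) [NeZero n] : ContDiff ℝ ∞ (tmean n) := by
  unfold tmean Ex
  apply ContDiff.sum
  intro F _
  apply ContDiff.mul _ contDiff_const
  apply ContDiff.mul
  · simp only [Finset.prod_const]
    exact contDiff_id.pow _
  · simp only [Finset.prod_const]
    exact (contDiff_const.sub contDiff_id).pow _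

theorem low : S_LOW := by
  intro k hk
  obtain ⟨c, C, hc, hC, hmain⟩ := tor_main
  -- the constant `X`
  obtain ⟨X, hX1, hX⟩ : ∃ X : ℝ, 1 ≤ X ∧ 2 * C * Real.exp (-(c * X ^ (4/3 : ℝ))) ≤ (2 ^ k)⁻¹ := by
    have h1 : Tendsto (fun X : ℝ => 2 * C * Real.exp (-(c * X ^ (4/3 : ℝ)))) atTop (𝓝 (2 * C * 0)) := by
      apply Tendsto.const_mul
      apply Real.tendsto_exp_atBot.comp
      apply tendsto_neg_atTop_atBot.comp
      exact (tendsto_rpow_atTop (by norm_num : (0:ℝ) < 4/3)).const_mul_atTop hc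
    rw [mul_zero] at h1
    have h2 := h1.eventually (gt_mem_nhds (show (0:ℝ) < (2 ^ k)⁻¹ by positivity))
    obtain ⟨X, hX1, hX2⟩ := ((eventually_ge_atTop (1:ℝ)).and h2).exists
    exact ⟨X, hX1, hX2.le⟩
  have hX0 : 0 < X := by linarith
  -- the threshold
  obtain ⟨n0, hn0⟩ : ∃ n0 : ℕ, ∀ n : ℕ, n0 ≤ n →
      (k + 1) * (2 * X * (n:ℝ) ^ (-(3/4) : ℝ)) ≤ 1/4 := by
    have h1 : Tendsto (fun n : ℕ => (k + 1) * (2 * X * (n:ℝ) ^ (-(3/4) : ℝ))) atTop
        (𝓝 ((k + 1) * (2 * X * 0))) := by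
      apply Tendsto.const_mul
      apply Tendsto.const_mul
      exact (tendsto_rpow_neg_atTop (by norm_num : (0:ℝ) < 3/4)).comp tendsto_natCast_atTop_atTop
    rw [mul_zero, mul_zero] at h1
    have h2 := h1.eventually (gt_mem_nhds (show (0:ℝ) < 1/4 by norm_num))
    obtain ⟨n0, h3⟩ := eventually_atTop.1 h2
    exact ⟨n0, fun n hn => (h3 n hn).le⟩
  refine ⟨(4 * (2 * X) ^ k)⁻¹, max n0 3, by positivity, ?_⟩
  intro n _ hn
  have hn3 : 3 ≤ n := (le_max_right _ _).trans hn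
  have hnn0 : n0 ≤ n := (le_max_left _ _).trans hn
  have hnr : (0:ℝ) < n := by exact_mod_cast (by omega : 0 < n)
  obtain ⟨h, hh⟩ : ∃ h : ℝ, h = 2 * X * (n:ℝ) ^ (-(3/4) : ℝ) := ⟨_, rfl⟩
  have hh0 : 0 < h := by rw [hh]; positivity
  have hsmall := hn0 n hnn0
  rw [← hh] at hsmall
  have hk3 : (3:ℝ) ≤ k := by exact_mod_cast hk
  by_contra hcon
  push Not at hcon
  -- the odd function
  obtain ⟨F, hF⟩ : ∃ F : ℝ → ℝ, F = fun s => tmean n (1/2 + s) - tmean n (1/2 - s) +
    2 * (n:ℝ) ^ 2 * s := ⟨_, rfl⟩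
  have hodd : ∀ s, F (-s) = -F s := by
    intro s
    rw [hF]
    simp only
    rw [show (1:ℝ)/2 + -s = 1/2 - s by ring, show (1:ℝ)/2 - -s = 1/2 + s by ring]
    ring
  have hval : ∀ s : ℝ, h / 2 ≤ s → s ≤ 1/4 → |F s - 1| ≤ (2 ^ k)⁻¹ := by
    intro s hs1 hs2
    have hs0 : 0 < s := by linarith
    have a1 := hmain n hn3 (1/2 + s) (by linarith) (by linarith)
    have a2 := hmain n hn3 (1/2 - s) (by linarith) (by linarith)
    rw [if_pos (by linarith)] at a1
    rw [if_neg (by linarith)] at a2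
    rw [show (1:ℝ)/2 + s - 1/2 = s by ring, abs_of_pos hs0] at a1
    rw [show (1:ℝ)/2 - s - 1/2 = -s by ring, abs_neg, abs_of_pos hs0] at a2
    have a3 := kap_dual_lw hs0.le hs2
    have a4 : Real.exp (-(c * (n * s ^ (4/3 : ℝ)))) ≤ Real.exp (-(c * X ^ (4/3 : ℝ))) := by
      apply Real.exp_le_exp.2
      have b1 : X * (n:ℝ) ^ (-(3/4) : ℝ) ≤ s := by
        have : h / 2 = X * (n:ℝ) ^ (-(3/4) : ℝ) := by rw [hh]; ring
        rwa [← this]
      have b2 : (X * (n:ℝ) ^ (-(3/4) : ℝ)) ^ (4/3 : ℝ) ≤ s ^ (4/3 : ℝ) :=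
        Real.rpow_le_rpow (by positivity) b1 (by norm_num)
      have b3 : n * (X * (n:ℝ) ^ (-(3/4) : ℝ)) ^ (4/3 : ℝ) = X ^ (4/3 : ℝ) := by
        rw [Real.mul_rpow hX0.le (by positivity), ← Real.rpow_mul hnr.le,
          show (-(3/4) : ℝ) * (4/3) = -1 by norm_num, Real.rpow_neg_one]
        field_simp
      have b4 : X ^ (4/3 : ℝ) ≤ n * s ^ (4/3 : ℝ) := by
        rw [← b3]
        exact mul_le_mul_of_nonneg_left b2 hnr.le
      have := mul_le_mul_of_nonneg_left b4 hc.le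
      linarith
    have a5 : |F s - 1| ≤ C * Real.exp (-(c * (n * s ^ (4/3 : ℝ)))) +
        C * Real.exp (-(c * (n * s ^ (4/3 : ℝ)))) := by
      have e1 : F s - 1 = (tmean n (1/2 + s) - (n:ℝ) ^ 2 * kap (1/2 + s) - 1) -
          (tmean n (1/2 - s) - (n:ℝ) ^ 2 * kap (1/2 - s) - 0) := by
        rw [hF]
        simp only
        linear_combination (n:ℝ) ^ 2 * a3
      rw [e1]
      exact (abs_sub _ _).trans (add_le_add a1 a2)
    have a6 : C * Real.exp (-(c * (n * s ^ (4/3 : ℝ)))) ≤ C * Real.exp (-(c * X ^ (4/3 : ℝ))) :=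
      mul_le_mul_of_nonneg_left a4 hC.le
    linarith
  -- lower bound
  have hlow := fd_lower_lw (k := k) (by omega) F (-(h/2)) h (2 ^ k)⁻¹ (by
    rw [hodd, show -F (h/2) + 1 = -(F (h/2) - 1) by ring, abs_neg]
    refine hval _ le_rfl ?_
    nlinarith) (by
    intro j hj1 hjk
    have hj1' : (1:ℝ) ≤ j := by exact_mod_cast hj1
    have hjk' : (j:ℝ) ≤ k := by exact_mod_cast hjk
    refine hval _ ?_ ?_
    · nlinarith
    · nlinarith)
  rw [mul_inv_cancel₀ (by positivity)] at hlow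
  -- upper bound
  obtain ⟨M, hM⟩ : ∃ M : ℝ, M = (4 * (2 * X) ^ k)⁻¹ * (n:ℝ) ^ ((3:ℝ)/4 * k) := ⟨_, rfl⟩
  have hup1 := fd_bound_lw k (fun s => tmean n (1/2 + s))
    ((tmean_smooth_lw n).comp (contDiff_const.add contDiff_id)) (-(h/2)) h M hh0.le (by
      intro y hy
      rw [iteratedDeriv_comp_const_add]
      rw [hM]
      refine (hcon (1/2 + y) ?_ ?_).le
      · nlinarith [hy.1]
      · nlinarith [hy.2])
  have hup2 := fd_bound_lw k (fun s => tmean n (1/2 - s))
    ((tmean_smooth_lw n).comp (contDiff_const.sub contDiff_id)) (-(h/2)) h M hh0.le (by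
      intro y hy
      rw [iteratedDeriv_comp_const_sub]
      simp only [smul_eq_mul]
      rw [abs_mul, abs_pow, abs_neg, abs_one, one_pow, one_mul, hM]
      refine (hcon (1/2 - y) ?_ ?_).le
      · nlinarith [hy.2]
      · nlinarith [hy.1])
  have hup3 := fd_bound_lw k (fun s => 2 * (n:ℝ) ^ 2 * s)
    (contDiff_const.mul contDiff_id) (-(h/2)) h 0 hh0.le (by
      intro y _
      obtain ⟨m, rfl⟩ : ∃ m, k = m + 2 := ⟨k - 2, by omega⟩
      have e1 : deriv (fun s : ℝ => 2 * (n:ℝ) ^ 2 * s) = fun _ => 2 * (n:ℝ) ^ 2 := by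
        funext s
        simp
      rw [show m + 2 = (m + 1) + 1 by ring, iteratedDeriv_succ', e1, iteratedDeriv_const]
      simp)
  have hdec : (fwdDiff h)^[k] F (-(h/2)) = (fwdDiff h)^[k] (fun s => tmean n (1/2 + s)) (-(h/2)) -
      (fwdDiff h)^[k] (fun s => tmean n (1/2 - s)) (-(h/2)) +
      (fwdDiff h)^[k] (fun s => 2 * (n:ℝ) ^ 2 * s) (-(h/2)) := by
    rw [fwdDiff_iter_eq_sum_shift, fwdDiff_iter_eq_sum_shift, fwdDiff_iter_eq_sum_shift,
      fwdDiff_iter_eq_sum_shift, ← Finset.sum_sub_distrib, ← Finset.sum_add_distrib]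
    apply Finset.sum_congr rfl
    intro j _
    rw [hF]
    simp only
    rw [← smul_sub, ← smul_add]
  have hhk : h ^ k * M = 1/4 := by
    have e1 : h ^ k = (2 * X) ^ k * (n:ℝ) ^ (-((3:ℝ)/4 * k)) := by
      rw [hh, mul_pow, ← Real.rpow_natCast ((n:ℝ) ^ (-(3/4) : ℝ)), ← Real.rpow_mul hnr.le]
      congr 2
      ring
    have e2 : (n:ℝ) ^ (-((3:ℝ)/4 * k)) * (n:ℝ) ^ ((3:ℝ)/4 * k) = 1 := by
      rw [← Real.rpow_add hnr]
      simp
    rw [e1, hM]
    calc (2 * X) ^ k * (n:ℝ) ^ (-((3:ℝ)/4 * k)) * ((4 * (2 * X) ^ k)⁻¹ * (n:ℝ) ^ ((3:ℝ)/4 * k)) =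
        ((2 * X) ^ k * (4 * (2 * X) ^ k)⁻¹) * ((n:ℝ) ^ (-((3:ℝ)/4 * k)) * (n:ℝ) ^ ((3:ℝ)/4 * k)) := by
          ring
      _ = 1/4 := by
          rw [e2, mul_one]
          field_simp
  rw [hhk] at hup1 hup2
  rw [mul_zero] at hup3
  have hfin : |(fwdDiff h)^[k] F (-(h/2))| ≤ 1/4 + 1/4 + 0 := by
    rw [hdec]
    refine (abs_add_le _ _).trans (add_le_add ((abs_sub _ _).trans (add_le_add hup1 hup2)) hup3)
  linarith

end Pool.Agent.NH39.W
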