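import Mathlib

/-!
Project W, part SEC: analytic continuation of a real function with bounds for all its derivatives
to a double sector (general part, complex analysis only).
-/

set_option autoImplicit false

namespace Pool.Agent.NH39.W.SecA

open Set Filter Topology
open scoped ContDiff Nat

/-- The Taylor coefficient. -/
noncomputable def co (f : ℝ → ℝ) (p : ℝ) (k : ℕ) : ℝ := iteratedDeriv k f p / k !

/-- The sum of the Taylor series at `p`. -/
noncomputable def G (f : ℝ → ℝ) (p : ℝ) (z : ℂ) : ℂ := ∑' k : ℕ, (co f p k : ℂ) * (z - p) ^ k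

theorem tay {f : ℝ → ℝ} {p x : ℝ} (hne : p ≠ x) (hf : ∀ y ∈ uIcc p x, ContDiffAt ℝ ∞ f y)
    (n : ℕ) : ∃ y ∈ uIoo p x, f x - ∑ k ∈ Finset.range (n + 1), co f p k * (x - p) ^ k =
      co f y (n + 1) * (x - p) ^ (n + 1) := by
  have hu : UniqueDiffOn ℝ (uIcc p x) := uniqueDiffOn_uIcc hne
  have hc : ContDiffOn ℝ ((n : ℕ∞ω) + 1) f (uIcc p x) := fun y hy =>
    ((hf y hy).of_le (by exact_mod_cast le_top)).contDiffWithinAt
  obtain ⟨y, hy, h⟩ := taylor_mean_remainder_lagrange_iteratedDeriv hne hc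
  refine ⟨y, hy, ?_⟩
  rw [taylor_within_apply] at h
  have h1 : ∀ k, iteratedDerivWithin k f (uIcc p x) p = iteratedDeriv k f p := fun k =>
    iteratedDerivWithin_eq_iteratedDeriv hu ((hf p left_mem_uIcc).of_le
      (by exact_mod_cast le_top)) left_mem_uIcc
  simp only [h1, smul_eq_mul] at h
  have h2 : ∑ k ∈ Finset.range (n + 1), ((k ! : ℝ)⁻¹ * (x - p) ^ k) * iteratedDeriv k f p =
      ∑ k ∈ Finset.range (n + 1), co f p k * (x - p) ^ k :=
    Finset.sum_congr rfl fun k _ => by unfold co; ring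
  rw [h2] at h
  rw [h]
  unfold co
  ring

/-- summability and differentiability of power series -/
theorem G_diff {f : ℝ → ℝ} {p B L : ℝ} (hL : 0 < L) (hB : ∀ k, |co f p k| ≤ B * L ^ k) :
    DifferentiableOn ℂ (G f p) (Metric.ball (p : ℂ) (1 / (2 * L))) := by
  unfold G
  have hB0 : 0 ≤ B := by
    have := (abs_nonneg _).trans (hB 0)
    simpa using this
  refine Complex.differentiableOn_tsum_of_summable_norm (u := fun k : ℕ => B * (1 / 2) ^ k)
    (summable_geometric_two.mul_left B) (fun k => ?_) Metric.isOpen_ball (fun k w hw => ?_)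
  · fun_prop
  · rw [norm_mul, norm_pow, Complex.norm_real, Real.norm_eq_abs]
    have h1 : ‖w - p‖ ≤ 1 / (2 * L) := by
      have := Metric.mem_ball.1 hw
      rw [dist_eq_norm] at this
      exact this.le
    calc |co f p k| * ‖w - p‖ ^ k ≤ (B * L ^ k) * (1 / (2 * L)) ^ k :=
          mul_le_mul (hB k) (pow_le_pow_left₀ (norm_nonneg _) h1 k) (by positivity) (by positivity)
      _ = B * (1 / 2) ^ k := by
          rw [mul_assoc, ← mul_pow]
          congr 2
          field_simp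

theorem G_sum {f : ℝ → ℝ} {p B L : ℝ} (hL : 0 < L) (hB : ∀ k, |co f p k| ≤ B * L ^ k) {z : ℂ}
    (hz : ‖z - p‖ ≤ 1 / (2 * L)) : Summable fun k : ℕ => (co f p k : ℂ) * (z - p) ^ k := by
  have hB0 : 0 ≤ B := by
    have := (abs_nonneg _).trans (hB 0)
    simpa using this
  refine Summable.of_norm_bounded (g := fun k : ℕ => B * (1 / 2) ^ k)
    (summable_geometric_two.mul_left B) (fun k => ?_)
  rw [norm_mul, norm_pow, Complex.norm_real, Real.norm_eq_abs]
  calc |co f p k| * ‖z - p‖ ^ k ≤ (B * L ^ k) * (1 / (2 * L)) ^ k :=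
        mul_le_mul (hB k) (pow_le_pow_left₀ (norm_nonneg _) hz k) (by positivity) (by positivity)
    _ = B * (1 / 2) ^ k := by
        rw [mul_assoc, ← mul_pow]
        congr 2
        field_simp

/-- the hypotheses -/
structure Hyp (f : ℝ → ℝ) (C a0 a1 a2 : ℝ) : Prop where
  hC : 1 ≤ C
  smooth : ∀ p : ℝ, 0 < p → p < 1 → p ≠ 1/2 → ContDiffAt ℝ ∞ f p
  high : ∀ p : ℝ, 0 < p → p < 1 → p ≠ 1/2 → ∀ k : ℕ, 3 ≤ k →
    |iteratedDeriv k f p| ≤ C ^ k * k.factorial * |p - 1/2| ^ ((8:ℝ)/3 - k)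
  low0 : ∀ p : ℝ, 0 < p → p < 1 → p ≠ 1/2 →
    |f p - (a0 + a1 * (p - 1/2) + a2 * (p - 1/2) ^ 2)| ≤ C * |p - 1/2| ^ (8/3 : ℝ)
  low1 : ∀ p : ℝ, 0 < p → p < 1 → p ≠ 1/2 →
    |deriv f p - (a1 + 2 * a2 * (p - 1/2))| ≤ C * |p - 1/2| ^ (5/3 : ℝ)
  low2 : ∀ p : ℝ, 0 < p → p < 1 → p ≠ 1/2 →
    |iteratedDeriv 2 f p - 2 * a2| ≤ C * |p - 1/2| ^ (2/3 : ℝ)

section
variable {f : ℝ → ℝ} {C a0 a1 a2 : ℝ} (H : Hyp f C a0 a1 a2)

theorem co_high (H : Hyp f C a0 a1 a2) {p : ℝ} (h0 : 0 < p) (h1 : p < 1) (h2 : p ≠ 1/2) {k : ℕ}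
    (hk : 3 ≤ k) : |co f p k| ≤ |p - 1/2| ^ (8/3 : ℝ) * (C / |p - 1/2|) ^ k := by
  have hs : 0 < |p - 1/2| := abs_pos.2 (sub_ne_zero.2 h2)
  have hf : (0 : ℝ) < k ! := by exact_mod_cast Nat.factorial_pos k
  unfold co
  rw [abs_div, abs_of_pos hf, div_le_iff₀ hf]
  refine (H.high p h0 h1 h2 k hk).trans (le_of_eq ?_)
  rw [Real.rpow_sub_natCast hs.ne', div_pow]
  field_simp

theorem co_all (H : Hyp f C a0 a1 a2) {p : ℝ} (h0 : 0 < p) (h1 : p < 1) (h2 : p ≠ 1/2) :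
    ∃ B : ℝ, ∀ k, |co f p k| ≤ B * (C / |p - 1/2|) ^ k := by
  have hs : 0 < |p - 1/2| := abs_pos.2 (sub_ne_zero.2 h2)
  have hC : 0 < C := lt_of_lt_of_le one_pos H.hC
  have hL : 0 < C / |p - 1/2| := div_pos hC hs
  set L := C / |p - 1/2| with hLdef
  refine ⟨|p - 1/2| ^ (8/3 : ℝ) + ∑ k ∈ Finset.range 3, |co f p k| / L ^ k, fun k => ?_⟩
  have hsum : 0 ≤ ∑ k ∈ Finset.range 3, |co f p k| / L ^ k :=
    Finset.sum_nonneg fun k _ => by positivity
  rcases Nat.lt_or_ge k 3 with hk | hk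
  · have h3 : |co f p k| / L ^ k ≤ ∑ k ∈ Finset.range 3, |co f p k| / L ^ k :=
      Finset.single_le_sum (f := fun k => |co f p k| / L ^ k) (fun k _ => by positivity)
        (Finset.mem_range.2 hk)
    have h4 : |co f p k| = (|co f p k| / L ^ k) * L ^ k := by field_simp
    rw [h4]
    apply mul_le_mul_of_nonneg_right _ (by positivity)
    have : 0 ≤ |p - 1/2| ^ (8/3 : ℝ) := by positivity
    linarith
  · refine (co_high H h0 h1 h2 hk).trans ?_
    apply mul_le_mul_of_nonneg_right _ (by positivity)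
    linarith

/-- `G f p` is holomorphic near `p` -/
theorem G_hol (H : Hyp f C a0 a1 a2) {p : ℝ} (h0 : 0 < p) (h1 : p < 1) (h2 : p ≠ 1/2) :
    DifferentiableOn ℂ (G f p) (Metric.ball (p : ℂ) (|p - 1/2| / (4 * C))) := by
  have hs : 0 < |p - 1/2| := abs_pos.2 (sub_ne_zero.2 h2)
  have hC : 0 < C := lt_of_lt_of_le one_pos H.hC
  obtain ⟨B, hB⟩ := co_all H h0 h1 h2
  refine (G_diff (div_pos hC hs) hB).mono (Metric.ball_subset_ball ?_)
  generalize |p - 1/2| = s at hs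
  rw [div_le_div_iff₀ (by positivity) (by positivity)]
  field_simp
  norm_num

/-- `G f p` extends `f` -/
theorem G_real (H : Hyp f C a0 a1 a2) {p : ℝ} (h0 : 0 < p) (h1 : p < 1) (h2 : p ≠ 1/2) {x : ℝ}
    (hx0 : 0 < x) (hx1 : x < 1) (hx : |x - p| < |p - 1/2| / (4 * C)) : G f p x = f x := by
  have hs : 0 < |p - 1/2| := abs_pos.2 (sub_ne_zero.2 h2)
  have hC : 0 < C := lt_of_lt_of_le one_pos H.hC
  have hC1 := H.hC
  obtain ⟨B, hB⟩ := co_all H h0 h1 h2
  set s := |p - 1/2| with hsdef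
  have hx4 : |x - p| < s / 4 := by
    refine lt_of_lt_of_le hx ?_
    rw [div_le_div_iff₀ (by positivity) (by norm_num)]
    nlinarith
  -- the points between
  have hbet : ∀ y ∈ uIcc p x, 0 < y ∧ y < 1 ∧ s / 2 ≤ |y - 1/2| := by
    intro y hy
    have hy1 : |y - p| ≤ |x - p| := abs_sub_left_of_mem_uIcc hy
    have hy2 : s ≤ |y - 1/2| + |y - p| := by
      rw [hsdef]
      calc |p - 1/2| = |(y - 1/2) - (y - p)| := by ring_nf
        _ ≤ _ := abs_sub _ _
    refine ⟨?_, ?_, by linarith⟩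
    · exact lt_of_lt_of_le (lt_min h0 hx0) hy.1
    · exact lt_of_le_of_lt hy.2 (max_lt h1 hx1)
  have hne2 : ∀ y ∈ uIcc p x, y ≠ 1/2 := by
    intro y hy h
    have := (hbet y hy).2.2
    rw [h, sub_self, abs_zero] at this
    linarith
  -- summability
  have hsum : Summable fun k : ℕ => co f p k * (x - p) ^ k := by
    have h3 := G_sum (z := (x : ℂ)) (div_pos hC hs) hB (by
      rw [← Complex.ofReal_sub, Complex.norm_real, Real.norm_eq_abs]
      refine hx.le.trans ?_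
      rw [div_le_div_iff₀ (by positivity) (by positivity)]
      field_simp
      norm_num)
    rw [← Complex.summable_ofReal]
    refine h3.congr fun k => ?_
    push_cast
    rfl
  have hlim : Tendsto (fun n => ∑ k ∈ Finset.range (n + 1), co f p k * (x - p) ^ k) atTop
      (𝓝 (f x)) := by
    by_cases hpx : p = x
    · subst hpx
      have : ∀ n, ∑ k ∈ Finset.range (n + 1), co f p k * (p - p) ^ k = f p := by
        intro n
        rw [Finset.sum_range_succ']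
        simp [co]
      simp only [this]
      exact tendsto_const_nhds
    · have hbd : ∀ n : ℕ, 2 ≤ n → |∑ k ∈ Finset.range (n + 1), co f p k * (x - p) ^ k - f x| ≤
          (s / 2) ^ (8/3 : ℝ) * 0 + (2 : ℝ) ^ (8/3 : ℝ) * (1 / 2) ^ (n + 1) := by
        intro n hn
        obtain ⟨y, hy, h⟩ := tay hpx (fun y hy => H.smooth y (hbet y hy).1 (hbet y hy).2.1
          (hne2 y hy)) n
        have hyI : y ∈ uIcc p x := uIoo_subset_uIcc_self hy
        obtain ⟨hy0, hy1, hy2⟩ := hbet y hyI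
        rw [abs_sub_comm, h, abs_mul, abs_pow]
        have h3 := co_high H hy0 hy1 (hne2 y hyI) (k := n + 1) (by omega)
        have h4 : |y - 1/2| ≤ 1 := by
          rw [abs_le]; constructor <;> linarith
        have h5 : |y - 1/2| ^ (8/3 : ℝ) ≤ 1 := Real.rpow_le_one (abs_nonneg _) h4 (by norm_num)
        have h6 : (C / |y - 1/2|) * |x - p| ≤ 1 / 2 := by
          have h7 : 0 < |y - 1/2| := by linarith
          rw [div_mul_eq_mul_div, div_le_iff₀ h7]
          have h8 : |x - p| * (4 * C) < s := (lt_div_iff₀ (by positivity)).1 hx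
          nlinarith
        calc |co f y (n + 1)| * |x - p| ^ (n + 1)
            ≤ (|y - 1/2| ^ (8/3 : ℝ) * (C / |y - 1/2|) ^ (n + 1)) * |x - p| ^ (n + 1) :=
              mul_le_mul_of_nonneg_right h3 (by positivity)
          _ = |y - 1/2| ^ (8/3 : ℝ) * ((C / |y - 1/2|) * |x - p|) ^ (n + 1) := by
              rw [mul_assoc, mul_pow]
          _ ≤ 1 * (1 / 2) ^ (n + 1) := by
              apply mul_le_mul h5 (pow_le_pow_left₀ (by positivity) h6 _) (by positivity) one_pos.le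
          _ ≤ _ := by
              rw [mul_zero, zero_add]
              apply mul_le_mul_of_nonneg_right _ (by positivity)
              exact Real.one_le_rpow (by norm_num) (by norm_num)
      rw [tendsto_iff_norm_sub_tendsto_zero]
      refine squeeze_zero' (Eventually.of_forall fun n => norm_nonneg _)
        ((eventually_ge_atTop 2).mono hbd) ?_
      rw [mul_zero]
      simp only [zero_add]
      have h3 : Tendsto (fun n : ℕ => ((1 : ℝ) / 2) ^ (n + 1)) atTop (𝓝 0) :=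
        (tendsto_pow_atTop_nhds_zero_of_lt_one (by norm_num) (by norm_num)).comp
          (tendsto_add_atTop_nat 1)
      have h4 := h3.const_mul ((2 : ℝ) ^ (8/3 : ℝ))
      rwa [mul_zero] at h4
  have hval : ∑' k : ℕ, co f p k * (x - p) ^ k = f x := by
    have h3 := hsum.hasSum.tendsto_sum_nat
    have h4 := h3.comp (tendsto_add_atTop_nat 1)
    exact tendsto_nhds_unique h4 hlim
  unfold G
  rw [← hval, Complex.ofReal_tsum]
  refine tsum_congr fun k => ?_
  push_cast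
  rfl

/-- two series agree -/
theorem G_agree (H : Hyp f C a0 a1 a2) {p q : ℝ} (h0 : 0 < p) (h1 : p < 1) (h2 : p ≠ 1/2)
    (g0 : 0 < q) (g1 : q < 1) (g2 : q ≠ 1/2) (hpq : |p - q| < |q - 1/2| / (4 * C)) {z : ℂ}
    (hz : z ∈ Metric.ball (p : ℂ) (|p - 1/2| / (4 * C)))
    (hz' : z ∈ Metric.ball (q : ℂ) (|q - 1/2| / (4 * C))) : G f p z = G f q z := by
  have hs : 0 < |p - 1/2| := abs_pos.2 (sub_ne_zero.2 h2)
  have hC : 0 < C := lt_of_lt_of_le one_pos H.hC
  set U := Metric.ball (p : ℂ) (|p - 1/2| / (4 * C)) ∩ Metric.ball (q : ℂ) (|q - 1/2| / (4 * C))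
    with hU
  have hUo : IsOpen U := Metric.isOpen_ball.inter Metric.isOpen_ball
  have hUc : IsPreconnected U := ((convex_ball _ _).inter (convex_ball _ _)).isPreconnected
  have hpU : (p : ℂ) ∈ U := by
    refine ⟨Metric.mem_ball_self (by positivity), ?_⟩
    rw [Metric.mem_ball, dist_eq_norm, ← Complex.ofReal_sub, Complex.norm_real, Real.norm_eq_abs]
    exact hpq
  have hA : AnalyticOnNhd ℂ (G f p) U :=
    ((G_hol H h0 h1 h2).mono inter_subset_left).analyticOnNhd hUo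
  have hB : AnalyticOnNhd ℂ (G f q) U :=
    ((G_hol H g0 g1 g2).mono inter_subset_right).analyticOnNhd hUo
  refine hA.eqOn_of_preconnected_of_frequently_eq hB hUc hpU ?_ ⟨hz, hz'⟩
  -- frequently equal
  have ht : Tendsto (fun x : ℝ => (x : ℂ)) (𝓝[≠] p) (𝓝[≠] (p : ℂ)) := by
    apply tendsto_nhdsWithin_of_tendsto_nhds_of_eventually_within
    · exact (Complex.continuous_ofReal.tendsto p).mono_left nhdsWithin_le_nhds
    · filter_upwards [self_mem_nhdsWithin] with x hx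
      intro h
      exact hx (Complex.ofReal_injective h)
  refine ht.frequently ?_
  refine Eventually.frequently ?_
  have e0 : ∀ᶠ x : ℝ in 𝓝[≠] p, 0 < x := nhdsWithin_le_nhds (lt_mem_nhds h0)
  have e1 : ∀ᶠ x : ℝ in 𝓝[≠] p, x < 1 := nhdsWithin_le_nhds (gt_mem_nhds h1)
  have e2 : ∀ᶠ x : ℝ in 𝓝[≠] p, |x - p| < |p - 1/2| / (4 * C) := by
    apply nhdsWithin_le_nhds
    have hc : Continuous fun x : ℝ => |x - p| := by fun_prop
    apply (hc.tendsto p).eventually_lt_const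
    rw [sub_self, abs_zero]
    positivity
  have e3 : ∀ᶠ x : ℝ in 𝓝[≠] p, |x - q| < |q - 1/2| / (4 * C) := by
    apply nhdsWithin_le_nhds
    have hc : Continuous fun x : ℝ => |x - q| := by fun_prop
    exact (hc.tendsto p).eventually_lt_const hpq
  filter_upwards [e0, e1, e2, e3] with x x0 x1 x2 x3
  rw [G_real H h0 h1 h2 x0 x1 x2, G_real H g0 g1 g2 x0 x1 x3]

/-- the double sector -/
def sec (c : ℝ) : Set ℂ := {z | |z.im| < c * |z.re - 1/2| ∧ 0 < z.re ∧ z.re < 1}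

/-- the continuation -/
noncomputable def K (f : ℝ → ℝ) (z : ℂ) : ℂ := G f z.re z

theorem sec_ne {c : ℝ} {z : ℂ} (hz : z ∈ sec c) : z.re ≠ 1/2 := by
  intro h
  have h1 := hz.1
  rw [h, sub_self, abs_zero, mul_zero] at h1
  exact absurd h1 (not_lt.2 (abs_nonneg _))

theorem norm_sub_re (z : ℂ) : ‖z - (z.re : ℂ)‖ = |z.im| := by
  have : z - (z.re : ℂ) = (z.im : ℂ) * Complex.I := by
    apply Complex.ext <;> simp
  rw [this, norm_mul, Complex.norm_I, mul_one, Complex.norm_real, Real.norm_eq_abs]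

theorem K_diff (H : Hyp f C a0 a1 a2) : DifferentiableOn ℂ (K f) (sec (1 / (8 * C))) := by
  have hC : 0 < C := lt_of_lt_of_le one_pos H.hC
  intro w hw
  have hw2 := sec_ne hw
  obtain ⟨hw1, hw3, hw4⟩ := hw
  have hs : 0 < |w.re - 1/2| := abs_pos.2 (sub_ne_zero.2 hw2)
  have hlt : (1 / (8 * C)) * |w.re - 1/2| < |w.re - 1/2| / (4 * C) := by
    rw [div_mul_eq_mul_div, one_mul, div_lt_div_iff₀ (by positivity) (by positivity)]
    nlinarith
  have hwb : w ∈ Metric.ball (w.re : ℂ) (|w.re - 1/2| / (4 * C)) := by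
    rw [Metric.mem_ball, dist_eq_norm, norm_sub_re]
    exact hw1.trans hlt
  have hd : DifferentiableAt ℂ (G f w.re) w :=
    (G_hol H hw3 hw4 hw2).differentiableAt (Metric.isOpen_ball.mem_nhds hwb)
  refine DifferentiableAt.differentiableWithinAt (hd.congr_of_eventuallyEq ?_)
  have c1 : Continuous fun z : ℂ => |z.im| := by fun_prop
  have c2 : Continuous fun z : ℂ => (1 / (8 * C)) * |z.re - 1/2| := by fun_prop
  have c3 : Continuous fun z : ℂ => z.re := Complex.continuous_re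
  have e1 : ∀ᶠ z in 𝓝 w, |z.im| < (1 / (8 * C)) * |z.re - 1/2| :=
    (isOpen_lt c1 c2).mem_nhds hw1
  have e2 : ∀ᶠ z in 𝓝 w, 0 < z.re := (isOpen_lt continuous_const c3).mem_nhds hw3
  have e3 : ∀ᶠ z in 𝓝 w, z.re < 1 := (isOpen_lt c3 continuous_const).mem_nhds hw4
  have e4 : ∀ᶠ z in 𝓝 w, z ∈ Metric.ball (w.re : ℂ) (|w.re - 1/2| / (4 * C)) :=
    Metric.isOpen_ball.mem_nhds hwb
  have e5 : ∀ᶠ z : ℂ in 𝓝 w, |z.re - w.re| < |w.re - 1/2| / (4 * C) := by
    have hc : Continuous fun z : ℂ => |z.re - w.re| := by fun_prop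
    apply (hc.tendsto w).eventually_lt_const
    simp only [sub_self, abs_zero]
    positivity
  filter_upwards [e1, e2, e3, e4, e5] with z z1 z2 z3 z4 z5
  have hz : z ∈ sec (1 / (8 * C)) := ⟨z1, z2, z3⟩
  have hz2 := sec_ne hz
  have hsz : 0 < |z.re - 1/2| := abs_pos.2 (sub_ne_zero.2 hz2)
  refine G_agree H z2 z3 hz2 hw3 hw4 hw2 z5 ?_ z4
  rw [Metric.mem_ball, dist_eq_norm, norm_sub_re]
  refine z1.trans ?_
  rw [div_mul_eq_mul_div, one_mul, div_lt_div_iff₀ (by positivity) (by positivity)]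
  nlinarith

theorem K_real (H : Hyp f C a0 a1 a2) {p : ℝ} (h0 : 0 < p) (h1 : p < 1) (h2 : p ≠ 1/2) :
    K f p = f p := by
  have hs : 0 < |p - 1/2| := abs_pos.2 (sub_ne_zero.2 h2)
  have hC : 0 < C := lt_of_lt_of_le one_pos H.hC
  unfold K
  rw [Complex.ofReal_re]
  apply G_real H h0 h1 h2 h0 h1
  rw [sub_self, abs_zero]
  positivity

theorem K_bound (H : Hyp f C a0 a1 a2) {z : ℂ} (hz : z ∈ sec (1 / (8 * C))) :
    ‖K f z - (a0 + a1 * (z - 1/2) + a2 * (z - 1/2) ^ 2)‖ ≤ (3 * C + 2) * ‖z - 1/2‖ ^ (8/3 : ℝ) := by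
  have hC : 0 < C := lt_of_lt_of_le one_pos H.hC
  have hC1 := H.hC
  have hz2 := sec_ne hz
  obtain ⟨z1, z2, z3⟩ := hz
  set p := z.re with hp
  have hs : 0 < |p - 1/2| := abs_pos.2 (sub_ne_zero.2 hz2)
  set s := |p - 1/2| with hsdef
  set u : ℂ := z - p with hu
  have hun : ‖u‖ ≤ s / (8 * C) := by
    rw [hu, hp, norm_sub_re]
    refine z1.le.trans (le_of_eq ?_)
    ring
  have hun1 : ‖u‖ ≤ s := by
    refine hun.trans ?_
    rw [div_le_iff₀ (by positivity)]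
    nlinarith
  obtain ⟨B, hB⟩ := co_all H z2 z3 hz2
  have hsum : Summable fun k : ℕ => (co f p k : ℂ) * (z - p) ^ k := by
    apply G_sum (div_pos hC hs) hB
    rw [← hu]
    refine hun.trans ?_
    rw [div_le_div_iff₀ (by positivity) (by positivity)]
    field_simp
    norm_num
  have hsplit : K f z = (f p : ℂ) + ((deriv f p : ℝ) : ℂ) * u + ((iteratedDeriv 2 f p / 2 : ℝ) : ℂ) * u ^ 2 +
      ∑' k : ℕ, (co f p (k + 3) : ℂ) * u ^ (k + 3) := by
    unfold K G
    rw [← hp, ← hsum.sum_add_tsum_nat_add 3]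
    congr 1
    rw [Finset.sum_range_succ, Finset.sum_range_succ, Finset.sum_range_one]
    simp only [co, iteratedDeriv_zero, iteratedDeriv_one, Nat.factorial, ← hu]
    push_cast
    ring
  have htail : ‖∑' k : ℕ, (co f p (k + 3) : ℂ) * u ^ (k + 3)‖ ≤ s ^ (8/3 : ℝ) * 2 := by
    refine tsum_of_norm_bounded (g := fun k : ℕ => s ^ (8/3 : ℝ) * (1 / 2) ^ k)
      (hasSum_geometric_two.mul_left _) (fun k => ?_)
    rw [norm_mul, norm_pow, Complex.norm_real, Real.norm_eq_abs]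
    have h3 := co_high H z2 z3 hz2 (k := k + 3) (by omega)
    have h4 : (C / s) * ‖u‖ ≤ 1 / 2 := by
      rw [div_mul_eq_mul_div, div_le_iff₀ hs]
      have h5 : ‖u‖ * (8 * C) ≤ s := (le_div_iff₀ (by positivity)).1 hun
      nlinarith
    calc |co f p (k + 3)| * ‖u‖ ^ (k + 3) ≤ (s ^ (8/3 : ℝ) * (C / s) ^ (k + 3)) * ‖u‖ ^ (k + 3) :=
          mul_le_mul_of_nonneg_right h3 (by positivity)
      _ = s ^ (8/3 : ℝ) * ((C / s) * ‖u‖) ^ (k + 3) := by rw [mul_assoc, mul_pow]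
      _ ≤ s ^ (8/3 : ℝ) * (1 / 2) ^ (k + 3) := by
          apply mul_le_mul_of_nonneg_left _ (by positivity)
          exact pow_le_pow_left₀ (by positivity) h4 _
      _ ≤ s ^ (8/3 : ℝ) * (1 / 2) ^ k := by
          apply mul_le_mul_of_nonneg_left _ (by positivity)
          exact pow_le_pow_of_le_one (by norm_num) (by norm_num) (by omega)
  have hid : K f z - (a0 + a1 * (z - 1/2) + a2 * (z - 1/2) ^ 2) =
      ((f p - (a0 + a1 * (p - 1/2) + a2 * (p - 1/2) ^ 2) : ℝ) : ℂ) +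
      ((deriv f p - (a1 + 2 * a2 * (p - 1/2)) : ℝ) : ℂ) * u +
      (((iteratedDeriv 2 f p - 2 * a2) / 2 : ℝ) : ℂ) * u ^ 2 +
      ∑' k : ℕ, (co f p (k + 3) : ℂ) * u ^ (k + 3) := by
    rw [hsplit]
    have hzu : z = p + u := by rw [hu]; ring
    rw [hzu]
    push_cast
    ring
  have hb0 := H.low0 p z2 z3 hz2
  have hb1 := H.low1 p z2 z3 hz2
  have hb2 := H.low2 p z2 z3 hz2
  rw [← hsdef] at hb0 hb1 hb2
  have hr1 : s ^ (5/3 : ℝ) * s = s ^ (8/3 : ℝ) := by
    rw [← Real.rpow_add_one hs.ne']; norm_num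
  have hr2 : s ^ (2/3 : ℝ) * s ^ 2 = s ^ (8/3 : ℝ) := by
    rw [← Real.rpow_natCast s 2, ← Real.rpow_add hs]; norm_num
  rw [hid]
  refine (norm_add_le _ _).trans ?_
  refine (add_le_add_left ((norm_add_le _ _).trans (add_le_add_left (norm_add_le _ _) _)) _).trans ?_
  have t0 : ‖((f p - (a0 + a1 * (p - 1/2) + a2 * (p - 1/2) ^ 2) : ℝ) : ℂ)‖ ≤ C * s ^ (8/3 : ℝ) := by
    rw [Complex.norm_real, Real.norm_eq_abs]; exact hb0
  have t1 : ‖((deriv f p - (a1 + 2 * a2 * (p - 1/2)) : ℝ) : ℂ) * u‖ ≤ C * s ^ (8/3 : ℝ) := by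
    rw [norm_mul, Complex.norm_real, Real.norm_eq_abs]
    calc _ ≤ (C * s ^ (5/3 : ℝ)) * s := mul_le_mul hb1 hun1 (norm_nonneg _) (by positivity)
      _ = C * s ^ (8/3 : ℝ) := by rw [mul_assoc, hr1]
  have t2 : ‖(((iteratedDeriv 2 f p - 2 * a2) / 2 : ℝ) : ℂ) * u ^ 2‖ ≤ C * s ^ (8/3 : ℝ) := by
    rw [norm_mul, norm_pow, Complex.norm_real, Real.norm_eq_abs, abs_div, abs_of_pos (by norm_num : (0:ℝ) < 2)]
    have h3 : |iteratedDeriv 2 f p - 2 * a2| / 2 ≤ C * s ^ (2/3 : ℝ) := by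
      have : 0 ≤ C * s ^ (2/3 : ℝ) := by positivity
      linarith
    calc _ ≤ (C * s ^ (2/3 : ℝ)) * s ^ 2 :=
          mul_le_mul h3 (pow_le_pow_left₀ (norm_nonneg _) hun1 2) (by positivity) (by positivity)
      _ = C * s ^ (8/3 : ℝ) := by rw [mul_assoc, hr2]
  have hsz : s ≤ ‖z - 1/2‖ := by
    have h3 := Complex.abs_re_le_norm (z - 1/2)
    have h4 : (z - 1/2).re = p - 1/2 := by
      rw [Complex.sub_re, ← hp]
      norm_num
    rw [h4] at h3
    exact h3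
  have hfin : s ^ (8/3 : ℝ) ≤ ‖z - 1/2‖ ^ (8/3 : ℝ) :=
    Real.rpow_le_rpow hs.le hsz (by norm_num)
  have h9 : (3 * C + 2) * s ^ (8/3 : ℝ) ≤ (3 * C + 2) * ‖z - 1/2‖ ^ (8/3 : ℝ) :=
    mul_le_mul_of_nonneg_left hfin (by positivity)
  refine le_trans ?_ h9
  linarith

/-- the theorem -/
theorem main (H : Hyp f C a0 a1 a2) : ∃ (c C' : ℝ) (K : ℂ → ℂ), 0 < c ∧ 0 < C' ∧
    DifferentiableOn ℂ K (sec c) ∧
    (∀ p : ℝ, 0 < p → p < 1 → p ≠ 1/2 → K (p : ℂ) = (f p : ℂ)) ∧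
    ∀ z ∈ sec c, ‖K z - (a0 + a1 * (z - 1/2) + a2 * (z - 1/2) ^ 2)‖ ≤
      C' * ‖z - 1/2‖ ^ (8/3 : ℝ) := by
  have hC : 0 < C := lt_of_lt_of_le one_pos H.hC
  exact ⟨1 / (8 * C), 3 * C + 2, K f, by positivity, by positivity, K_diff H,
    fun p h0 h1 h2 => K_real H h0 h1 h2, fun z hz => K_bound H hz⟩

end

end Pool.Agent.NH39.W.SecA
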