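import Pool.Agent.NH39.W.Stm
import Pool.Agent.NH39.W.SecA

/-!
Project W, part SEC: analytic continuation to a double sector.
-/

set_option autoImplicit false

namespace Pool.Agent.NH39.W

/-- **SEC.** -/
theorem sec : S_SEC := by
  intro f C a0 a1 a2 hC h
  have H : SecA.Hyp f C a0 a1 a2 :=
    { hC := hC
      smooth := fun p h0 h1 h2 => (h p h0 h1 h2).1
      high := fun p h0 h1 h2 => (h p h0 h1 h2).2.1
      low0 := fun p h0 h1 h2 => (h p h0 h1 h2).2.2.1
      low1 := fun p h0 h1 h2 => (h p h0 h1 h2).2.2.2.1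
      low2 := fun p h0 h1 h2 => (h p h0 h1 h2).2.2.2.2 }
  exact SecA.main H

end Pool.Agent.NH39.W
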