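import Pool.Agent.NH39.V5

/-!
Project W (helper39, MP_5f99b0_pr): all derivatives of the mean number of clusters of the torus
and of the density of clusters. Statements of the parts.
-/

set_option autoImplicit false

namespace Pool.Agent.NH39.W

open H974 Finset Filter Topology Pool.Agent.NH39 Pool.Agent.NH39.GC
open scoped ContDiff

/-! ### mixed differences -/

/-- The mixed difference of `φ` in the elements of `G`. -/
noncomputable def Dl {E : Type} [DecidableEq E] (φ : Finset E → ℝ) (G F : Finset E) : ℝ :=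
  ∑ T ∈ G.powerset, (-1) ^ (G \ T).card * φ ((F \ G) ∪ T)

/-- TAY: the Taylor expansion of an expectation. -/
def S_TAY : Prop := ∀ (E : Type) [DecidableEq E] (S : Finset E) (φ : Finset E → ℝ) (p w : ℝ),
  Ex (fun _ => p + w) S φ = ∑ G ∈ S.powerset, w ^ G.card * Ex (fun _ => p) S (Dl φ G)

/-- DER: the derivatives of all orders of an expectation. -/
def S_DER : Prop := ∀ (E : Type) [DecidableEq E] (S : Finset E) (φ : Finset E → ℝ) (p : ℝ) (k : ℕ),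
  iteratedDeriv k (fun p => Ex (fun _ => p) S φ) p =
    k.factorial * ∑ G ∈ S.powersetCard k, Ex (fun _ => p) S (Dl φ G)

/-- The number of clusters of the torus. -/
noncomputable def tcl (n : ℕ) (F : Finset (TE n)) : ℝ := (gcc tsrc ttgt (↑F : Set (TE n)) : ℝ)

/-- All the elements of `G` matter together for the number of clusters. -/
def Dv (n : ℕ) (G F : Finset (TE n)) : Prop := Dl (tcl n) G F ≠ 0

/-- BND: the size of the mixed differences, and the derivatives of the mean number of clusters. -/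
def S_BND : Prop := ∀ (n : ℕ) [NeZero n] (p : ℝ) (k : ℕ), 0 ≤ p → p ≤ 1 → 1 ≤ k →
  |iteratedDeriv k (tmean n) p| ≤ k.factorial * 2 ^ k *
    ∑ G ∈ (Finset.univ : Finset (TE n)).powersetCard k,
      Pr (fun _ => p) (Finset.univ : Finset (TE n)) (Dv n G)

/-! ### sets of edges in a finite metric space -/

/-- The diameter. -/
def dm {E : Type} (ds : E → E → ℕ) (S : Finset E) : ℕ := S.sup (fun a => S.sup (fun b => ds a b))

/-- `S` is `t`-connected. -/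
def conn {E : Type} [DecidableEq E] (ds : E → E → ℕ) (t : ℕ) (S : Finset E) : Prop :=
  ∀ A ⊆ S, A.Nonempty → (S \ A).Nonempty → ∃ a ∈ A, ∃ b ∈ S \ A, ds a b ≤ t

/-- The bound at distance `s`. -/
def psi (w : ℕ → ℝ) (N s : ℕ) : ℝ := w (max 1 (min s N))

/-- KEY: the bound for the probability that all the elements of `S` matter together, from the bound
for one annulus. -/
def S_KEY : Prop := ∀ C W : ℝ, 1 ≤ C → 1 ≤ W → ∃ a : ℝ, 1 ≤ a ∧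
  ∀ (E : Type) [DecidableEq E] [Fintype E] (ds : E → E → ℕ) (N : ℕ) (q : ℝ) (w : ℕ → ℝ)
    (Ds : Finset E → Finset E → Prop),
    (∀ a, ds a a = 0) → (∀ a b, ds a b = ds b a) → (∀ a b c, ds a c ≤ ds a b + ds b c) →
    1 ≤ N → 0 ≤ q → q ≤ 1 →
    -- the function `w`
    w 1 = 1 → (∀ r, 1 ≤ r → 0 < w r) → (∀ r s, 1 ≤ r → r ≤ s → w s ≤ w r) →
    (∀ r s, 1 ≤ r → r ≤ s → s ≤ 8 * r → w r ≤ W * w s) →
    -- the bound for one annulus: `x ∈ S`, no element of `S` in the annulus, one outside of it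
    (∀ (x : E) (r D : ℕ), 1 ≤ r → r ≤ D → D ≤ N → ∃ Ch : Finset E → Prop,
      (∀ F F' : Finset E, (∀ e, r ≤ ds e x → ds e x ≤ D → (e ∈ F ↔ e ∈ F')) → (Ch F ↔ Ch F')) ∧
      (∀ S F : Finset E, x ∈ S → (∀ y ∈ S, ds y x < r ∨ D < ds y x) → (∃ y ∈ S, D < ds y x) →
        Ds S F → Ch F) ∧
      Pr (fun _ => q) Finset.univ Ch ≤ C * (w D / w r)) →
    ∀ (S : Finset E) (x : E), x ∈ S → conn ds (N + 1) S →
      ∃ (par : E → E) (rk : E → ℕ), (∀ y ∈ S, y ≠ x → par y ∈ S ∧ rk (par y) < rk y) ∧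
        Pr (fun _ => q) Finset.univ (Ds S) ≤
          a ^ (4 * S.card) * (∏ y ∈ S.erase x, psi w N (ds y (par y))) * psi w N (dm ds S)

/-! ### the torus -/

/-- Length of an element of `ℤ/n`. -/
def zd {n : ℕ} (a : ZMod n) : ℕ := a.valMinAbs.natAbs

/-- Distance of two edges of the torus. -/
def tds {n : ℕ} (e f : TE n) : ℕ := max (zd (e.1 - f.1)) (zd (e.2.1 - f.2.1))

/-- The weight: `s ^ (-5/4) / (1 + lam s)` up to a constant, `lam = |q - 1/2| ^ (4/3)`. -/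
noncomputable def wt (q : ℝ) (s : ℕ) : ℝ :=
  (s:ℝ) ^ (-(5/4) : ℝ) * ((1 + |q - 1/2| ^ (4/3 : ℝ)) / (1 + |q - 1/2| ^ (4/3 : ℝ) * s))

/-- ANN: the bound for one annulus of the torus. -/
def S_ANN : Prop := ∃ C : ℝ, 1 ≤ C ∧ ∀ (n : ℕ) [NeZero n] (N : ℕ) (q : ℝ), 2 * N + 1 ≤ n →
  0 ≤ q → q ≤ 1 → ∀ (x : TE n) (r D : ℕ), 1 ≤ r → r ≤ D → D ≤ N →
    ∃ Ch : Finset (TE n) → Prop,
      (∀ F F' : Finset (TE n), (∀ e, r ≤ tds e x → tds e x ≤ D → (e ∈ F ↔ e ∈ F')) →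
        (Ch F ↔ Ch F')) ∧
      (∀ S F : Finset (TE n), x ∈ S → (∀ y ∈ S, tds y x < r ∨ D < tds y x) →
        (∃ y ∈ S, D < tds y x) → Dv n S F → Ch F) ∧
      Pr (fun _ => q) Finset.univ Ch ≤ C * (wt q D / wt q r)

/-- The scale in the parameter. -/
noncomputable def xs (n : ℕ) (p : ℝ) : ℝ := max ((n:ℝ) ^ (-(3/4) : ℝ)) |p - 1/2|

/-- SUM: the sum over all sets of `k` edges. -/
def S_SUM : Prop := ∃ C : ℝ, 1 ≤ C ∧ ∀ (n : ℕ) [NeZero n], 3 ≤ n → ∀ p : ℝ, 0 ≤ p → p ≤ 1 →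
  (∑ G ∈ (Finset.univ : Finset (TE n)).powersetCard 2,
      Pr (fun _ => p) (Finset.univ : Finset (TE n)) (Dv n G) ≤ C * (n:ℝ) ^ 2) ∧
  ∀ k : ℕ, 3 ≤ k → ∑ G ∈ (Finset.univ : Finset (TE n)).powersetCard k,
      Pr (fun _ => p) (Finset.univ : Finset (TE n)) (Dv n G) ≤
        C ^ k * ((n:ℝ) ^ 2 * xs n p ^ ((8:ℝ)/3 - k))

/-- UK: the derivatives of the mean number of clusters. -/
def S_UK : Prop := ∃ C : ℝ, 1 ≤ C ∧ ∀ (n : ℕ) [NeZero n], 3 ≤ n → ∀ p : ℝ, 0 ≤ p → p ≤ 1 →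
  |iteratedDeriv 2 (tmean n) p| ≤ C * (n:ℝ) ^ 2 ∧
  ∀ k : ℕ, 3 ≤ k → |iteratedDeriv k (tmean n) p| ≤
    C ^ k * k.factorial * ((n:ℝ) ^ 2 * xs n p ^ ((8:ℝ)/3 - k))

/-- LOW: the lower bound for the maximum of the derivatives. -/
def S_LOW : Prop := ∀ k : ℕ, 3 ≤ k → ∃ (c : ℝ) (n0 : ℕ), 0 < c ∧ ∀ (n : ℕ) [NeZero n], n0 ≤ n →
  ∃ p : ℝ, 0 ≤ p ∧ p ≤ 1 ∧ c * (n:ℝ) ^ ((3:ℝ)/4 * k) ≤ |iteratedDeriv k (tmean n) p|

/-! ### analysis -/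

/-- LIM: limits of functions with uniformly bounded derivatives on an open interval. -/
def S_LIM : Prop := ∀ (f : ℕ → ℝ → ℝ) (g : ℝ → ℝ) (a b : ℝ) (M : ℕ → ℝ), a < b →
  (∀ m, ContDiff ℝ ∞ (f m)) → (∀ x ∈ Set.Ioo a b, Tendsto (fun m => f m x) atTop (𝓝 (g x))) →
  (∀ k, 2 ≤ k → ∀ m, ∀ x ∈ Set.Ioo a b, |iteratedDeriv k (f m) x| ≤ M k) →
  ContDiffOn ℝ ∞ g (Set.Ioo a b) ∧
    ∀ k, ∀ x ∈ Set.Ioo a b, Tendsto (fun m => iteratedDeriv k (f m) x) atTop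
      (𝓝 (iteratedDeriv k g x))

/-- KAP: the derivatives of the density. -/
def S_KAP : Prop := ∃ C : ℝ, 1 ≤ C ∧ ∀ p : ℝ, 0 < p → p < 1 → p ≠ 1/2 →
  ContDiffAt ℝ ∞ kap p ∧ ∀ k : ℕ, 3 ≤ k →
    |iteratedDeriv k kap p| ≤ C ^ k * k.factorial * |p - 1/2| ^ ((8:ℝ)/3 - k)

/-- The double sector. -/
def sector (c : ℝ) : Set ℂ := {z | |z.im| < c * |z.re - 1/2| ∧ 0 < z.re ∧ z.re < 1}

/-- SEC: analytic continuation to a double sector. -/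
def S_SEC : Prop := ∀ (f : ℝ → ℝ) (C a0 a1 a2 : ℝ), 1 ≤ C →
  (∀ p : ℝ, 0 < p → p < 1 → p ≠ 1/2 → ContDiffAt ℝ ∞ f p ∧
    (∀ k : ℕ, 3 ≤ k → |iteratedDeriv k f p| ≤ C ^ k * k.factorial * |p - 1/2| ^ ((8:ℝ)/3 - k)) ∧
    |f p - (a0 + a1 * (p - 1/2) + a2 * (p - 1/2) ^ 2)| ≤ C * |p - 1/2| ^ (8/3 : ℝ) ∧
    |deriv f p - (a1 + 2 * a2 * (p - 1/2))| ≤ C * |p - 1/2| ^ (5/3 : ℝ) ∧
    |iteratedDeriv 2 f p - 2 * a2| ≤ C * |p - 1/2| ^ (2/3 : ℝ)) →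
  ∃ (c C' : ℝ) (K : ℂ → ℂ), 0 < c ∧ 0 < C' ∧ DifferentiableOn ℂ K (sector c) ∧
    (∀ p : ℝ, 0 < p → p < 1 → p ≠ 1/2 → K (p : ℂ) = (f p : ℂ)) ∧
    ∀ z ∈ sector c, ‖K z - (a0 + a1 * (z - 1/2) + a2 * (z - 1/2) ^ 2)‖ ≤
      C' * ‖z - 1/2‖ ^ (8/3 : ℝ)

end Pool.Agent.NH39.W
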