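import Pool.Agent.NH39.W.Ann2
import Pool.Agent.Y21.NE.Tree

/-! Project W: sums of the kernel over the torus. -/

set_option autoImplicit false

namespace Pool.Agent.NH39.W

open H974 H12S H389NS Finset Pool.Agent.NH39 Pool.Agent.NH39.GC

/-! ### properties of the weight -/

theorem lam_nonneg (q : ℝ) : 0 ≤ |q - 1/2| ^ (4/3 : ℝ) := by positivity

theorem lam_le_one {q : ℝ} (q0 : 0 ≤ q) (q1 : q ≤ 1) : |q - 1/2| ^ (4/3 : ℝ) ≤ 1 :=
  Real.rpow_le_one (abs_nonneg _) (by rw [abs_le]; constructor <;> linarith) (by norm_num)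

theorem wt_one (q : ℝ) : wt q 1 = 1 := by
  have := lam_nonneg q
  unfold wt
  rw [Nat.cast_one, Real.one_rpow, mul_one, div_self (by positivity), one_mul]

theorem wt_pos (q : ℝ) {r : ℕ} (hr : 1 ≤ r) : 0 < wt q r := by
  have := lam_nonneg q
  have hr0 : (0:ℝ) < r := by exact_mod_cast hr
  unfold wt
  positivity

theorem wt_anti (q : ℝ) {r s : ℕ} (hr : 1 ≤ r) (hs : r ≤ s) : wt q s ≤ wt q r := by
  have hl := lam_nonneg q
  have hr0 : (0:ℝ) < r := by exact_mod_cast hr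
  have hrs : (r:ℝ) ≤ s := by exact_mod_cast hs
  unfold wt
  apply mul_le_mul
  · exact Real.rpow_le_rpow_of_nonpos hr0 hrs (by norm_num)
  · apply div_le_div_of_nonneg_left (by positivity) (by positivity)
    have := mul_le_mul_of_nonneg_left hrs hl
    linarith
  · positivity
  · positivity

theorem wt_doub (q : ℝ) {r s : ℕ} (hr : 1 ≤ r) (hs : r ≤ s) (h8 : s ≤ 8 * r) :
    wt q r ≤ ((8:ℝ) ^ (5/4 : ℝ) * 8) * wt q s := by
  have hl := lam_nonneg q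
  obtain ⟨l, hl'⟩ : ∃ l : ℝ, l = |q - 1/2| ^ (4/3 : ℝ) := ⟨_, rfl⟩
  rw [← hl'] at hl
  have hr0 : (0:ℝ) < r := by exact_mod_cast hr
  have hs0 : (0:ℝ) < s := by exact_mod_cast (by omega : 0 < s)
  have hrs : (s:ℝ) ≤ 8 * r := by exact_mod_cast h8
  unfold wt
  rw [← hl']
  have e1 : (r:ℝ) ^ (-(5/4) : ℝ) ≤ (8:ℝ) ^ (5/4 : ℝ) * (s:ℝ) ^ (-(5/4) : ℝ) := by
    have h1 : ((s:ℝ) / 8) ^ (5/4 : ℝ) ≤ (r:ℝ) ^ (5/4 : ℝ) :=
      Real.rpow_le_rpow (by positivity) (by linarith) (by norm_num)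
    rw [Real.div_rpow hs0.le (by norm_num), div_le_iff₀ (by positivity)] at h1
    rw [Real.rpow_neg hr0.le, Real.rpow_neg hs0.le, ← div_eq_mul_inv, inv_eq_one_div,
      div_le_div_iff₀ (by positivity) (by positivity)]
    linarith
  have e2 : (1 + l) / (1 + l * r) ≤ 8 * ((1 + l) / (1 + l * s)) := by
    rw [← mul_div_assoc, div_le_div_iff₀ (by positivity) (by positivity)]
    have h1 : 1 + l * s ≤ 8 * (1 + l * r) := by
      have := mul_le_mul_of_nonneg_left hrs hl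
      nlinarith
    have h2 : 0 ≤ 1 + l := by positivity
    nlinarith
  calc (r:ℝ) ^ (-(5/4) : ℝ) * ((1 + l) / (1 + l * r)) ≤
        ((8:ℝ) ^ (5/4 : ℝ) * (s:ℝ) ^ (-(5/4) : ℝ)) * (8 * ((1 + l) / (1 + l * s))) :=
        mul_le_mul e1 e2 (by positivity) (by positivity)
    _ = _ := by ring

/-- The constant of the doubling property. -/
noncomputable def WW : ℝ := (8:ℝ) ^ (5/4 : ℝ) * 8

theorem WW_one : 1 ≤ WW := by
  unfold WW
  have : (1:ℝ) ≤ (8:ℝ) ^ (5/4 : ℝ) := Real.one_le_rpow (by norm_num) (by norm_num)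
  linarith

theorem psi_nn (q : ℝ) (N s : ℕ) : 0 ≤ psi (wt q) N s := by
  unfold psi
  exact (wt_pos q (le_max_left _ _)).le

theorem psi_anti' (q : ℝ) (N : ℕ) {s t : ℕ} (h : s ≤ t) : psi (wt q) N t ≤ psi (wt q) N s := by
  unfold psi
  exact wt_anti q (le_max_left _ _) (max_le_max le_rfl (min_le_min_right _ h))

/-- Comparison with a power. -/
theorem psi_le {q : ℝ} (q0 : 0 ≤ q) (q1 : q ≤ 1) {N s t : ℕ} (ht : max 1 (min s N) ≤ t)
    (h8 : t ≤ 8 * max 1 (min s N)) : psi (wt q) N s ≤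
      2 * WW * ((t:ℝ) ^ (-(5/4) : ℝ) / (1 + |q - 1/2| ^ (4/3 : ℝ) * t)) := by
  have hl := lam_nonneg q
  have hl1 := lam_le_one q0 q1
  unfold psi
  refine (wt_doub q (le_max_left _ _) ht h8).trans ?_
  have ht0 : (0:ℝ) < t := by exact_mod_cast (le_trans (le_max_left _ _) ht : 1 ≤ t)
  have e1 : wt q t ≤ 2 * ((t:ℝ) ^ (-(5/4) : ℝ) / (1 + |q - 1/2| ^ (4/3 : ℝ) * t)) := by
    unfold wt
    rw [← mul_div_assoc, ← mul_div_assoc]
    apply div_le_div_of_nonneg_right _ (by positivity)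
    have : (0:ℝ) < (t:ℝ) ^ (-(5/4) : ℝ) := by positivity
    nlinarith
  calc ((8:ℝ) ^ (5/4 : ℝ) * 8) * wt q t ≤ ((8:ℝ) ^ (5/4 : ℝ) * 8) *
      (2 * ((t:ℝ) ^ (-(5/4) : ℝ) / (1 + |q - 1/2| ^ (4/3 : ℝ) * t))) :=
        mul_le_mul_of_nonneg_left e1 (by positivity)
    _ = _ := by unfold WW; ring

/-! ### one-dimensional sums -/

theorem tel54 {k : ℕ} (hk : 1 ≤ k) : ((k:ℝ) + 1) ^ (-(5/4) : ℝ) ≤
    4 * ((k:ℝ) ^ (-(1/4) : ℝ) - ((k:ℝ) + 1) ^ (-(1/4) : ℝ)) := by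
  have hk0 : (0:ℝ) < k := by exact_mod_cast hk
  have hk1 : (0:ℝ) < (k:ℝ) + 1 := by linarith
  have hk1' : (1:ℝ) ≤ k := by exact_mod_cast hk
  obtain ⟨y, hy⟩ : ∃ y : ℝ, y = 1 / (4 * ((k:ℝ) + 1)) := ⟨_, rfl⟩
  have hy0 : 0 < y := by rw [hy]; positivity
  have hy1 : y < 1 := by
    rw [hy, div_lt_one (by positivity)]; linarith
  have h1 : (1 + -(1 / ((k:ℝ) + 1))) ^ (1/4 : ℝ) ≤ 1 + 1/4 * -(1 / ((k:ℝ) + 1)) :=
    rpow_one_add_le_one_add_mul_self (by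
      rw [neg_le_neg_iff, div_le_one hk1]; linarith) (by norm_num) (by norm_num)
  have e1 : 1 + -(1 / ((k:ℝ) + 1)) = (k:ℝ) / ((k:ℝ) + 1) := by field_simp; ring
  have e2 : 1 + 1/4 * -(1 / ((k:ℝ) + 1)) = 1 - y := by rw [hy]; field_simp; ring
  rw [e1, e2, Real.div_rpow hk0.le hk1.le, div_le_iff₀ (by positivity)] at h1
  -- `k^(1/4) ≤ (1-y) (k+1)^(1/4)`
  have a1 : 0 < (k:ℝ) ^ (1/4 : ℝ) := by positivity
  have a2 : 0 < ((k:ℝ) + 1) ^ (1/4 : ℝ) := by positivity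
  have h2 : (1 + y) * (((k:ℝ) + 1) ^ (1/4 : ℝ))⁻¹ ≤ ((k:ℝ) ^ (1/4 : ℝ))⁻¹ := by
    rw [← div_eq_mul_inv, inv_eq_one_div, div_le_div_iff₀ a2 a1]
    have h3 : (1 + y) * ((k:ℝ) ^ (1/4 : ℝ)) ≤ (1 + y) * ((1 - y) * ((k:ℝ) + 1) ^ (1/4 : ℝ)) :=
      mul_le_mul_of_nonneg_left h1 (by linarith)
    have h4 : (1 + y) * ((1 - y) * ((k:ℝ) + 1) ^ (1/4 : ℝ)) ≤ 1 * ((k:ℝ) + 1) ^ (1/4 : ℝ) := by
      have : (1 + y) * ((1 - y) * ((k:ℝ) + 1) ^ (1/4 : ℝ)) =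
        (1 - y ^ 2) * ((k:ℝ) + 1) ^ (1/4 : ℝ) := by ring
      rw [this]
      apply mul_le_mul_of_nonneg_right _ a2.le
      nlinarith
    linarith
  have e3 : ((k:ℝ) + 1) ^ (-(5/4) : ℝ) = 4 * (y * (((k:ℝ) + 1) ^ (1/4 : ℝ))⁻¹) := by
    rw [show (-(5/4) : ℝ) = -1 + -(1/4) by norm_num, Real.rpow_add hk1, Real.rpow_neg_one,
      Real.rpow_neg hk1.le, hy]
    field_simp
  rw [e3, Real.rpow_neg hk0.le, Real.rpow_neg hk1.le]
  nlinarith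

theorem tail54 {T : ℕ} (hT : 1 ≤ T) (m : ℕ) :
    ∑ k ∈ range m, (if T ≤ k then ((k:ℝ) + 1) ^ (-(5/4) : ℝ) else 0) ≤
      4 * (T:ℝ) ^ (-(1/4) : ℝ) := by
  have key : ∀ m : ℕ, ∑ k ∈ range m, (if T ≤ k then ((k:ℝ) + 1) ^ (-(5/4) : ℝ) else 0) ≤
      if T ≤ m then 4 * ((T:ℝ) ^ (-(1/4) : ℝ) - (m:ℝ) ^ (-(1/4) : ℝ)) else 0 := by
    intro m
    induction m with
    | zero => rw [if_neg (by omega)]; simp
    | succ m ih =>
      rw [Finset.sum_range_succ]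
      by_cases h : T ≤ m
      · rw [if_pos h] at ih ⊢
        rw [if_pos (by omega)]
        have := tel54 (hT.trans h)
        push_cast
        linarith
      · rw [if_neg h] at ih ⊢
        rw [add_zero]
        refine ih.trans ?_
        split_ifs with h2
        · have : T = m + 1 := by omega
          rw [this]; simp
        · exact le_rfl
  refine (key m).trans ?_
  split_ifs
  · have : (0:ℝ) ≤ (m:ℝ) ^ (-(1/4) : ℝ) := by positivity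
    linarith
  · positivity

/-- The one-dimensional sum. -/
theorem sum1d {l : ℝ} (hl : 0 ≤ l) (hl1 : l ≤ 1) (m : ℕ) :
    ∑ k ∈ range m, ((k:ℝ) + 1) ^ (-(1/4) : ℝ) / (1 + l * ((k:ℝ) + 1)) ≤ 2 * (m:ℝ) ^ (3/4 : ℝ) ∧
    (0 < l → ∑ k ∈ range m, ((k:ℝ) + 1) ^ (-(1/4) : ℝ) / (1 + l * ((k:ℝ) + 1)) ≤
      10 * (l ^ (3/4 : ℝ))⁻¹) := by
  have h1 : ∀ m : ℕ, ∑ k ∈ range m, ((k:ℝ) + 1) ^ (-(1/4) : ℝ) ≤ 2 * (m:ℝ) ^ (3/4 : ℝ) := by
    intro m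
    have h := sum_rpow_le (t := 3/4) (by norm_num) (by norm_num) m
    rw [show (3/4 - 1 : ℝ) = (-(1/4) : ℝ) by norm_num] at h
    refine h.trans ?_
    have : (0:ℝ) ≤ (m:ℝ) ^ (3/4 : ℝ) := by positivity
    rw [div_le_iff₀ (by norm_num)]
    linarith
  have hle : ∀ k : ℕ, ((k:ℝ) + 1) ^ (-(1/4) : ℝ) / (1 + l * ((k:ℝ) + 1)) ≤
      ((k:ℝ) + 1) ^ (-(1/4) : ℝ) := by
    intro k
    apply div_le_self (by positivity)
    have : 0 ≤ l * ((k:ℝ) + 1) := by positivity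
    linarith
  refine ⟨(Finset.sum_le_sum (fun k _ => hle k)).trans (h1 m), ?_⟩
  intro hl0
  obtain ⟨T, hT⟩ : ∃ T : ℕ, T = ⌈1 / l⌉₊ := ⟨_, rfl⟩
  have h1l : 1 ≤ 1 / l := by rw [le_div_iff₀ hl0]; linarith
  have t1 : 1 / l ≤ T := by rw [hT]; exact Nat.le_ceil _
  have t2 : (T:ℝ) < 1 / l + 1 := by rw [hT]; exact Nat.ceil_lt_add_one (by positivity)
  have t3 : (T:ℝ) ≤ 2 * (1 / l) := by linarith
  have hT1 : 1 ≤ T := by
    have : (1:ℝ) ≤ T := h1l.trans t1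
    exact_mod_cast this
  have hpt : ∀ k ∈ range m, ((k:ℝ) + 1) ^ (-(1/4) : ℝ) / (1 + l * ((k:ℝ) + 1)) ≤
      (if k < T then ((k:ℝ) + 1) ^ (-(1/4) : ℝ) else 0) +
        1 / l * (if T ≤ k then ((k:ℝ) + 1) ^ (-(5/4) : ℝ) else 0) := by
    intro k _
    by_cases h : T ≤ k
    · rw [if_neg (by omega), if_pos h, zero_add]
      have hk : (0:ℝ) < (k:ℝ) + 1 := by positivity
      have e : ((k:ℝ) + 1) ^ (-(5/4) : ℝ) = ((k:ℝ) + 1) ^ (-(1/4) : ℝ) / ((k:ℝ) + 1) := by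
        rw [show (-(5/4) : ℝ) = -(1/4) - 1 by norm_num, Real.rpow_sub hk, Real.rpow_one]
      rw [e, div_mul_div_comm, one_mul]
      apply div_le_div_of_nonneg_left (by positivity) (by positivity)
      linarith
    · rw [if_pos (by omega), if_neg h, mul_zero, add_zero]
      exact hle k
  refine (Finset.sum_le_sum hpt).trans ?_
  rw [Finset.sum_add_distrib, ← Finset.mul_sum]
  have s1 : ∑ k ∈ range m, (if k < T then ((k:ℝ) + 1) ^ (-(1/4) : ℝ) else 0) ≤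
      2 * (T:ℝ) ^ (3/4 : ℝ) := by
    rw [← Finset.sum_filter]
    refine le_trans (Finset.sum_le_sum_of_subset_of_nonneg (t := range T) ?_ ?_) (h1 T)
    · intro k hk
      rw [Finset.mem_filter] at hk
      exact Finset.mem_range.2 hk.2
    · intro k _ _; positivity
  have s2 := tail54 hT1 m
  have hX : (0:ℝ) < (l ^ (3/4 : ℝ))⁻¹ := by positivity
  have e1 : (T:ℝ) ^ (3/4 : ℝ) ≤ 2 * (l ^ (3/4 : ℝ))⁻¹ := by
    have h2 : (T:ℝ) ^ (3/4 : ℝ) ≤ (2 * (1 / l)) ^ (3/4 : ℝ) :=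
      Real.rpow_le_rpow (by positivity) t3 (by norm_num)
    rw [Real.mul_rpow (by norm_num) (by positivity), one_div, Real.inv_rpow hl0.le] at h2
    have h3 : (2:ℝ) ^ (3/4 : ℝ) ≤ 2 := by
      have := Real.rpow_le_rpow_of_exponent_le (show (1:ℝ) ≤ 2 by norm_num)
        (show (3/4 : ℝ) ≤ 1 by norm_num)
      rwa [Real.rpow_one] at this
    exact h2.trans (mul_le_mul_of_nonneg_right h3 hX.le)
  have e2 : 1 / l * (4 * (T:ℝ) ^ (-(1/4) : ℝ)) ≤ 4 * (l ^ (3/4 : ℝ))⁻¹ := by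
    have h2 : (T:ℝ) ^ (-(1/4) : ℝ) ≤ (1 / l) ^ (-(1/4) : ℝ) :=
      Real.rpow_le_rpow_of_nonpos (by positivity) t1 (by norm_num)
    have h3 : (1 / l) ^ (-(1/4) : ℝ) = l ^ (1/4 : ℝ) := by
      rw [one_div, Real.inv_rpow hl0.le, Real.rpow_neg hl0.le, inv_inv]
    have h4 : 1 / l * l ^ (1/4 : ℝ) = (l ^ (3/4 : ℝ))⁻¹ := by
      rw [← Real.rpow_neg hl0.le, one_div, ← Real.rpow_neg_one, ← Real.rpow_add hl0]
      norm_num
    rw [h3] at h2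
    have h5 : 1 / l * (4 * (T:ℝ) ^ (-(1/4) : ℝ)) ≤ 1 / l * (4 * l ^ (1/4 : ℝ)) :=
      mul_le_mul_of_nonneg_left (by linarith) (by positivity)
    calc 1 / l * (4 * (T:ℝ) ^ (-(1/4) : ℝ)) ≤ 1 / l * (4 * l ^ (1/4 : ℝ)) := h5
      _ = 4 * (1 / l * l ^ (1/4 : ℝ)) := by ring
      _ = _ := by rw [h4]
  have e3 : 1 / l * (∑ k ∈ range m, (if T ≤ k then ((k:ℝ) + 1) ^ (-(5/4) : ℝ) else 0)) ≤
      1 / l * (4 * (T:ℝ) ^ (-(1/4) : ℝ)) := mul_le_mul_of_nonneg_left s2 (by positivity)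
  linarith

/-! ### sums over the torus -/

/-- Sum of a function of the distance. -/
theorem sum_tds {n : ℕ} [NeZero n] (z : TE n) (R : ℕ) (Q : Finset (TE n))
    (hQ : ∀ y ∈ Q, tds y z ≤ R) (φ : ℕ → ℝ) (hφ : ∀ b, 0 ≤ φ b) :
    ∑ y ∈ Q, φ (tds y z) ≤ 18 * ∑ b ∈ range (R + 1), ((b:ℝ) + 1) * φ b := by
  obtain ⟨L, hL⟩ : ∃ L : TE n → Edg, L = fun y =>
    ((y.1 - z.1).valMinAbs, (y.2.1 - z.2.1).valMinAbs, y.2.2) := ⟨_, rfl⟩
  have hinj : Function.Injective L := by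
    intro y y' h
    rw [hL] at h
    simp only [Prod.mk.injEq] at h
    obtain ⟨h1, h2, h3⟩ := h
    have h4 := ZMod.valMinAbs_inj.1 h1
    have h5 := ZMod.valMinAbs_inj.1 h2
    exact Prod.ext (sub_left_injective h4) (Prod.ext (sub_left_injective h5) h3)
  have hd : ∀ y, dd (0, 0, false) (L y) = tds y z := by
    intro y
    rw [hL]
    unfold dd tds zd
    simp
  have h1 : ∑ y ∈ Q, φ (tds y z) = ∑ f ∈ Q.image L, φ (dd (0, 0, false) f) := by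
    rw [Finset.sum_image (fun a _ b _ h => hinj h)]
    exact Finset.sum_congr rfl (fun y _ => by rw [hd])
  rw [h1]
  apply sum_dist _ _ _ _ _ hφ
  intro f hf
  obtain ⟨y, hy, rfl⟩ := Finset.mem_image.1 hf
  rw [hd]
  exact hQ y hy

theorem card_inj_half {n : ℕ} (hn : 3 ≤ n) : n / 2 ≤ (n - 1) / 2 + 1 ∧ 1 ≤ (n - 1) / 2 ∧
    2 * ((n - 1) / 2) + 1 ≤ n := by omega

/-- Sum of the kernel. -/
theorem kern_sum : ∃ C : ℝ, 1 ≤ C ∧ ∀ (n : ℕ) [NeZero n], 3 ≤ n → ∀ q : ℝ, 0 ≤ q → q ≤ 1 →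
    ∀ (z : TE n) (j : ℕ),
      ∑ y : TE n, (if tds y z < 2 ^ (j + 1) then psi (wt q) ((n - 1) / 2) (tds y z) else 0) ≤
        C * min (((2:ℝ) ^ j) ^ (3/4 : ℝ)) (xs n q)⁻¹ := by
  refine ⟨400 * WW, by linarith [WW_one], ?_⟩
  intro n _ hn q q0 q1 z j
  have hW := WW_one
  obtain ⟨N, hN⟩ : ∃ N : ℕ, N = (n - 1) / 2 := ⟨_, rfl⟩
  rw [← hN]
  obtain ⟨c1, c2, c3⟩ := card_inj_half hn
  rw [← hN] at c1 c2 c3
  have hl := lam_nonneg q
  have hl1 := lam_le_one q0 q1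
  obtain ⟨l, hl'⟩ : ∃ l : ℝ, l = |q - 1/2| ^ (4/3 : ℝ) := ⟨_, rfl⟩
  rw [← hl'] at hl hl1
  obtain ⟨R, hR⟩ : ∃ R : ℕ, R = min (2 ^ (j + 1)) (n / 2) := ⟨_, rfl⟩
  -- reduction to one dimension
  have h1 : ∑ y : TE n, (if tds y z < 2 ^ (j + 1) then psi (wt q) N (tds y z) else 0) ≤
      18 * ∑ b ∈ range (R + 1), ((b:ℝ) + 1) * psi (wt q) N b := by
    rw [← Finset.sum_filter]
    apply sum_tds z R
    · intro y hy
      rw [Finset.mem_filter] at hy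
      rw [hR]
      exact le_min hy.2.le (tds_le y z)
    · intro b; exact psi_nn q N b
  have h2 : ∀ b ∈ range (R + 1), ((b:ℝ) + 1) * psi (wt q) N b ≤
      2 * WW * (((b:ℝ) + 1) ^ (-(1/4) : ℝ) / (1 + l * ((b:ℝ) + 1))) := by
    intro b hb
    rw [Finset.mem_range] at hb
    have hbN : b ≤ N + 1 := by
      have : R ≤ n / 2 := by rw [hR]; exact min_le_right _ _
      omega
    have h3 := psi_le q0 q1 (N := N) (s := b) (t := b + 1) (by omega) (by omega)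
    rw [← hl'] at h3
    push_cast at h3
    have hb0 : (0:ℝ) < (b:ℝ) + 1 := by positivity
    have e : ((b:ℝ) + 1) * (((b:ℝ) + 1) ^ (-(5/4) : ℝ)) = ((b:ℝ) + 1) ^ (-(1/4) : ℝ) := by
      nth_rewrite 1 [← Real.rpow_one ((b:ℝ) + 1)]
      rw [← Real.rpow_add hb0]
      norm_num
    calc ((b:ℝ) + 1) * psi (wt q) N b ≤ ((b:ℝ) + 1) *
        (2 * WW * (((b:ℝ) + 1) ^ (-(5/4) : ℝ) / (1 + l * ((b:ℝ) + 1)))) :=
          mul_le_mul_of_nonneg_left h3 hb0.le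
      _ = 2 * WW * ((((b:ℝ) + 1) * (((b:ℝ) + 1) ^ (-(5/4) : ℝ))) / (1 + l * ((b:ℝ) + 1))) := by
          ring
      _ = _ := by rw [e]
  have h3 : ∑ b ∈ range (R + 1), ((b:ℝ) + 1) * psi (wt q) N b ≤
      2 * WW * ∑ b ∈ range (R + 1), ((b:ℝ) + 1) ^ (-(1/4) : ℝ) / (1 + l * ((b:ℝ) + 1)) := by
    rw [Finset.mul_sum]
    exact Finset.sum_le_sum h2
  obtain ⟨S, hS⟩ : ∃ S : ℝ, S = ∑ b ∈ range (R + 1),
    ((b:ℝ) + 1) ^ (-(1/4) : ℝ) / (1 + l * ((b:ℝ) + 1)) := ⟨_, rfl⟩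
  rw [← hS] at h3
  have hs := sum1d hl hl1 (R + 1)
  rw [← hS] at hs
  -- the two bounds
  have hS0 : 0 ≤ S := by rw [hS]; exact Finset.sum_nonneg (fun k _ => by positivity)
  have b1 : S ≤ 8 * ((2:ℝ) ^ j) ^ (3/4 : ℝ) := by
    refine hs.1.trans ?_
    have e1 : ((R + 1 : ℕ):ℝ) ≤ 4 * 2 ^ j := by
      have e2 : R ≤ 2 ^ (j + 1) := by rw [hR]; exact min_le_left _ _
      have e3 : 1 ≤ 2 ^ j := Nat.one_le_two_pow
      have e4 : R + 1 ≤ 4 * 2 ^ j := by rw [pow_succ] at e2; omega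
      exact_mod_cast e4
    have e5 : ((R + 1 : ℕ):ℝ) ^ (3/4 : ℝ) ≤ 4 * ((2:ℝ) ^ j) ^ (3/4 : ℝ) := by
      refine (Real.rpow_le_rpow (by positivity) e1 (by norm_num)).trans ?_
      rw [Real.mul_rpow (by norm_num) (by positivity)]
      apply mul_le_mul_of_nonneg_right _ (by positivity)
      have := Real.rpow_le_rpow_of_exponent_le (show (1:ℝ) ≤ 4 by norm_num)
        (show (3/4 : ℝ) ≤ 1 by norm_num)
      rwa [Real.rpow_one] at this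
    linarith
  have hn0 : (0:ℝ) < n := by exact_mod_cast (by omega : 0 < n)
  have b2 : S ≤ 10 * (xs n q)⁻¹ := by
    unfold xs
    rcases le_total ((n:ℝ) ^ (-(3/4) : ℝ)) |q - 1/2| with h | h
    · rw [max_eq_right h]
      have hq : 0 < |q - 1/2| := lt_of_lt_of_le (by positivity) h
      have hlp : 0 < l := by rw [hl']; positivity
      have e1 : l ^ (3/4 : ℝ) = |q - 1/2| := by
        rw [hl', ← Real.rpow_mul (abs_nonneg _)]; norm_num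
      have := hs.2 hlp
      rwa [e1] at this
    · rw [max_eq_left h]
      refine hs.1.trans ?_
      have e1 : ((R + 1 : ℕ):ℝ) ≤ n := by
        have e2 : R ≤ n / 2 := by rw [hR]; exact min_le_right _ _
        exact_mod_cast (by omega : R + 1 ≤ n)
      have e2 : ((R + 1 : ℕ):ℝ) ^ (3/4 : ℝ) ≤ (n:ℝ) ^ (3/4 : ℝ) :=
        Real.rpow_le_rpow (by positivity) e1 (by norm_num)
      rw [Real.rpow_neg hn0.le, inv_inv]
      have : (0:ℝ) ≤ (n:ℝ) ^ (3/4 : ℝ) := by positivity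
      linarith
  have hx0 : 0 < xs n q := lt_of_lt_of_le (by positivity) (le_max_left _ _)
  have b3 : S ≤ 10 * min (((2:ℝ) ^ j) ^ (3/4 : ℝ)) (xs n q)⁻¹ := by
    rcases le_total (((2:ℝ) ^ j) ^ (3/4 : ℝ)) (xs n q)⁻¹ with h | h
    · rw [min_eq_left h]
      have : (0:ℝ) ≤ ((2:ℝ) ^ j) ^ (3/4 : ℝ) := by positivity
      linarith
    · rw [min_eq_right h]; exact b2
  have hmin : 0 ≤ min (((2:ℝ) ^ j) ^ (3/4 : ℝ)) (xs n q)⁻¹ := le_min (by positivity) (by positivity)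
  calc ∑ y : TE n, (if tds y z < 2 ^ (j + 1) then psi (wt q) N (tds y z) else 0)
      ≤ 18 * (2 * WW * S) := h1.trans (mul_le_mul_of_nonneg_left h3 (by norm_num))
    _ ≤ 18 * (2 * WW * (10 * min (((2:ℝ) ^ j) ^ (3/4 : ℝ)) (xs n q)⁻¹)) := by
        apply mul_le_mul_of_nonneg_left _ (by norm_num)
        exact mul_le_mul_of_nonneg_left b3 (by positivity)
    _ ≤ _ := by nlinarith

end Pool.Agent.NH39.W
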