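import Pool.Agent.NH39.W.Ann3
import Pool.Agent.NH39.W.Sum1

/-! Project W: the sum over all sets of edges (`S_SUM`). -/

set_option autoImplicit false

namespace Pool.Agent.NH39.W

open H974 H12S H389NS Finset Pool.Agent.NH39 Pool.Agent.NH39.GC

/-! ### the sum over the scales -/

/-- Two-sided geometric sum. -/
theorem geo_sum {ρ : ℝ} (hρ : 1 < ρ) : ∃ B : ℝ, 1 ≤ B ∧ ∀ (v : ℝ) (m : ℕ), 0 < v →
    ∑ j ∈ range m, min (ρ ^ j * v) (ρ ^ j * v)⁻¹ ≤ B := by
  have hd : 0 < ρ - 1 := by linarith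
  obtain ⟨B, hB⟩ : ∃ B : ℝ, B = 2 * (1 + ρ) / (ρ - 1) := ⟨_, rfl⟩
  have hB0 : 0 < B := by rw [hB]; positivity
  have hB1 : 1 ≤ B := by rw [hB, le_div_iff₀ hd]; linarith
  refine ⟨B, hB1, ?_⟩
  have step : ∀ w : ℝ, 0 < w → min w w⁻¹ ≤ B * (ρ * w / (1 + ρ * w)) - B * (w / (1 + w)) := by
    intro w hw
    have e : B * (ρ * w / (1 + ρ * w)) - B * (w / (1 + w)) =
        2 * (1 + ρ) * w / ((1 + ρ * w) * (1 + w)) := by
      rw [hB]
      field_simp
      ring
    rw [e]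
    have hρ0 : 0 < ρ := by linarith
    rcases le_total w 1 with h | h
    · refine (min_le_left _ _).trans ?_
      rw [le_div_iff₀ (by positivity)]
      have h1 : (1 + ρ * w) * (1 + w) ≤ (1 + ρ) * 2 := by
        apply mul_le_mul _ _ (by positivity) (by positivity)
        · nlinarith
        · linarith
      nlinarith
    · refine (min_le_right _ _).trans ?_
      rw [inv_eq_one_div, div_le_div_iff₀ hw (by positivity)]
      have h1 : (1 + ρ * w) * (1 + w) ≤ ((1 + ρ) * w) * (2 * w) := by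
        apply mul_le_mul _ _ (by positivity) (by positivity)
        · nlinarith
        · linarith
      nlinarith
  have key : ∀ (m : ℕ) (v : ℝ), 0 < v → ∑ j ∈ range m, min (ρ ^ j * v) (ρ ^ j * v)⁻¹ ≤
      B * (ρ ^ m * v / (1 + ρ ^ m * v)) - B * (v / (1 + v)) := by
    intro m v hv
    induction m with
    | zero => simp
    | succ m ih =>
      rw [Finset.sum_range_succ]
      have h := step (ρ ^ m * v) (by positivity)
      have e : ρ ^ (m + 1) * v = ρ * (ρ ^ m * v) := by ring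
      rw [e]
      linarith
  intro v m hv
  refine (key m v hv).trans ?_
  have h1 : ρ ^ m * v / (1 + ρ ^ m * v) ≤ 1 := by
    rw [div_le_one (by positivity)]; linarith
  have h2 : 0 ≤ v / (1 + v) := by positivity
  nlinarith

/-- One term. -/
theorem term_le {u X : ℝ} (hu : 0 < u) (hX : 0 < X) {k : ℕ} (hk : 3 ≤ k) :
    (min u X⁻¹) ^ (k - 1) * u ^ (-(5/3) : ℝ) ≤
      X ^ ((8:ℝ)/3 - k) * min ((u * X) ^ (1/3 : ℝ)) ((u * X) ^ (1/3 : ℝ))⁻¹ := by
  obtain ⟨s, hs⟩ : ∃ s : ℝ, s = u * X := ⟨_, rfl⟩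
  have hs0 : 0 < s := by rw [hs]; positivity
  have hu' : u = s * X⁻¹ := by rw [hs]; field_simp
  have e1 : min u X⁻¹ = min s 1 * X⁻¹ := by
    rw [hu', min_mul_of_nonneg _ _ (by positivity : (0:ℝ) ≤ X⁻¹), one_mul]
  have hk1 : ((k - 1 : ℕ):ℝ) = (k:ℝ) - 1 := by
    rw [Nat.cast_sub (by omega)]; norm_num
  have e2 : (X⁻¹) ^ (k - 1) * (X⁻¹) ^ (-(5/3) : ℝ) = X ^ ((8:ℝ)/3 - k) := by
    rw [← Real.rpow_natCast, hk1, Real.inv_rpow hX.le, Real.inv_rpow hX.le, ← Real.rpow_neg hX.le,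
      ← Real.rpow_neg hX.le, ← Real.rpow_add hX]
    congr 1; ring
  have e3 : (min u X⁻¹) ^ (k - 1) * u ^ (-(5/3) : ℝ) =
      X ^ ((8:ℝ)/3 - k) * ((min s 1) ^ (k - 1) * s ^ (-(5/3) : ℝ)) := by
    rw [e1, mul_pow, hu', Real.mul_rpow hs0.le (by positivity), ← e2]
    ring
  rw [e3, ← hs]
  apply mul_le_mul_of_nonneg_left _ (by positivity)
  rcases le_total s 1 with h | h
  · rw [min_eq_left h]
    have e4 : s ^ (k - 1) * s ^ (-(5/3) : ℝ) = s ^ ((k:ℝ) - 8/3) := by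
      rw [← Real.rpow_natCast, hk1, ← Real.rpow_add hs0]
      congr 1; ring
    rw [e4]
    have hk3 : (3:ℝ) ≤ k := by exact_mod_cast hk
    have h1 : s ^ ((k:ℝ) - 8/3) ≤ s ^ (1/3 : ℝ) :=
      Real.rpow_le_rpow_of_exponent_ge hs0 h (by linarith)
    have h2 : s ^ (1/3 : ℝ) ≤ 1 := Real.rpow_le_one hs0.le h (by norm_num)
    apply le_min h1
    refine h1.trans (h2.trans ?_)
    exact (one_le_inv₀ (by positivity)).2 h2
  · rw [min_eq_right h, one_pow, one_mul]
    have h1 : s ^ (-(5/3) : ℝ) ≤ s ^ (-(1/3) : ℝ) :=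
      Real.rpow_le_rpow_of_exponent_le h (by norm_num)
    have h2 : 1 ≤ s ^ (1/3 : ℝ) := Real.one_le_rpow h (by norm_num)
    rw [Real.rpow_neg hs0.le (1/3)] at h1
    apply le_min _ h1
    exact h1.trans ((inv_le_one_of_one_le₀ h2).trans h2)

/-! ### the torus -/

theorem conn_all {n : ℕ} [NeZero n] (hn : 3 ≤ n) (S : Finset (TE n)) :
    conn tds ((n - 1) / 2 + 1) S := by
  rintro A _ ⟨a, ha⟩ ⟨b, hb⟩
  exact ⟨a, ha, b, hb, (tds_le a b).trans (card_inj_half hn).1⟩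

/-- The bound for one set. -/
theorem key_tor (hk : S_KEY) : ∃ a : ℝ, 1 ≤ a ∧ ∀ (n : ℕ) [NeZero n], 3 ≤ n → ∀ q : ℝ, 0 ≤ q →
    q ≤ 1 → ∀ (S : Finset (TE n)) (x : TE n), x ∈ S →
      ∃ (par : TE n → TE n) (rk : TE n → ℕ), (∀ y ∈ S, y ≠ x → par y ∈ S ∧ rk (par y) < rk y) ∧
        Pr (fun _ => q) Finset.univ (Dv n S) ≤
          a ^ (4 * S.card) * (∏ y ∈ S.erase x, psi (wt q) ((n - 1) / 2) (tds y (par y))) *
            psi (wt q) ((n - 1) / 2) (dm tds S) := by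
  obtain ⟨C, hC, hann⟩ := ann
  obtain ⟨a, ha, h⟩ := hk C WW hC WW_one
  refine ⟨a, ha, ?_⟩
  intro n _ hn q q0 q1 S x hx
  obtain ⟨c1, c2, c3⟩ := card_inj_half hn
  exact h (TE n) tds ((n - 1) / 2) q (wt q) (Dv n) tds_self tds_comm tds_tri c2 q0 q1 (wt_one q)
    (fun r hr => wt_pos q hr) (fun r s h1 h2 => wt_anti q h1 h2)
    (fun r s h1 h2 h3 => wt_doub q h1 h2 h3) (fun x r D h1 h2 h3 => hann n _ q c3 q0 q1 x r D h1 h2 h3)
    S x hx (conn_all hn S)

/-- Sum over the sets of `k` edges which contain `x`, of diameter of order `2 ^ j`. -/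
theorem scale_sum (hk : S_KEY) : ∃ C : ℝ, 1 ≤ C ∧ ∀ (n : ℕ) [NeZero n], 3 ≤ n → ∀ q : ℝ, 0 ≤ q →
    q ≤ 1 → ∀ (x : TE n) (k j : ℕ), 2 ≤ k → 2 ^ j ≤ max 1 (n / 2) →
      ∑ S ∈ ((Finset.univ : Finset (TE n)).powersetCard k).filter
          (fun S => x ∈ S ∧ Nat.log 2 (max 1 (dm tds S)) = j),
        Pr (fun _ => q) (Finset.univ : Finset (TE n)) (Dv n S) ≤
        C ^ k * ((min (((2:ℝ) ^ j) ^ (3/4 : ℝ)) (xs n q)⁻¹) ^ (k - 1) *
          (((2:ℝ) ^ j) ^ (3/4 : ℝ)) ^ (-(5/3) : ℝ)) := by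
  classical
  obtain ⟨a, ha, hkey⟩ := key_tor hk
  obtain ⟨CM, hCM, hsum⟩ := kern_sum
  have hW := WW_one
  refine ⟨6 * WW * a ^ 4 * (3 * CM), ?_, ?_⟩
  · have h1 : 1 ≤ a ^ 4 := one_le_pow₀ ha
    have h2 : 1 ≤ WW * a ^ 4 := one_le_mul_of_one_le_of_one_le hW h1
    have h3 : 1 ≤ WW * a ^ 4 * CM := one_le_mul_of_one_le_of_one_le h2 hCM
    nlinarith
  intro n _ hn q q0 q1 x k j hk2 hj
  have ok : Ok (fun _ : TE n => q) := fun _ => ⟨q0, q1⟩
  obtain ⟨c1, c2, c3⟩ := card_inj_half hn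
  obtain ⟨N, hN⟩ : ∃ N : ℕ, N = (n - 1) / 2 := ⟨_, rfl⟩
  rw [← hN] at c1 c2 c3
  obtain ⟨m, hm⟩ : ∃ m : ℝ, m = min (((2:ℝ) ^ j) ^ (3/4 : ℝ)) (xs n q)⁻¹ := ⟨_, rfl⟩
  have hx0 : 0 < xs n q :=
    lt_of_lt_of_le (by
      have : (0:ℝ) < n := by exact_mod_cast (by omega : 0 < n)
      positivity) (le_max_left _ _)
  have hm0 : 0 < m := by rw [hm]; exact lt_min (by positivity) (by positivity)
  -- the kernel
  obtain ⟨κ, hκ⟩ : ∃ κ : TE n → TE n → ℝ, κ = fun y z =>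
    if tds y z < 2 ^ (j + 1) then psi (wt q) N (tds y z) else 0 := ⟨_, rfl⟩
  have hκ0 : ∀ y z, 0 ≤ κ y z := by
    intro y z
    rw [hκ]
    simp only
    split_ifs
    · exact psi_nn q N _
    · exact le_rfl
  have hκs : ∀ z ∈ (Finset.univ : Finset (TE n)), ∑ y ∈ (Finset.univ : Finset (TE n)), κ y z ≤
      CM * m := by
    intro z _
    have := hsum n hn q q0 q1 z j
    rw [← hN, ← hm] at this
    rw [hκ]
    exact this
  -- the weights
  have H : ∀ (S : Finset (TE n)) (x : TE n), ∃ W : ℝ, 0 ≤ W ∧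
      (x ∈ S → ∃ (par : TE n → TE n) (rk : TE n → ℕ),
        (∀ y ∈ S, y ≠ x → par y ∈ S ∧ rk (par y) < rk y) ∧ W ≤ ∏ y ∈ S.erase x, κ y (par y)) ∧
      (x ∈ S → max 1 (dm tds S) < 2 ^ (j + 1) → Pr (fun _ => q) Finset.univ (Dv n S) ≤
        a ^ (4 * S.card) * W * psi (wt q) N (dm tds S)) := by
    intro S x
    by_cases hc : x ∈ S ∧ max 1 (dm tds S) < 2 ^ (j + 1)
    · obtain ⟨par, rk, h1, h2⟩ := hkey n hn q q0 q1 S x hc.1
      rw [← hN] at h2
      refine ⟨∏ y ∈ S.erase x, psi (wt q) N (tds y (par y)),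
        Finset.prod_nonneg (fun y _ => psi_nn q N _), fun _ => ⟨par, rk, h1, ?_⟩, fun _ _ => h2⟩
      apply le_of_eq
      apply Finset.prod_congr rfl
      intro y hy
      rw [Finset.mem_erase] at hy
      have hp := (h1 y hy.2 hy.1).1
      have hd : tds y (par y) ≤ dm tds S := by
        unfold dm
        exact (Finset.le_sup (f := fun b => tds y b) hp).trans
          (Finset.le_sup (f := fun a => S.sup (fun b => tds a b)) hy.2)
      rw [hκ]
      simp only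
      rw [if_pos (by omega)]
    · refine ⟨0, le_rfl, fun hx => ⟨fun _ => x, fun y => if y = x then 0 else 1, ?_, ?_⟩,
        fun h1 h2 => absurd ⟨h1, h2⟩ hc⟩
      · intro y _ hyx
        simp [hx, hyx]
      · exact Finset.prod_nonneg (fun y _ => hκ0 _ _)
  choose W hW0 hW1 hW2 using H
  obtain ⟨Y, hY⟩ : ∃ Y : ℝ, Y = (3 * (CM * m))⁻¹ := ⟨_, rfl⟩
  have hCm : 0 < CM * m := by positivity
  have hY0 : 0 < Y := by rw [hY]; positivity
  have htree := Pool.Agent.Y21.NE.tree (Finset.univ : Finset (TE n)) κ W (CM * m) Y hκ0 hκs hY0.le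
    (by rw [hY]; rw [mul_inv_cancel₀ (by positivity)]) (fun S _ x hx => hW1 S x hx) x
    (Finset.mem_univ x)
  -- the sum of the weights
  have hYk : ∑ S ∈ ((Finset.univ : Finset (TE n)).powersetCard k).filter (fun S => x ∈ S), W S x ≤
      3 * (3 * (CM * m)) ^ (k - 1) := by
    have h1 : ∑ S ∈ ((Finset.univ : Finset (TE n)).powersetCard k).filter (fun S => x ∈ S),
        Y ^ k * W S x ≤ 3 * Y := by
      refine le_trans ?_ htree
      have h2 : ∑ S ∈ ((Finset.univ : Finset (TE n)).powersetCard k).filter (fun S => x ∈ S),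
          Y ^ k * W S x = ∑ S ∈ ((Finset.univ : Finset (TE n)).powersetCard k).filter
            (fun S => x ∈ S), Y ^ S.card * W S x := by
        apply Finset.sum_congr rfl
        intro S hS
        rw [Finset.mem_filter, Finset.mem_powersetCard] at hS
        rw [hS.1.2]
      rw [h2]
      apply Finset.sum_le_sum_of_subset_of_nonneg
      · intro S hS
        rw [Finset.mem_filter, Finset.mem_powersetCard] at hS
        rw [Finset.mem_filter, Finset.mem_powerset]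
        exact ⟨hS.1.1, hS.2⟩
      · intro S _ _
        exact mul_nonneg (by positivity) (hW0 _ _)
    rw [← Finset.mul_sum] at h1
    have h3 : Y ^ k = Y * Y ^ (k - 1) := by
      rw [← pow_succ']; congr 1; omega
    rw [h3, mul_assoc, mul_comm 3 Y] at h1
    have h4 := le_of_mul_le_mul_left h1 hY0
    have h5 : Y ^ (k - 1) * (3 * (CM * m)) ^ (k - 1) = 1 := by
      rw [← mul_pow, hY, inv_mul_cancel₀ (by positivity), one_pow]
    have h6 : 0 ≤ (3 * (CM * m)) ^ (k - 1) := by positivity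
    have h7 := mul_le_mul_of_nonneg_right h4 h6
    rw [mul_comm (Y ^ (k - 1)), mul_assoc, h5, mul_one] at h7
    exact h7
  -- the weight of the diameter
  obtain ⟨u, hu⟩ : ∃ u : ℝ, u = ((2:ℝ) ^ j) ^ (3/4 : ℝ) := ⟨_, rfl⟩
  have hpsi : ∀ S : Finset (TE n), Nat.log 2 (max 1 (dm tds S)) = j →
      psi (wt q) N (dm tds S) ≤ 2 * WW * u ^ (-(5/3) : ℝ) := by
    intro S hS
    have h1 : 2 ^ j ≤ max 1 (dm tds S) := by
      rw [← hS]
      exact Nat.pow_log_le_self 2 (by omega)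
    have hpos : 1 ≤ 2 ^ j := Nat.one_le_two_pow
    have h2 : psi (wt q) N (dm tds S) ≤ psi (wt q) N (2 ^ j) := by
      unfold psi
      apply wt_anti q (le_max_left _ _)
      omega
    refine h2.trans ?_
    have h3 := psi_le q0 q1 (N := N) (s := 2 ^ j) (t := 2 ^ j) (by omega) (by omega)
    refine h3.trans ?_
    apply mul_le_mul_of_nonneg_left _ (by positivity)
    push_cast
    have e : u ^ (-(5/3) : ℝ) = ((2:ℝ) ^ j) ^ (-(5/4) : ℝ) := by
      rw [hu, ← Real.rpow_mul (by positivity)]; norm_num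
    rw [e]
    apply div_le_self (by positivity)
    have : 0 ≤ |q - 1/2| ^ (4/3 : ℝ) * 2 ^ j := by positivity
    linarith
  rw [← hm, ← hu]
  have hu0 : 0 < u := by rw [hu]; positivity
  have hterm : ∀ S ∈ ((Finset.univ : Finset (TE n)).powersetCard k).filter
      (fun S => x ∈ S ∧ Nat.log 2 (max 1 (dm tds S)) = j),
      Pr (fun _ => q) (Finset.univ : Finset (TE n)) (Dv n S) ≤
        (a ^ (4 * k) * (2 * WW * u ^ (-(5/3) : ℝ))) * W S x := by
    intro S hS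
    rw [Finset.mem_filter, Finset.mem_powersetCard] at hS
    obtain ⟨⟨-, h1⟩, h2, h3⟩ := hS
    have h4 : max 1 (dm tds S) < 2 ^ (j + 1) := by
      rw [← h3]
      exact Nat.lt_pow_succ_log_self (by norm_num) _
    have h5 := hW2 S x h2 h4
    rw [h1] at h5
    refine h5.trans ?_
    have h6 : 0 ≤ a ^ (4 * k) * W S x := mul_nonneg (by positivity) (hW0 _ _)
    calc a ^ (4 * k) * W S x * psi (wt q) N (dm tds S) ≤
          a ^ (4 * k) * W S x * (2 * WW * u ^ (-(5/3) : ℝ)) :=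
          mul_le_mul_of_nonneg_left (hpsi S h3) h6
      _ = _ := by ring
  refine (Finset.sum_le_sum hterm).trans ?_
  rw [← Finset.mul_sum]
  have hsub : ∑ S ∈ ((Finset.univ : Finset (TE n)).powersetCard k).filter
      (fun S => x ∈ S ∧ Nat.log 2 (max 1 (dm tds S)) = j), W S x ≤
      ∑ S ∈ ((Finset.univ : Finset (TE n)).powersetCard k).filter (fun S => x ∈ S), W S x := by
    apply Finset.sum_le_sum_of_subset_of_nonneg
    · intro S hS
      rw [Finset.mem_filter] at hS ⊢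
      exact ⟨hS.1, hS.2.1⟩
    · intro S _ _
      exact hW0 _ _
  have hfin := hsub.trans hYk
  have hpos : 0 ≤ a ^ (4 * k) * (2 * WW * u ^ (-(5/3) : ℝ)) := by positivity
  refine (mul_le_mul_of_nonneg_left hfin hpos).trans ?_
  -- constants
  have e1 : (6 * WW * a ^ 4 * (3 * CM)) ^ k =
      (6 * WW) ^ k * (a ^ (4 * k) * ((3 * CM) ^ (k - 1) * (3 * CM))) := by
    rw [← pow_succ, Nat.sub_add_cancel (by omega), mul_pow, mul_pow, ← pow_mul]
    ring
  rw [e1]
  have h6W : 6 * WW ≤ (6 * WW) ^ k := by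
    have h1 : 1 ≤ 6 * WW := by linarith
    calc 6 * WW = (6 * WW) ^ 1 := (pow_one _).symm
      _ ≤ (6 * WW) ^ k := pow_le_pow_right₀ h1 (by omega)
  have h3C : 1 ≤ 3 * CM := by linarith
  have e2 : a ^ (4 * k) * (2 * WW * u ^ (-(5/3) : ℝ)) * (3 * (3 * (CM * m)) ^ (k - 1)) =
      (6 * WW) * (a ^ (4 * k) * (3 * CM) ^ (k - 1)) * (m ^ (k - 1) * u ^ (-(5/3) : ℝ)) := by
    rw [show 3 * (CM * m) = 3 * CM * m by ring, mul_pow]
    ring
  rw [e2]
  apply mul_le_mul_of_nonneg_right _ (by positivity)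
  have p1 : 0 ≤ a ^ (4 * k) * (3 * CM) ^ (k - 1) := by positivity
  calc (6 * WW) * (a ^ (4 * k) * (3 * CM) ^ (k - 1)) ≤
        (6 * WW) ^ k * (a ^ (4 * k) * (3 * CM) ^ (k - 1)) := mul_le_mul_of_nonneg_right h6W p1
    _ ≤ (6 * WW) ^ k * ((a ^ (4 * k) * (3 * CM) ^ (k - 1)) * (3 * CM)) := by
        apply mul_le_mul_of_nonneg_left _ (by positivity)
        exact le_mul_of_one_le_right p1 h3C
    _ = _ := by ring

/-- SUM. -/
theorem sumk (hk : S_KEY) : S_SUM := by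
  classical
  obtain ⟨C, hC, hsc⟩ := scale_sum hk
  have hρ : (1:ℝ) < 2 ^ (1/4 : ℝ) := Real.one_lt_rpow (by norm_num) (by norm_num)
  obtain ⟨B, hB, hgeo⟩ := geo_sum hρ
  refine ⟨8 * C ^ 2 * (B + 1), ?_, ?_⟩
  · have : 1 ≤ C ^ 2 := one_le_pow₀ hC
    nlinarith
  intro n _ hn q q0 q1
  have ok : Ok (fun _ : TE n => q) := fun _ => ⟨q0, q1⟩
  have hn0 : (0:ℝ) < n := by exact_mod_cast (by omega : 0 < n)
  obtain ⟨J, hJ⟩ : ∃ J : ℕ, J = Nat.log 2 (max 1 (n / 2)) := ⟨_, rfl⟩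
  have hx0 : 0 < xs n q := lt_of_lt_of_le (by positivity) (le_max_left _ _)
  obtain ⟨X, hX⟩ : ∃ X : ℝ, X = xs n q := ⟨_, rfl⟩
  rw [← hX] at hx0
  -- reduction to the scales
  have hred : ∀ k : ℕ, 2 ≤ k → ∀ T : ℝ,
      (∑ j ∈ range (J + 1), (min (((2:ℝ) ^ j) ^ (3/4 : ℝ)) X⁻¹) ^ (k - 1) *
          (((2:ℝ) ^ j) ^ (3/4 : ℝ)) ^ (-(5/3) : ℝ) ≤ T) →
      ∑ S ∈ (Finset.univ : Finset (TE n)).powersetCard k,
        Pr (fun _ => q) (Finset.univ : Finset (TE n)) (Dv n S) ≤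
        2 * (n:ℝ) ^ 2 * (C ^ k * T) := by
    intro k hk2 T hT
    have h1 : ∀ S ∈ (Finset.univ : Finset (TE n)).powersetCard k,
        Pr (fun _ => q) (Finset.univ : Finset (TE n)) (Dv n S) ≤
        ∑ x : TE n, if x ∈ S then Pr (fun _ => q) (Finset.univ : Finset (TE n)) (Dv n S) else 0 := by
      intro S hS
      rw [Finset.mem_powersetCard] at hS
      have hne : S.Nonempty := by
        rw [← Finset.card_pos]; omega
      obtain ⟨x, hx⟩ := hne
      have h2 := Finset.single_le_sum (f := fun x : TE n => if x ∈ S then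
        Pr (fun _ => q) (Finset.univ : Finset (TE n)) (Dv n S) else 0) (s := Finset.univ)
        (fun y _ => by
          split_ifs
          · exact Pr_nonneg ok _ _
          · exact le_rfl) (Finset.mem_univ x)
      refine le_trans (le_of_eq ?_) h2
      rw [if_pos hx]
    refine (Finset.sum_le_sum h1).trans ?_
    rw [Finset.sum_comm]
    have h2 : ∀ x ∈ (Finset.univ : Finset (TE n)),
        ∑ S ∈ (Finset.univ : Finset (TE n)).powersetCard k,
          (if x ∈ S then Pr (fun _ => q) (Finset.univ : Finset (TE n)) (Dv n S) else 0) ≤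
        C ^ k * T := by
      intro x _
      rw [← Finset.sum_filter]
      have h3 : ∑ S ∈ ((Finset.univ : Finset (TE n)).powersetCard k).filter (fun S => x ∈ S),
          Pr (fun _ => q) (Finset.univ : Finset (TE n)) (Dv n S) =
          ∑ j ∈ range (J + 1), ∑ S ∈ (((Finset.univ : Finset (TE n)).powersetCard k).filter
            (fun S => x ∈ S)).filter (fun S => Nat.log 2 (max 1 (dm tds S)) = j),
            Pr (fun _ => q) (Finset.univ : Finset (TE n)) (Dv n S) := by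
        symm
        apply Finset.sum_fiberwise_of_maps_to
        intro S _
        rw [Finset.mem_range]
        have h4 : dm tds S ≤ n / 2 := by
          unfold dm
          exact Finset.sup_le (fun a _ => Finset.sup_le (fun b _ => tds_le a b))
        have h5 : Nat.log 2 (max 1 (dm tds S)) ≤ J := by
          rw [hJ]
          exact Nat.log_mono_right (max_le_max le_rfl h4)
        omega
      rw [h3]
      have h6 : ∀ j ∈ range (J + 1), ∑ S ∈ (((Finset.univ : Finset (TE n)).powersetCard k).filter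
            (fun S => x ∈ S)).filter (fun S => Nat.log 2 (max 1 (dm tds S)) = j),
            Pr (fun _ => q) (Finset.univ : Finset (TE n)) (Dv n S) ≤
          C ^ k * ((min (((2:ℝ) ^ j) ^ (3/4 : ℝ)) X⁻¹) ^ (k - 1) *
          (((2:ℝ) ^ j) ^ (3/4 : ℝ)) ^ (-(5/3) : ℝ)) := by
        intro j hj
        rw [Finset.mem_range] at hj
        rw [Finset.filter_filter, hX]
        refine hsc n hn q q0 q1 x k j hk2 ?_
        calc 2 ^ j ≤ 2 ^ J := Nat.pow_le_pow_right (by norm_num) (by omega)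
          _ ≤ max 1 (n / 2) := by rw [hJ]; exact Nat.pow_log_le_self 2 (by omega)
      refine (Finset.sum_le_sum h6).trans ?_
      rw [← Finset.mul_sum]
      exact mul_le_mul_of_nonneg_left hT (by positivity)
    refine (Finset.sum_le_sum h2).trans (le_of_eq ?_)
    rw [Finset.sum_const, nsmul_eq_mul, Finset.card_univ, card_TE]
  constructor
  · -- two edges
    have hT : ∑ j ∈ range (J + 1), (min (((2:ℝ) ^ j) ^ (3/4 : ℝ)) X⁻¹) ^ (2 - 1) *
          (((2:ℝ) ^ j) ^ (3/4 : ℝ)) ^ (-(5/3) : ℝ) ≤ 4 := by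
      have h1 : ∀ j ∈ range (J + 1), (min (((2:ℝ) ^ j) ^ (3/4 : ℝ)) X⁻¹) ^ (2 - 1) *
          (((2:ℝ) ^ j) ^ (3/4 : ℝ)) ^ (-(5/3) : ℝ) ≤ ((3:ℝ)/4) ^ j := by
        intro j _
        have e0 : 2 - 1 = 1 := rfl
        rw [e0, pow_one]
        have h2 : min (((2:ℝ) ^ j) ^ (3/4 : ℝ)) X⁻¹ * (((2:ℝ) ^ j) ^ (3/4 : ℝ)) ^ (-(5/3) : ℝ) ≤
            ((2:ℝ) ^ j) ^ (3/4 : ℝ) * (((2:ℝ) ^ j) ^ (3/4 : ℝ)) ^ (-(5/3) : ℝ) :=
          mul_le_mul_of_nonneg_right (min_le_left _ _) (by positivity)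
        refine h2.trans ?_
        rw [← Real.rpow_mul (by positivity), ← Real.rpow_add (by positivity)]
        have e1 : (3/4 : ℝ) + 3/4 * (-(5/3)) = -(1/2) := by norm_num
        rw [e1, ← Real.rpow_natCast, ← Real.rpow_mul (by norm_num), mul_comm (j:ℝ),
          Real.rpow_mul (by norm_num), Real.rpow_natCast]
        apply pow_le_pow_left₀ (by positivity)
        rw [Real.rpow_neg (by norm_num), ← Real.sqrt_eq_rpow]
        rw [inv_le_comm₀ (by positivity) (by norm_num)]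
        apply Real.le_sqrt_of_sq_le
        norm_num
      refine (Finset.sum_le_sum h1).trans ?_
      have h2 := Summable.sum_le_tsum (range (J + 1)) (fun j _ => by positivity)
        (summable_geometric_of_lt_one (by norm_num : (0:ℝ) ≤ 3/4) (by norm_num))
      rw [tsum_geometric_of_lt_one (by norm_num) (by norm_num)] at h2
      norm_num at h2 ⊢
      exact h2
    refine (hred 2 le_rfl 4 hT).trans ?_
    have h1 : (0:ℝ) ≤ C ^ 2 * (n:ℝ) ^ 2 := by positivity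
    nlinarith
  · intro k hk3
    have hT : ∑ j ∈ range (J + 1), (min (((2:ℝ) ^ j) ^ (3/4 : ℝ)) X⁻¹) ^ (k - 1) *
          (((2:ℝ) ^ j) ^ (3/4 : ℝ)) ^ (-(5/3) : ℝ) ≤ X ^ ((8:ℝ)/3 - k) * B := by
      have h1 : ∀ j ∈ range (J + 1), (min (((2:ℝ) ^ j) ^ (3/4 : ℝ)) X⁻¹) ^ (k - 1) *
          (((2:ℝ) ^ j) ^ (3/4 : ℝ)) ^ (-(5/3) : ℝ) ≤ X ^ ((8:ℝ)/3 - k) *
            min (((2:ℝ) ^ (1/4 : ℝ)) ^ j * X ^ (1/3 : ℝ))
              (((2:ℝ) ^ (1/4 : ℝ)) ^ j * X ^ (1/3 : ℝ))⁻¹ := by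
        intro j _
        have h2 := term_le (u := ((2:ℝ) ^ j) ^ (3/4 : ℝ)) (by positivity) hx0 hk3
        have e1 : (((2:ℝ) ^ j) ^ (3/4 : ℝ) * X) ^ (1/3 : ℝ) =
            ((2:ℝ) ^ (1/4 : ℝ)) ^ j * X ^ (1/3 : ℝ) := by
          rw [Real.mul_rpow (by positivity) hx0.le, ← Real.rpow_mul (by positivity),
            ← Real.rpow_natCast, ← Real.rpow_natCast, ← Real.rpow_mul (by norm_num),
            ← Real.rpow_mul (by norm_num)]
          congr 2; ring
        rw [e1] at h2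
        exact h2
      refine (Finset.sum_le_sum h1).trans ?_
      rw [← Finset.mul_sum]
      exact mul_le_mul_of_nonneg_left (hgeo _ _ (by positivity)) (by positivity)
    refine (hred k (by omega) _ hT).trans ?_
    rw [← hX]
    have hCk : C ^ k ≤ (C ^ 2) ^ k := by
      apply pow_le_pow_left₀ (by linarith)
      nlinarith
    have e1 : (8 * C ^ 2 * (B + 1)) ^ k = (C ^ 2) ^ k * ((8 * (B + 1)) ^ k) := by
      rw [← mul_pow]; ring
    have h8 : 2 * B ≤ (8 * (B + 1)) ^ k := by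
      have h1 : 1 ≤ 8 * (B + 1) := by linarith
      calc 2 * B ≤ (8 * (B + 1)) ^ 1 := by rw [pow_one]; linarith
        _ ≤ _ := pow_le_pow_right₀ h1 (by omega)
    rw [e1]
    have p0 : 0 ≤ X ^ ((8:ℝ)/3 - k) := by positivity
    calc 2 * (n:ℝ) ^ 2 * (C ^ k * (X ^ ((8:ℝ)/3 - k) * B)) =
          (C ^ k * (2 * B)) * ((n:ℝ) ^ 2 * X ^ ((8:ℝ)/3 - k)) := by ring
      _ ≤ ((C ^ 2) ^ k * (8 * (B + 1)) ^ k) * ((n:ℝ) ^ 2 * X ^ ((8:ℝ)/3 - k)) := by
          apply mul_le_mul_of_nonneg_right _ (by positivity)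
          exact mul_le_mul hCk h8 (by positivity) (by positivity)

/-- UK. -/
theorem uk (hk : S_KEY) (hb : S_BND) : S_UK := by
  obtain ⟨C, hC, h⟩ := sumk hk
  refine ⟨8 * C, by linarith, ?_⟩
  intro n _ hn p p0 p1
  obtain ⟨h2, h3⟩ := h n hn p p0 p1
  constructor
  · refine (hb n p 2 p0 p1 (by norm_num)).trans ?_
    have e : ((Nat.factorial 2 : ℕ):ℝ) = 2 := by norm_num [Nat.factorial]
    rw [e]
    nlinarith
  · intro k hk3
    refine (hb n p k p0 p1 (by omega)).trans ?_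
    have h4 := h3 k hk3
    have hx0 : 0 < xs n p := lt_of_lt_of_le (by
      have : (0:ℝ) < n := by exact_mod_cast (by omega : 0 < n)
      positivity) (le_max_left _ _)
    have p1 : 0 ≤ (n:ℝ) ^ 2 * xs n p ^ ((8:ℝ)/3 - k) := by positivity
    calc (k.factorial : ℝ) * 2 ^ k * ∑ G ∈ (Finset.univ : Finset (TE n)).powersetCard k,
          Pr (fun _ => p) (Finset.univ : Finset (TE n)) (Dv n G) ≤
          (k.factorial : ℝ) * 2 ^ k * (C ^ k * ((n:ℝ) ^ 2 * xs n p ^ ((8:ℝ)/3 - k))) :=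
          mul_le_mul_of_nonneg_left h4 (by positivity)
      _ = (2 * C) ^ k * k.factorial * ((n:ℝ) ^ 2 * xs n p ^ ((8:ℝ)/3 - k)) := by
          rw [mul_pow]; ring
      _ ≤ (8 * C) ^ k * k.factorial * ((n:ℝ) ^ 2 * xs n p ^ ((8:ℝ)/3 - k)) := by
          apply mul_le_mul_of_nonneg_right _ p1
          apply mul_le_mul_of_nonneg_right _ (by positivity)
          apply pow_le_pow_left₀ (by linarith)
          linarith

end Pool.Agent.NH39.W
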