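import Pool.Agent.NH39.W.Stm

/-! Taylor expansion of expectations and bounds for the derivatives of the mean number of clusters. -/

set_option autoImplicit false

namespace Pool.Agent.NH39.W

open H974 Finset Pool.Agent.NH39 Pool.Agent.NH39.GC

/-- The mixed difference in the elements of `insert a G`. -/
theorem dl_insert_h76 {E : Type} [DecidableEq E] (φ : Finset E → ℝ) {a : E} {G : Finset E}
    (ha : a ∉ G) (F : Finset E) :
    Dl φ (insert a G) F = ∑ T ∈ G.powerset, (-1) ^ (G \ T).card *
      (φ (insert a ((F \ insert a G) ∪ T)) - φ ((F \ insert a G) ∪ T)) := by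
  unfold Dl
  rw [Finset.sum_powerset_insert ha, ← Finset.sum_add_distrib]
  refine Finset.sum_congr rfl fun T hT => ?_
  have hTG := Finset.mem_powerset.mp hT
  have haT : a ∉ T := fun h => ha (hTG h)
  have h1 : (insert a G \ T).card = (G \ T).card + 1 := by
    rw [Finset.insert_sdiff_of_notMem _ haT, Finset.card_insert_of_notMem (by simp [ha])]
  have h2 : insert a G \ insert a T = G \ T := by
    ext x
    simp only [Finset.mem_sdiff, Finset.mem_insert]
    constructor
    · rintro ⟨h1 | h1, h2⟩
      · exact absurd (Or.inl h1) h2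
      · exact ⟨h1, fun h => h2 (Or.inr h)⟩
    · rintro ⟨h1, h2⟩
      refine ⟨Or.inr h1, ?_⟩
      rintro (h | h)
      · exact ha (h ▸ h1)
      · exact h2 h
  have h3 : (F \ insert a G) ∪ insert a T = insert a ((F \ insert a G) ∪ T) := by
    rw [Finset.union_insert]
  rw [h1, h2, h3, pow_succ]
  ring

theorem tay : S_TAY := by
  intro E _ S φ p w
  induction S using Finset.induction_on generalizing φ with
  | empty =>
    simp [Ex_empty, Dl]
  | insert a S ha ih =>
    have e0 : ∀ G ∈ S.powerset, Ex (fun _ => p) (insert a S) (Dl φ G) =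
        p * Ex (fun _ => p) S (Dl (fun F => φ (insert a F)) G) +
          (1 - p) * Ex (fun _ => p) S (Dl φ G) := by
      intro G hG
      have hGS := Finset.mem_powerset.mp hG
      have haG : a ∉ G := fun h => ha (hGS h)
      rw [Ex_insert _ ha]
      congr 2
      apply Ex_congr
      intro F _
      unfold Dl
      refine Finset.sum_congr rfl fun T _ => ?_
      rw [Finset.insert_sdiff_of_notMem _ haG, Finset.insert_union]
    have e1 : ∀ G ∈ S.powerset, Ex (fun _ => p) (insert a S) (Dl φ (insert a G)) =
        Ex (fun _ => p) S (Dl (fun F => φ (insert a F)) G) - Ex (fun _ => p) S (Dl φ G) := by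
      intro G hG
      have hGS := Finset.mem_powerset.mp hG
      have haG : a ∉ G := fun h => ha (hGS h)
      have h1 : ∀ F, F ⊆ S → Dl φ (insert a G) F =
          Dl (fun F => φ (insert a F)) G F - Dl φ G F := by
        intro F hF
        have haF : a ∉ F := fun h => ha (hF h)
        rw [dl_insert_h76 φ haG]
        unfold Dl
        rw [← Finset.sum_sub_distrib]
        refine Finset.sum_congr rfl fun T _ => ?_
        have h2 : F \ insert a G = F \ G := by
          ext x
          simp only [Finset.mem_sdiff, Finset.mem_insert]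
          constructor
          · rintro ⟨h1, h2⟩; exact ⟨h1, fun h => h2 (Or.inr h)⟩
          · rintro ⟨h1, h2⟩
            refine ⟨h1, ?_⟩
            rintro (h | h)
            · exact haF (h ▸ h1)
            · exact h2 h
        rw [h2]; ring
      have h2 : ∀ F, F ⊆ S → Dl φ (insert a G) (insert a F) =
          Dl (fun F => φ (insert a F)) G F - Dl φ G F := by
        intro F hF
        rw [← h1 F hF]
        unfold Dl
        refine Finset.sum_congr rfl fun T _ => ?_
        have haF : a ∉ F := fun h => ha (hF h)
        have h2 : insert a F \ insert a G = F \ insert a G := by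
          ext x
          simp only [Finset.mem_sdiff, Finset.mem_insert]
          constructor
          · rintro ⟨h1 | h1, h2⟩
            · exact absurd (Or.inl h1) h2
            · exact ⟨h1, h2⟩
          · rintro ⟨h1, h2⟩; exact ⟨Or.inr h1, h2⟩
        rw [h2]
      rw [Ex_insert _ ha, Ex_congr h1, Ex_congr h2, Ex_sub]
      ring
    rw [Ex_insert _ ha, ih φ, ih (fun F => φ (insert a F)), Finset.sum_powerset_insert ha,
      Finset.mul_sum, Finset.mul_sum, ← Finset.sum_add_distrib, ← Finset.sum_add_distrib]
    refine Finset.sum_congr rfl fun G hG => ?_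
    have hGS := Finset.mem_powerset.mp hG
    have haG : a ∉ G := fun h => ha (hGS h)
    rw [e0 G hG, e1 G hG, Finset.card_insert_of_notMem haG, pow_succ]
    ring

theorem poly_iter_h76 (P : Polynomial ℝ) (k : ℕ) (p : ℝ) :
    iteratedDeriv k (fun x => P.eval x) p = k.factorial * (Polynomial.taylor p P).coeff k := by
  have h1 : ∀ (k : ℕ) (P : Polynomial ℝ), iteratedDeriv k (fun x => P.eval x) =
      fun x => ((Polynomial.derivative^[k]) P).eval x := by
    intro k
    induction k with
    | zero => intro P; simp
    | succ k ih =>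
      intro P
      rw [iteratedDeriv_succ']
      have h2 : deriv (fun x => P.eval x) = fun x => P.derivative.eval x := by
        funext x
        exact P.deriv
      rw [h2, ih, Function.iterate_succ_apply]
  rw [h1, Polynomial.taylor_coeff]
  have h2 := congrArg (fun f => (f P).eval p) (Polynomial.factorial_smul_hasseDeriv (R := ℝ) k)
  simp only [LinearMap.smul_apply] at h2
  show Polynomial.eval p ((Polynomial.derivative^[k]) P) = _
  rw [← h2]
  simp

theorem der : S_DER := by
  intro E _ S φ p k
  have h1 : (fun q : ℝ => Ex (fun _ => q) S φ) = fun q => Polynomial.eval q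
      (∑ G ∈ S.powerset, Polynomial.C (Ex (fun _ => p) S (Dl φ G)) *
        (Polynomial.X - Polynomial.C p) ^ G.card) := by
    funext q
    have h2 := tay E S φ p (q - p)
    rw [add_sub_cancel] at h2
    rw [h2, Polynomial.eval_finsetSum]
    refine Finset.sum_congr rfl fun G _ => ?_
    simp only [Polynomial.eval_mul, Polynomial.eval_C, Polynomial.eval_pow, Polynomial.eval_sub,
      Polynomial.eval_X]
    ring
  rw [h1, poly_iter_h76]
  congr 1
  rw [map_sum, Polynomial.finsetSum_coeff]
  have h3 : ∀ G : Finset E, (Polynomial.taylor p (Polynomial.C (Ex (fun _ => p) S (Dl φ G)) *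
        (Polynomial.X - Polynomial.C p) ^ G.card)).coeff k =
      if G.card = k then Ex (fun _ => p) S (Dl φ G) else 0 := by
    intro G
    rw [Polynomial.taylor_mul, Polynomial.taylor_C]
    have h4 : Polynomial.taylor p ((Polynomial.X - Polynomial.C p) ^ G.card) =
        (Polynomial.X : Polynomial ℝ) ^ G.card := by
      simp [Polynomial.taylor_apply]
    rw [h4, Polynomial.coeff_C_mul, Polynomial.coeff_X_pow]
    by_cases h : G.card = k
    · simp [h]
    · rw [if_neg h, if_neg (fun h' => h h'.symm), mul_zero]
  rw [Finset.sum_congr rfl fun G _ => h3 G, ← Finset.sum_filter]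
  refine Finset.sum_congr ?_ fun _ _ => rfl
  ext G
  simp only [Finset.mem_filter, Finset.mem_powerset, Finset.mem_powersetCard]


/-- The size of the mixed differences for a function with increments in `[-1, 0]`. -/
theorem dl_bound_h76 {E : Type} [DecidableEq E] (φ : Finset E → ℝ)
    (hφ : ∀ (e : E) (F : Finset E), |φ (insert e F) - φ F| ≤ 1) (G F : Finset E)
    (hG : G.Nonempty) : |Dl φ G F| ≤ 2 ^ G.card := by
  obtain ⟨e, he⟩ := hG
  have h1 : insert e (G.erase e) = G := Finset.insert_erase he
  have h2 : G.card = (G.erase e).card + 1 := (Finset.card_erase_add_one he).symm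
  have h3 : |Dl φ (insert e (G.erase e)) F| ≤ 2 ^ (G.erase e).card := by
    rw [dl_insert_h76 φ (Finset.notMem_erase e G)]
    refine (Finset.abs_sum_le_sum_abs _ _).trans ?_
    refine (Finset.sum_le_sum (g := fun _ => (1:ℝ)) fun T _ => ?_).trans ?_
    · rw [abs_mul, abs_pow, abs_neg, abs_one, one_pow, one_mul]
      exact hφ _ _
    · rw [Finset.sum_const, Finset.card_powerset, nsmul_eq_mul, mul_one]
      push_cast
      exact le_rfl
  rw [h1] at h3
  refine h3.trans ?_
  rw [h2, pow_succ]
  have : (0:ℝ) ≤ 2 ^ (G.erase e).card := by positivity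
  linarith

theorem tcl_step_h76 (n : ℕ) [NeZero n] (e : TE n) (F : Finset (TE n)) :
    |tcl n (insert e F) - tcl n F| ≤ 1 := by
  unfold tcl
  rw [Finset.coe_insert, gcc_insert]
  have h1 := ind_nonneg (GC.GR tsrc ttgt (↑F : Set (TE n)) (tsrc e) (ttgt e))
  have h2 := ind_le_one (GC.GR tsrc ttgt (↑F : Set (TE n)) (tsrc e) (ttgt e))
  rw [abs_le]
  constructor <;> linarith

theorem bnd : S_BND := by
  intro n _ p k hp0 hp1 hk
  have hder := der (TE n) (Finset.univ : Finset (TE n)) (tcl n) p k
  have e : tmean n = fun p => Ex (fun _ => p) (Finset.univ : Finset (TE n)) (tcl n) := rfl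
  rw [e, hder, abs_mul, abs_of_nonneg (by positivity : (0:ℝ) ≤ (k.factorial : ℝ)), mul_assoc]
  refine mul_le_mul_of_nonneg_left ?_ (by positivity)
  refine (Finset.abs_sum_le_sum_abs _ _).trans ?_
  rw [Finset.mul_sum]
  refine Finset.sum_le_sum fun G hG => ?_
  have hcard : G.card = k := (Finset.mem_powersetCard.mp hG).2
  have hne : G.Nonempty := Finset.card_pos.mp (by omega)
  have hok : Ok (fun _ : TE n => p) := fun _ => ⟨hp0, hp1⟩
  have h1 : ∀ F, |Dl (tcl n) G F| ≤ 2 ^ k * ind (Dv n G F) := by
    intro F
    by_cases h : Dv n G F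
    · rw [ind_of h, mul_one, ← hcard]
      exact dl_bound_h76 (tcl n) (tcl_step_h76 n) G F hne
    · have h0 : Dl (tcl n) G F = 0 := not_not.mp h
      rw [h0, ind_not_of h]
      simp
  unfold Pr
  rw [abs_le]
  constructor
  · have h2 := Ex_mono hok (S := (Finset.univ : Finset (TE n)))
      (f := fun F => (-(2 ^ k : ℝ)) * ind (Dv n G F)) (g := Dl (tcl n) G)
      (fun F _ => by have := (abs_le.mp (h1 F)).1; linarith)
    rw [Ex_mul_left] at h2
    linarith
  · have h2 := Ex_mono hok (S := (Finset.univ : Finset (TE n)))
      (f := Dl (tcl n) G) (g := fun F => (2 ^ k : ℝ) * ind (Dv n G F))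
      (fun F _ => (abs_le.mp (h1 F)).2)
    rw [Ex_mul_left] at h2
    exact h2

end Pool.Agent.NH39.W
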